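import Mathlib

namespace Pool.Agent.MPba6

open Finset Matrix Classical

variable {ι : Type*}

/-- Every square minor of a matrix whose columns lie in `D` has absolute value at most one. -/
def TS (D : Set (ι → ℝ)) : Prop :=
  ∀ (k : ℕ) (c : Fin k → ι → ℝ) (r : Fin k → ι), (∀ j, c j ∈ D) →
    |(Matrix.of fun i j => c j (r i)).det| ≤ 1

theorem TS.mono {D E : Set (ι → ℝ)} (h : TS E) (hDE : D ⊆ E) : TS D :=
  fun k c r hc => h k c r fun j => hDE (hc j)

theorem TS.det_le {D : Set (ι → ℝ)} (h : TS D) {κ : Type*} [Fintype κ] [DecidableEq κ]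
    (c : κ → ι → ℝ) (r : κ → ι) (hc : ∀ j, c j ∈ D) :
    |(Matrix.of fun i j => c j (r i)).det| ≤ 1 := by
  have e := Fintype.equivFin κ
  have h1 := h (Fintype.card κ) (fun j => c (e.symm j)) (fun i => r (e.symm i)) (fun j => hc _)
  rw [← Matrix.det_submatrix_equiv_self e.symm]
  exact h1

theorem TS.entry {D : Set (ι → ℝ)} (h : TS D) {x : ι → ℝ} (hx : x ∈ D) (i : ι) : |x i| ≤ 1 := by
  have h1 := h 1 (fun _ => x) (fun _ => i) (fun _ => hx)
  simpa [Matrix.det_fin_one] using h1

/-- Delete coordinate `i` (set it to zero). -/
noncomputable def del (i : ι) (x : ι → ℝ) : ι → ℝ := Function.update x i 0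

theorem del_same (i : ι) (x : ι → ℝ) : del i x i = 0 := by simp [del]

theorem del_of_ne {i j : ι} (h : j ≠ i) (x : ι → ℝ) : del i x j = x j := by
  simp [del, h]

theorem TS.del {D : Set (ι → ℝ)} (h : TS D) (i : ι) : TS (del i '' D) := by
  intro k c r hc
  choose d hd hdc using hc
  by_cases hr : ∃ a, r a = i
  · obtain ⟨a, ha⟩ := hr
    have : (Matrix.of fun i j => c j (r i)).det = 0 := by
      apply Matrix.det_eq_zero_of_row_eq_zero a
      intro j
      simp only [Matrix.of_apply, ← hdc, ha, del_same]
    rw [this]; simp
  · push Not at hr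
    have : (Matrix.of fun i j => c j (r i)) = (Matrix.of fun i j => d j (r i)) := by
      ext a b
      simp only [Matrix.of_apply, ← hdc]
      exact del_of_ne (hr a) _
    rw [this]
    exact h k d r hd

theorem TS.of_signs {D E : Set (ι → ℝ)} (h : TS D)
    (hE : ∀ x ∈ E, x ∈ D ∨ -x ∈ D) : TS E := by
  intro k c r hc
  have h1 : ∀ j, ∃ s : ℝ, |s| = 1 ∧ s • c j ∈ D := by
    intro j
    rcases hE _ (hc j) with h1 | h1
    · exact ⟨1, by simp, by simpa using h1⟩
    · exact ⟨-1, by simp, by simpa using h1⟩
  choose s hs hsD using h1
  have h2 := h k (fun j => s j • c j) r hsD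
  have h3 : (Matrix.of fun i j => (s j • c j) (r i)).det
      = (∏ j, s j) * (Matrix.of fun i j => c j (r i)).det := by
    rw [← Matrix.det_mul_row]
    rfl
  rw [h3, abs_mul, Finset.abs_prod] at h2
  simpa [hs] using h2

theorem TS.insert_single {D : Set (ι → ℝ)} (h : TS D) (i : ι) {a : ℝ} (ha : |a| ≤ 1) :
    TS (insert (Pi.single i a) D) := by
  intro k
  induction k with
  | zero =>
    intro c r hc
    simp
  | succ k ih =>
    intro c r hc
    by_cases hall : ∀ j, c j ∈ D
    · exact h _ c r hall
    · push Not at hall
      obtain ⟨j0, hj0⟩ := hall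
      have hj0' : c j0 = Pi.single i a := by
        rcases hc j0 with h1 | h1
        · exact h1
        · exact absurd h1 hj0
      by_cases hinj : Function.Injective r
      · rw [Matrix.det_succ_column _ j0]
        by_cases hr : ∃ b, r b = i
        · obtain ⟨b, hb⟩ := hr
          rw [Finset.sum_eq_single b]
          · rw [abs_mul, abs_mul]
            have h1 : |(-1 : ℝ) ^ ((b : ℕ) + (j0 : ℕ))| = 1 := by
              rw [abs_pow]; simp
            have h2 : |(Matrix.of fun i j => c j (r i)) b j0| ≤ 1 := by
              simp only [Matrix.of_apply, hj0', hb, Pi.single_eq_same]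
              exact ha
            have h3 := ih (fun j => c (j0.succAbove j)) (fun a => r (b.succAbove a))
              (fun j => hc _)
            rw [h1, one_mul]
            have h4 : |((Matrix.of fun i j => c j (r i)).submatrix b.succAbove
                j0.succAbove).det| ≤ 1 := h3
            calc _ ≤ (1 : ℝ) * 1 := mul_le_mul h2 h4 (abs_nonneg _) zero_le_one
              _ = 1 := by norm_num
          · intro b' _ hb'
            have : r b' ≠ i := by
              intro h1
              apply hb'
              apply hinj
              rw [h1, hb]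
            simp [hj0', this]
          · intro h1
            exact absurd (Finset.mem_univ b) h1
        · push Not at hr
          rw [Finset.sum_eq_zero]
          · simp
          · intro b _
            simp [hj0', hr b]
      · have : ∃ a b, r a = r b ∧ a ≠ b := by
          unfold Function.Injective at hinj
          push Not at hinj
          exact hinj
        obtain ⟨a', b', hab, hne⟩ := this
        have : (Matrix.of fun i j => c j (r i)).det = 0 := by
          apply Matrix.det_zero_of_row_eq hne
          ext j
          simp [hab]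
        rw [this]; simp

/-- The rank one perturbation determinant behind the local inequality. -/
theorem det_rank_one {κ : Type*} [Fintype κ] [DecidableEq κ] (s g : κ → ℝ) (hg : ∀ k, g k ≠ 0) :
    (Matrix.of fun i j => s i - if i = j then g i else 0).det
      = (∏ k, (- g k)) * (1 - ∑ k, s k / g k) := by
  have h1 : (Matrix.of fun i j => s i - if i = j then g i else 0)
      = Matrix.diagonal (fun k => - g k) *
        (1 + Matrix.replicateCol Unit (fun k => - (s k / g k)) *
          Matrix.replicateRow Unit (fun _ : κ => (1 : ℝ))) := by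
    ext i j
    rw [Matrix.diagonal_mul]
    simp only [Matrix.of_apply, Matrix.add_apply, Matrix.mul_apply,
      Matrix.replicateCol_apply, Matrix.replicateRow_apply, Finset.univ_unique,
      Finset.sum_singleton, Matrix.one_apply]
    have := hg i
    split_ifs
    · field_simp
      ring
    · field_simp
      ring
  rw [h1, Matrix.det_mul, Matrix.det_diagonal, Matrix.det_one_add_replicateCol_mul_replicateRow]
  congr 1
  simp [dotProduct, Finset.sum_neg_distrib, sub_eq_add_neg]

theorem TS.localIneq {D : Set (ι → ℝ)} (h : TS D) {κ : Type*} [Fintype κ] [DecidableEq κ]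
    (r : κ → ι) (s g : κ → ℝ) (x : κ → ι → ℝ) (hg : ∀ k, g k ≠ 0) (hx : ∀ k, x k ∈ D)
    (h1 : ∀ k l, k ≠ l → x k (r l) = s l) (h2 : ∀ k, x k (r k) = s k - g k) :
    (∏ k, |g k|) * |1 - ∑ k, s k / g k| ≤ 1 := by
  have h3 := h.det_le x r hx
  have h4 : (Matrix.of fun i j => x j (r i))
      = (Matrix.of fun i j => s i - if i = j then g i else 0) := by
    ext i j
    simp only [Matrix.of_apply]
    by_cases hij : i = j
    · subst hij
      simp [h2]
    · simp [hij, h1 j i (Ne.symm hij)]
  rw [h4, det_rank_one s g hg, abs_mul, Finset.abs_prod] at h3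
  simpa using h3

end Pool.Agent.MPba6
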