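import Pool.Agent.MPba6.Basic

namespace Pool.Agent.MPba6

open Finset Matrix Classical

variable {ι : Type*}

theorem update_del (i : ι) (x : ι → ℝ) : Function.update (del i x) i (x i) = x := by
  simp [del]

theorem del_update (i : ι) (z : ι → ℝ) (hz : z i = 0) (v : ℝ) :
    del i (Function.update z i v) = z := by
  rw [del, Function.update_idem, ← hz, Function.update_eq_self]

theorem update_inj_val (i : ι) (z : ι → ℝ) {v w : ℝ}
    (h : Function.update z i v = Function.update z i w) : v = w := by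
  have := congrFun h i
  simpa using this

/-- Fibrewise counting: the number of points lost when coordinate `i` is deleted. -/
theorem card_sub_le (D : Finset (ι → ℝ)) (i : ι) (V : Finset ℝ) (hV : ∀ x ∈ D, x i ∈ V)
    (w : (ι → ℝ) → ℝ)
    (hw : ∀ z : ι → ℝ, z i = 0 → (V.filter (fun v => Function.update z i v ∈ D)).Nonempty →
      ((V.filter (fun v => Function.update z i v ∈ D)).card : ℝ) - 1
        ≤ ∑ v ∈ V.filter (fun v => Function.update z i v ∈ D), w (Function.update z i v)) :
    (D.card : ℝ) - ((D.image (del i)).card : ℝ) ≤ ∑ σ ∈ D, w σ := by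
  have h1 : (D.card : ℝ) = ∑ z ∈ D.image (del i), ((D.filter (fun x => del i x = z)).card : ℝ) := by
    have := Finset.card_eq_sum_card_image (del i) D
    exact_mod_cast this
  have h2 : ∑ σ ∈ D, w σ = ∑ z ∈ D.image (del i), ∑ σ ∈ D.filter (fun x => del i x = z), w σ := by
    exact (Finset.sum_fiberwise_of_maps_to (fun x hx => Finset.mem_image_of_mem _ hx) w).symm
  have h3 : ((D.image (del i)).card : ℝ) = ∑ z ∈ D.image (del i), (1 : ℝ) := by simp
  rw [h1, h2, h3, ← Finset.sum_sub_distrib]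
  apply Finset.sum_le_sum
  intro z hz
  obtain ⟨x, hx, hxz⟩ := Finset.mem_image.1 hz
  have hz0 : z i = 0 := by rw [← hxz, del_same]
  have hfib : D.filter (fun x => del i x = z)
      = (V.filter (fun v => Function.update z i v ∈ D)).image (fun v => Function.update z i v) := by
    ext σ
    simp only [Finset.mem_filter, Finset.mem_image]
    constructor
    · rintro ⟨h4, h5⟩
      refine ⟨σ i, ⟨hV σ h4, ?_⟩, ?_⟩
      · rw [← h5, update_del]; exact h4
      · rw [← h5, update_del]
    · rintro ⟨v, ⟨_, h4⟩, h5⟩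
      rw [← h5]
      exact ⟨h4, del_update i z hz0 v⟩
  have hinj : Set.InjOn (fun v => Function.update z i v)
      ((V.filter (fun v => Function.update z i v ∈ D) : Finset ℝ) : Set ℝ) := by
    intro a _ b _ hab
    exact update_inj_val i z hab
  rw [hfib, Finset.card_image_of_injOn hinj, Finset.sum_image hinj]
  apply hw z hz0
  refine ⟨x i, ?_⟩
  simp only [Finset.mem_filter]
  refine ⟨hV x hx, ?_⟩
  rw [← hxz, update_del]; exact hx

/-- Configurations all of whose coordinates are half-integral (`F`) or integral (`G`). -/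
structure HI (F G : Finset ι) (D : Finset (ι → ℝ)) : Prop where
  disj : Disjoint F G
  half : ∀ x ∈ D, ∀ i ∈ F, x i = 1 / 2 ∨ x i = -(1 / 2)
  int : ∀ x ∈ D, ∀ i ∈ G, x i = -1 ∨ x i = 0 ∨ x i = 1
  off : ∀ x ∈ D, ∀ i, i ∉ F → i ∉ G → x i = 0
  ts : TS (D : Set (ι → ℝ))

theorem HI.delF {F G : Finset ι} {D : Finset (ι → ℝ)} (h : HI F G D) {i : ι} (hi : i ∈ F) :
    HI (F.erase i) G (D.image (del i)) where
  disj := Finset.disjoint_of_subset_left (Finset.erase_subset _ _) h.disj
  half := by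
    intro x hx j hj
    obtain ⟨y, hy, rfl⟩ := Finset.mem_image.1 hx
    rw [Finset.mem_erase] at hj
    rw [del_of_ne hj.1]
    exact h.half y hy j hj.2
  int := by
    intro x hx j hj
    obtain ⟨y, hy, rfl⟩ := Finset.mem_image.1 hx
    have hji : j ≠ i := by
      rintro rfl
      exact Finset.disjoint_left.1 h.disj hi hj
    rw [del_of_ne hji]
    exact h.int y hy j hj
  off := by
    intro x hx j hj hj'
    obtain ⟨y, hy, rfl⟩ := Finset.mem_image.1 hx
    by_cases hji : j = i
    · subst hji; exact del_same _ _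
    · rw [del_of_ne hji]
      apply h.off y hy j _ hj'
      intro h1
      exact hj (Finset.mem_erase.2 ⟨hji, h1⟩)
  ts := by
    rw [Finset.coe_image]
    exact h.ts.del i

theorem HI.delG {F G : Finset ι} {D : Finset (ι → ℝ)} (h : HI F G D) {i : ι} (hi : i ∈ G) :
    HI F (G.erase i) (D.image (del i)) where
  disj := Finset.disjoint_of_subset_right (Finset.erase_subset _ _) h.disj
  int := by
    intro x hx j hj
    obtain ⟨y, hy, rfl⟩ := Finset.mem_image.1 hx
    rw [Finset.mem_erase] at hj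
    rw [del_of_ne hj.1]
    exact h.int y hy j hj.2
  half := by
    intro x hx j hj
    obtain ⟨y, hy, rfl⟩ := Finset.mem_image.1 hx
    have hji : j ≠ i := by
      rintro rfl
      exact Finset.disjoint_left.1 h.disj hj hi
    rw [del_of_ne hji]
    exact h.half y hy j hj
  off := by
    intro x hx j hj hj'
    obtain ⟨y, hy, rfl⟩ := Finset.mem_image.1 hx
    by_cases hji : j = i
    · subst hji; exact del_same _ _
    · rw [del_of_ne hji]
      apply h.off y hy j hj
      intro h1
      exact hj' (Finset.mem_erase.2 ⟨hji, h1⟩)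
  ts := by
    rw [Finset.coe_image]
    exact h.ts.del i

/-- The local weight of `σ` in direction `i`. -/
noncomputable def wt (F G : Finset ι) (D : Finset (ι → ℝ)) (i : ι) (σ : ι → ℝ) : ℝ :=
  if i ∈ F then (if Function.update σ i (-σ i) ∈ D then 1 / 2 else 0)
  else if i ∈ G then
    (if σ i = 0 then 0 else if Function.update σ i 0 ∈ D then 1
      else if Function.update σ i (-σ i) ∈ D then 1 / 2 else 0)
  else 0

theorem wt_nonneg (F G : Finset ι) (D : Finset (ι → ℝ)) (i : ι) (σ : ι → ℝ) :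
    0 ≤ wt F G D i σ := by
  unfold wt
  split_ifs <;> norm_num

theorem HI.sub_le {F G : Finset ι} {D : Finset (ι → ℝ)} (h : HI F G D) (i : ι)
    (hi : i ∈ F ∪ G) :
    (D.card : ℝ) - ((D.image (del i)).card : ℝ) ≤ ∑ σ ∈ D, wt F G D i σ := by
  rcases Finset.mem_union.1 hi with hF | hG
  · apply card_sub_le D i {1 / 2, -(1 / 2)}
    · intro x hx
      rcases h.half x hx i hF with h1 | h1 <;> simp [h1]
    · intro z hz hne
      rw [Finset.sum_filter, Finset.card_filter]
      have hne2 : (1 / 2 : ℝ) ≠ -(1 / 2) := by norm_num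
      push_cast
      rw [Finset.sum_pair hne2, Finset.sum_pair hne2]
      simp only [wt, hF, if_true, Function.update_self, Function.update_idem, neg_neg]
      by_cases h1 : Function.update z i (1 / 2) ∈ D <;>
        by_cases h2 : Function.update z i (-(1 / 2)) ∈ D <;>
        simp only [h1, h2, if_true, if_false] <;> norm_num
  · have hF : i ∉ F := fun h1 => Finset.disjoint_left.1 h.disj h1 hG
    apply card_sub_le D i {-1, 0, 1}
    · intro x hx
      rcases h.int x hx i hG with h1 | h1 | h1 <;> simp [h1]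
    · intro z hz hne
      rw [Finset.sum_filter, Finset.card_filter]
      push_cast
      have e1 : (-1 : ℝ) ∉ ({0, 1} : Finset ℝ) := by
        simp; norm_num
      have e2 : (0 : ℝ) ∉ ({1} : Finset ℝ) := by simp
      rw [Finset.sum_insert e1, Finset.sum_insert e2, Finset.sum_singleton,
        Finset.sum_insert e1, Finset.sum_insert e2, Finset.sum_singleton]
      simp only [wt, hF, if_false, hG, if_true, Function.update_self, Function.update_idem, neg_neg]
      have h10 : (-1 : ℝ) ≠ 0 := by norm_num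
      have h11 : (1 : ℝ) ≠ 0 := by norm_num
      by_cases h1 : Function.update z i 1 ∈ D <;>
        by_cases h2 : Function.update z i (-1) ∈ D <;>
        by_cases h3 : Function.update z i 0 ∈ D <;>
        simp only [h1, h2, h3, h10, h11, if_true, if_false] <;> norm_num

theorem TS.sum_le_aux {D : Set (ι → ℝ)} (h : TS D) (N : Finset ι) (σ g : ι → ℝ)
    (hg : ∀ i ∈ N, 1 ≤ |g i|) (hx : ∀ i ∈ N, Function.update σ i (σ i - g i) ∈ D) :
    (∏ i ∈ N, |g i|) * |1 - ∑ i ∈ N, σ i / g i| ≤ 1 := by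
  have h1 := h.localIneq (κ := {i // i ∈ N}) (fun k => k.1) (fun k => σ k.1) (fun k => g k.1)
    (fun k => Function.update σ k.1 (σ k.1 - g k.1))
    (fun k => by
      intro h0
      have := hg k.1 k.2
      rw [h0] at this
      simp at this
      linarith)
    (fun k => hx k.1 k.2)
    (fun k l hkl => by
      have : l.1 ≠ k.1 := fun h0 => hkl (Subtype.ext h0.symm)
      simp [this])
    (fun k => by simp)
  rw [← Finset.prod_coe_sort N (fun i => |g i|), ← Finset.sum_coe_sort N (fun i => σ i / g i)]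
  exact h1

theorem TS.sum_le {D : Set (ι → ℝ)} (h : TS D) (N : Finset ι) (σ g : ι → ℝ)
    (hg : ∀ i ∈ N, 1 ≤ |g i|) (hx : ∀ i ∈ N, Function.update σ i (σ i - g i) ∈ D) :
    ∑ i ∈ N, σ i / g i ≤ 2 := by
  have h1 := h.sum_le_aux N σ g hg hx
  have h2 : (1 : ℝ) ≤ ∏ i ∈ N, |g i| := Finset.one_le_prod hg
  have h3 : |1 - ∑ i ∈ N, σ i / g i| ≤ 1 := by
    nlinarith [abs_nonneg (1 - ∑ i ∈ N, σ i / g i)]
  linarith [(abs_le.1 h3).1]

theorem TS.sum_le' {D : Set (ι → ℝ)} (h : TS D) (N : Finset ι) (σ g : ι → ℝ)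
    (hg : ∀ i ∈ N, 1 ≤ |g i|) (hx : ∀ i ∈ N, Function.update σ i (σ i - g i) ∈ D)
    (hj : ∃ j ∈ N, 2 ≤ |g j|) :
    ∑ i ∈ N, σ i / g i ≤ 3 / 2 := by
  have h1 := h.sum_le_aux N σ g hg hx
  obtain ⟨j, hj, hj2⟩ := hj
  have h2 : (2 : ℝ) ≤ ∏ i ∈ N, |g i| := by
    rw [← Finset.mul_prod_erase N (fun i => |g i|) hj]
    have h3 : (1 : ℝ) ≤ ∏ i ∈ N.erase j, |g i| :=
      Finset.one_le_prod fun i hi => hg i (Finset.mem_of_mem_erase hi)
    nlinarith
  have h3 : |1 - ∑ i ∈ N, σ i / g i| ≤ 1 / 2 := by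
    nlinarith [abs_nonneg (1 - ∑ i ∈ N, σ i / g i)]
  linarith [(abs_le.1 h3).1]

/-- The step used in direction `i` by the weight `wt`. -/
noncomputable def gap (F : Finset ι) (D : Finset (ι → ℝ)) (σ : ι → ℝ) (i : ι) : ℝ :=
  if i ∈ F then 2 * σ i else if Function.update σ i 0 ∈ D then σ i else 2 * σ i

theorem HI.wt_spec {F G : Finset ι} {D : Finset (ι → ℝ)} (σ : ι → ℝ)
    (hF : ∀ i ∈ F, σ i = 1 / 2 ∨ σ i = -(1 / 2))
    (hG : ∀ i ∈ G, σ i = -1 ∨ σ i = 0 ∨ σ i = 1)
    (i : ι) (hi : wt F G D i σ ≠ 0) :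
    wt F G D i σ = σ i / gap F D σ i ∧ 1 ≤ |gap F D σ i| ∧
      Function.update σ i (σ i - gap F D σ i) ∈ D := by
  unfold wt at hi ⊢
  unfold gap
  by_cases h1 : i ∈ F
  · simp only [h1, if_true] at hi ⊢
    by_cases h2 : Function.update σ i (-σ i) ∈ D
    · simp only [h2, if_true] at hi ⊢
      have h3 : σ i - 2 * σ i = -σ i := by ring
      rw [h3]
      rcases hF i h1 with h4 | h4
      · rw [h4]; rw [h4] at h2
        refine ⟨by norm_num, by norm_num, h2⟩
      · rw [h4]; rw [h4] at h2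
        refine ⟨by norm_num, by norm_num, h2⟩
    · simp [h2] at hi
  · by_cases h1' : i ∈ G
    · simp only [h1, h1', if_true, if_false] at hi ⊢
      by_cases h5 : σ i = 0
      · simp [h5] at hi
      · simp only [h5, if_false] at hi ⊢
        by_cases h6 : Function.update σ i 0 ∈ D
        · simp only [h6, if_true] at hi ⊢
          rw [sub_self]
          refine ⟨by field_simp, ?_, h6⟩
          rcases hG i h1' with h4 | h4 | h4
          · rw [h4]; norm_num
          · exact absurd h4 h5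
          · rw [h4]; norm_num
        · simp only [h6, if_false] at hi ⊢
          by_cases h7 : Function.update σ i (-σ i) ∈ D
          · simp only [h7, if_true] at hi ⊢
            have h3 : σ i - 2 * σ i = -σ i := by ring
            rw [h3]
            refine ⟨by field_simp, ?_, h7⟩
            rcases hG i h1' with h4 | h4 | h4
            · rw [h4]; norm_num
            · exact absurd h4 h5
            · rw [h4]; norm_num
          · simp [h7] at hi
    · simp [h1, h1'] at hi

theorem HI.wt_sum_le {F G : Finset ι} {D : Finset (ι → ℝ)} (h : HI F G D) (σ : ι → ℝ)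
    (hF : ∀ i ∈ F, σ i = 1 / 2 ∨ σ i = -(1 / 2))
    (hG : ∀ i ∈ G, σ i = -1 ∨ σ i = 0 ∨ σ i = 1) (S : Finset ι) :
    ∑ i ∈ S, wt F G D i σ ≤ 2 := by
  have h1 : ∑ i ∈ S, wt F G D i σ = ∑ i ∈ S.filter (fun i => wt F G D i σ ≠ 0),
      σ i / gap F D σ i := by
    rw [← Finset.sum_filter_ne_zero]
    apply Finset.sum_congr rfl
    intro i hi
    exact (HI.wt_spec σ hF hG i (Finset.mem_filter.1 hi).2).1
  rw [h1]
  apply h.ts.sum_le
  · intro i hi
    exact (HI.wt_spec σ hF hG i (Finset.mem_filter.1 hi).2).2.1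
  · intro i hi
    exact (HI.wt_spec σ hF hG i (Finset.mem_filter.1 hi).2).2.2

theorem HI.wt_sum_le' {F G : Finset ι} {D : Finset (ι → ℝ)} (h : HI F G D) (σ : ι → ℝ)
    (hF : ∀ i ∈ F, σ i = 1 / 2 ∨ σ i = -(1 / 2))
    (hG : ∀ i ∈ G, σ i = -1 ∨ σ i = 0 ∨ σ i = 1) (S : Finset ι) (j : ι) (hjS : j ∈ S)
    (hj : j ∈ G) (h0 : σ j ≠ 0) (h2 : Function.update σ j 0 ∉ D)
    (h3 : Function.update σ j (-σ j) ∈ D) :
    ∑ i ∈ S, wt F G D i σ ≤ 3 / 2 := by
  have h1 : ∑ i ∈ S, wt F G D i σ = ∑ i ∈ S.filter (fun i => wt F G D i σ ≠ 0),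
      σ i / gap F D σ i := by
    rw [← Finset.sum_filter_ne_zero]
    apply Finset.sum_congr rfl
    intro i hi
    exact (HI.wt_spec σ hF hG i (Finset.mem_filter.1 hi).2).1
  rw [h1]
  have hjF : j ∉ F := fun h4 => Finset.disjoint_left.1 h.disj h4 hj
  apply h.ts.sum_le'
  · intro i hi
    exact (HI.wt_spec σ hF hG i (Finset.mem_filter.1 hi).2).2.1
  · intro i hi
    exact (HI.wt_spec σ hF hG i (Finset.mem_filter.1 hi).2).2.2
  · refine ⟨j, ?_, ?_⟩
    · rw [Finset.mem_filter]
      refine ⟨hjS, ?_⟩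
      unfold wt
      simp only [hjF, if_false, hj, if_true, h0, h2, h3]
      norm_num
    · unfold gap
      simp only [hjF, if_false, h2]
      rcases hG j hj with h4 | h4 | h4
      · rw [h4]; norm_num
      · exact absurd h4 h0
      · rw [h4]; norm_num

theorem wt_le_half {F G : Finset ι} {D : Finset (ι → ℝ)} {i : ι} (hi : i ∈ F) (σ : ι → ℝ) :
    wt F G D i σ ≤ 1 / 2 := by
  unfold wt
  simp only [hi, if_true]
  split_ifs <;> norm_num

theorem wt_le_one {F G : Finset ι} {D : Finset (ι → ℝ)} (i : ι) (σ : ι → ℝ) :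
    wt F G D i σ ≤ 1 := by
  unfold wt
  split_ifs <;> norm_num

theorem wt_zero {F G : Finset ι} {D : Finset (ι → ℝ)} {i : ι} (hi : i ∉ F) {σ : ι → ℝ}
    (h : σ i = 0) : wt F G D i σ = 0 := by
  unfold wt
  simp [hi, h]

end Pool.Agent.MPba6
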