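import Mathlib

namespace Pool.Agent.MPba6

def AC5 : List ℕ := [21, 25, 22, 26, 5, 9, 6, 10, 17, 18, 20, 24, 16, 1, 2, 4, 8, 0]

def FB5 : List (ℕ × List ℕ × List ℕ × List ℕ) :=
  [(6, [0, 2, 4], [8, 1, 13, 4], [4, 0, 2, 5]),
   (7, [0, 3, 6], [1, 12, 15, 6], [4, 1, 2, 5]),
   (7, [1, 2, 5], [11, 2, 5, 14], [4, 1, 3, 5]),
   (7, [1, 4, 5], [9, 10, 3, 15], [4, 0, 3, 5]),
   (7, [3, 5, 6], [11, 13, 14, 7], [4, 1, 3, 5]),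
   (9, [0, 1, 5], [19, 1, 11, 2], [4, 0, 2, 5]),
   (9, [1, 4, 8], [16, 19, 9, 3], [4, 0, 3, 5]),
   (9, [2, 7, 8], [17, 18, 5, 15], [4, 1, 2, 5]),
   (10, [1, 3, 7], [21, 3, 15, 6], [4, 0, 3, 5]),
   (10, [2, 4, 8], [17, 20, 9, 5], [4, 1, 2, 5]),
   (10, [3, 6, 9], [18, 21, 13, 7], [4, 1, 3, 5]),
   (10, [4, 6, 9], [19, 20, 9, 12], [4, 1, 2, 5]),
   (10, [4, 7, 8], [17, 21, 9, 15], [4, 0, 2, 5]),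
   (10, [0, 2, 3, 4], [21, 9, 0, 4, 7], [4, 0, 1, 2, 5]),
   (10, [2, 3, 7, 9], [19, 21, 4, 15, 6], [4, 1, 2, 3, 5]),
   (11, [0, 5, 8], [16, 23, 1, 11], [4, 0, 2, 5]),
   (11, [2, 4, 10], [20, 23, 9, 5], [4, 1, 2, 5]),
   (11, [4, 5, 8], [16, 23, 9, 10], [4, 0, 3, 5]),
   (11, [4, 7, 9], [19, 23, 9, 15], [4, 1, 3, 5]),
   (11, [2, 3, 6, 9], [19, 23, 13, 4, 6], [4, 1, 2, 3, 5]),
   (11, [1, 6, 8, 9, 10], [17, 18, 20, 23, 2, 13], [4, 0, 1, 2, 3, 5]),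
   (12, [0, 1, 4], [25, 9, 0, 3], [4, 0, 3, 5]),
   (12, [0, 1, 5], [25, 1, 11, 2], [4, 0, 2, 5]),
   (12, [0, 2, 6], [25, 1, 13, 4], [4, 0, 2, 5]),
   (12, [1, 7, 11], [25, 22, 3, 15], [4, 0, 3, 5]),
   (12, [3, 5, 11], [25, 22, 11, 7], [4, 1, 3, 5]),
   (12, [3, 6, 9], [25, 18, 13, 7], [4, 1, 3, 5]),
   (13, [0, 3, 8], [27, 16, 1, 7], [4, 0, 2, 5]),
   (13, [0, 6, 11], [27, 23, 0, 13], [4, 0, 2, 5]),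
   (13, [0, 8, 12], [25, 27, 16, 1], [4, 0, 2, 5]),
   (13, [1, 2, 4], [27, 8, 2, 5], [4, 0, 2, 5]),
   (13, [1, 8, 10], [27, 16, 21, 3], [4, 0, 3, 5]),
   (13, [1, 8, 12], [25, 27, 16, 3], [4, 0, 3, 5]),
   (13, [5, 8, 11], [27, 16, 23, 10], [4, 0, 3, 5]),
   (13, [0, 4, 5, 12], [25, 26, 9, 0, 11], [4, 0, 2, 3, 5]),
   (13, [0, 5, 6, 8], [26, 17, 0, 11, 13], [4, 0, 2, 3, 5]),
   (13, [1, 4, 7, 8], [26, 17, 9, 2, 15], [4, 0, 2, 3, 5]),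
   (13, [9, 10, 11, 12], [24, 27, 19, 21, 23], [4, 1, 2, 3, 5]),
   (14, [0, 3, 9], [29, 18, 1, 7], [4, 1, 3, 5]),
   (14, [2, 3, 11], [29, 23, 5, 6], [4, 1, 2, 5]),
   (14, [2, 9, 12], [25, 29, 18, 5], [4, 1, 2, 5]),
   (14, [3, 5, 10], [29, 21, 11, 6], [4, 1, 3, 5]),
   (14, [2, 4, 7, 9], [28, 19, 9, 4, 15], [4, 1, 2, 3, 5]),
   (14, [2, 6, 7, 12], [25, 28, 13, 4, 15], [4, 1, 2, 3, 5]),
   (14, [3, 5, 6, 9], [28, 19, 11, 13, 6], [4, 1, 2, 3, 5]),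
   (14, [3, 6, 7, 12], [25, 28, 13, 15, 6], [4, 1, 2, 3, 5]),
   (14, [1, 4, 9, 12, 13], [25, 26, 29, 18, 9, 3], [4, 0, 1, 2, 3, 5]),
   (15, [0, 4, 5], [31, 8, 1, 11], [4, 0, 2, 5]),
   (15, [0, 9, 13], [27, 19, 31, 0], [4, 0, 2, 5]),
   (15, [0, 10, 12], [25, 31, 20, 1], [4, 0, 2, 5]),
   (15, [2, 6, 14], [29, 31, 12, 5], [4, 1, 2, 5]),
   (15, [2, 7, 8], [17, 31, 4, 15], [4, 1, 2, 5]),
   (15, [2, 10, 12], [25, 31, 20, 5], [4, 1, 2, 5]),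
   (15, [0, 4, 6, 11], [30, 23, 9, 0, 13], [4, 0, 1, 2, 5]),
   (15, [2, 4, 6, 12], [25, 30, 9, 13, 4], [4, 0, 1, 2, 5]),
   (16, [1, 3, 5], [32, 11, 2, 7], [4, 0, 3, 5]),
   (16, [1, 9, 11], [19, 33, 22, 3], [4, 0, 3, 5]),
   (16, [1, 10, 11], [21, 33, 22, 3], [4, 0, 3, 5]),
   (16, [3, 7, 11], [32, 23, 15, 6], [4, 1, 3, 5]),
   (16, [3, 8, 11], [17, 33, 22, 7], [4, 1, 3, 5]),
   (16, [1, 5, 7, 10], [21, 32, 11, 2, 15], [4, 0, 1, 3, 5]),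
   (16, [3, 5, 7, 12], [25, 32, 11, 15, 6], [4, 0, 1, 3, 5]),
   (16, [8, 9, 10, 12], [24, 17, 19, 21, 33], [4, 0, 1, 2, 5]),
   (16, [6, 12, 13, 14, 15], [25, 27, 28, 30, 33, 13], [4, 0, 1, 2, 3, 5]),
   (16, [7, 12, 13, 14, 15], [25, 27, 28, 31, 32, 15], [4, 0, 1, 2, 3, 5]),
   (17, [4, 5, 8, 13], [35, 26, 17, 9, 11], [4, 0, 2, 3, 5]),
   (17, [4, 6, 10, 15], [35, 30, 21, 9, 13], [4, 0, 1, 2, 5]),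
   (17, [5, 7, 11, 16], [35, 32, 23, 11, 15], [4, 0, 1, 3, 5]),
   (17, [6, 7, 9, 14], [35, 28, 19, 13, 15], [4, 1, 2, 3, 5])]

def T5 : List (List ℕ) :=
  [[],
   [],
   [],
   [],
   [],
   [],
   [21],
   [73, 38, 50, 104],
   [],
   [35, 274, 388],
   [138, 276, 584, 592, 400, 29, 652],
   [289, 1044, 304, 656, 588, 1858],
   [19, 35, 69, 2178, 2088, 584],
   [265, 2113, 4353, 22, 1282, 4354, 2336, 4145, 353, 402, 7680],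
   [521, 2060, 4612, 1064, 660, 4292, 616, 4296, 12818],
   [49, 8705, 5121, 16452, 388, 5124, 2129, 4180],
   [42, 2562, 3074, 2184, 2312, 1186, 4264, 5888, 61504, 61568],
   [8496, 33872, 67744, 17088]]

end Pool.Agent.MPba6
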