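import Mathlib

namespace Pool.Agent.MPba6

def FBc3 : List (ℕ × List ℕ × List ℕ × List ℕ) :=
  [(6, [0, 3, 5], [0, 6, 5, 3], [0, 1, 2]),
   (7, [1, 2, 4], [4, 2, 1, 7], [0, 1, 2])]

def Tc3 : List (List ℕ) :=
  [[],
   [],
   [],
   [],
   [],
   [],
   [41],
   [22]]

def FBc4 : List (ℕ × List ℕ × List ℕ × List ℕ) :=
  [(6, [0, 3, 5], [0, 6, 5, 3], [0, 1, 2]),
   (7, [1, 2, 4], [4, 2, 1, 7], [0, 1, 2]),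
   (8, [3, 5, 6], [8, 6, 5, 3], [0, 1, 2]),
   (9, [2, 4, 7], [4, 2, 9, 7], [0, 1, 2]),
   (10, [0, 3, 9], [0, 10, 9, 3], [0, 1, 3]),
   (10, [0, 7, 9], [0, 10, 9, 7], [0, 1, 3]),
   (10, [1, 4, 7], [4, 10, 1, 7], [0, 1, 2]),
   (10, [3, 4, 9], [4, 10, 9, 3], [0, 1, 3]),
   (10, [4, 7, 9], [4, 10, 9, 7], [0, 1, 2]),
   (10, [0, 1, 2, 4, 5, 6, 8, 9], [0], [0, 1, 2, 3]),
   (11, [0, 5, 6], [0, 6, 5, 11], [0, 1, 2]),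
   (11, [1, 2, 8], [8, 2, 1, 11], [0, 1, 3]),
   (11, [1, 6, 8], [8, 6, 1, 11], [0, 1, 3]),
   (11, [2, 5, 8], [8, 2, 5, 11], [0, 1, 3]),
   (11, [5, 6, 8], [8, 6, 5, 11], [0, 1, 2]),
   (11, [0, 1, 3, 4, 5, 7, 8, 9], [1], [0, 1, 2, 3]),
   (11, [0, 2, 3, 4, 6, 7, 8, 10], [2], [0, 1, 2, 3]),
   (11, [1, 2, 3, 5, 6, 7, 9, 10], [3], [0, 1, 2, 3]),
   (12, [0, 5, 9], [0, 12, 9, 5], [0, 2, 3]),
   (12, [0, 5, 11], [0, 12, 11, 5], [0, 2, 3]),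
   (12, [0, 6, 10], [0, 12, 10, 6], [1, 2, 3]),
   (12, [0, 6, 11], [0, 12, 11, 6], [1, 2, 3]),
   (12, [0, 7, 9], [0, 12, 9, 7], [0, 2, 3]),
   (12, [0, 7, 10], [0, 12, 10, 7], [1, 2, 3]),
   (12, [0, 7, 11], [0, 12, 11, 7], [0, 2, 3]),
   (12, [1, 2, 7], [12, 2, 1, 7], [0, 1, 2]),
   (12, [1, 2, 11], [12, 2, 1, 11], [0, 1, 3]),
   (12, [1, 6, 10], [1, 12, 10, 6], [1, 2, 3]),
   (12, [1, 6, 11], [12, 6, 1, 11], [0, 1, 3]),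
   (12, [1, 7, 10], [12, 10, 1, 7], [0, 1, 2]),
   (12, [1, 7, 11], [1, 12, 11, 7], [1, 2, 3]),
   (12, [2, 5, 9], [2, 12, 9, 5], [0, 2, 3]),
   (12, [2, 5, 11], [12, 2, 5, 11], [0, 1, 3]),
   (12, [2, 7, 9], [12, 2, 9, 7], [0, 1, 2]),
   (12, [2, 7, 11], [2, 12, 11, 7], [0, 2, 3]),
   (12, [5, 6, 11], [12, 6, 5, 11], [0, 1, 3]),
   (12, [7, 9, 10], [12, 10, 9, 7], [0, 1, 2]),
   (12, [0, 1, 2, 3, 4, 5, 8, 10], [0], [0, 3, 1, 2]),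
   (12, [0, 1, 2, 3, 4, 6, 8, 9], [0], [0, 2, 1, 3]),
   (13, [0, 3, 6], [0, 6, 13, 3], [0, 1, 2]),
   (13, [0, 3, 10], [0, 10, 13, 3], [0, 1, 3]),
   (13, [0, 6, 10], [0, 13, 10, 6], [1, 2, 3]),
   (13, [0, 6, 11], [0, 6, 13, 11], [0, 1, 2]),
   (13, [0, 7, 10], [0, 10, 13, 7], [0, 1, 3]),
   (13, [0, 7, 11], [0, 13, 11, 7], [1, 2, 3]),
   (13, [1, 4, 8], [8, 4, 1, 13], [0, 2, 3]),
   (13, [1, 4, 10], [10, 4, 1, 13], [0, 2, 3]),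
   (13, [1, 6, 8], [8, 6, 1, 13], [0, 2, 3]),
   (13, [1, 6, 10], [10, 6, 1, 13], [0, 2, 3]),
   (13, [1, 6, 11], [1, 13, 11, 6], [1, 2, 3]),
   (13, [1, 7, 10], [1, 13, 10, 7], [1, 2, 3]),
   (13, [1, 7, 11], [1, 13, 11, 7], [1, 2, 3]),
   (13, [3, 4, 8], [8, 4, 3, 13], [0, 2, 3]),
   (13, [3, 4, 10], [4, 10, 13, 3], [0, 1, 3]),
   (13, [3, 6, 8], [8, 6, 13, 3], [0, 1, 2]),
   (13, [3, 6, 10], [10, 6, 3, 13], [0, 2, 3]),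
   (13, [4, 7, 10], [4, 10, 13, 7], [0, 1, 3]),
   (13, [6, 8, 11], [8, 6, 13, 11], [0, 1, 2]),
   (13, [0, 1, 2, 3, 4, 5, 9, 11], [1], [0, 3, 1, 2]),
   (13, [0, 1, 2, 3, 5, 7, 8, 9], [1], [0, 2, 1, 3]),
   (13, [0, 2, 4, 5, 6, 7, 8, 12], [4], [0, 2, 1, 3]),
   (13, [0, 2, 4, 8, 9, 10, 11, 12], [8], [0, 3, 1, 2]),
   (13, [1, 3, 4, 5, 6, 7, 9, 12], [5], [0, 2, 1, 3]),
   (13, [1, 3, 5, 8, 9, 10, 11, 12], [9], [0, 3, 1, 2]),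
   (14, [0, 3, 5], [0, 14, 5, 3], [0, 1, 2]),
   (14, [0, 3, 9], [0, 14, 9, 3], [0, 1, 3]),
   (14, [0, 3, 13], [0, 14, 13, 3], [0, 1, 2]),
   (14, [0, 5, 9], [0, 14, 9, 5], [0, 2, 3]),
   (14, [0, 5, 11], [0, 14, 5, 11], [0, 1, 2]),
   (14, [0, 7, 9], [0, 14, 9, 7], [0, 1, 3]),
   (14, [0, 7, 11], [0, 14, 11, 7], [0, 2, 3]),
   (14, [0, 7, 13], [0, 14, 13, 7], [0, 1, 3]),
   (14, [0, 11, 13], [0, 14, 13, 11], [0, 1, 2]),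
   (14, [2, 4, 8], [8, 4, 2, 14], [1, 2, 3]),
   (14, [2, 4, 9], [9, 4, 2, 14], [1, 2, 3]),
   (14, [2, 5, 8], [8, 5, 2, 14], [1, 2, 3]),
   (14, [2, 5, 9], [2, 14, 9, 5], [0, 2, 3]),
   (14, [2, 5, 11], [2, 14, 11, 5], [0, 2, 3]),
   (14, [2, 7, 9], [2, 14, 9, 7], [0, 2, 3]),
   (14, [2, 7, 11], [2, 14, 11, 7], [0, 2, 3]),
   (14, [3, 4, 8], [8, 4, 3, 14], [1, 2, 3]),
   (14, [3, 4, 9], [4, 14, 9, 3], [0, 1, 3]),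
   (14, [3, 4, 13], [4, 14, 13, 3], [0, 1, 3]),
   (14, [3, 5, 8], [8, 14, 5, 3], [0, 1, 2]),
   (14, [3, 5, 9], [9, 5, 3, 14], [1, 2, 3]),
   (14, [3, 8, 13], [8, 14, 13, 3], [0, 1, 2]),
   (14, [4, 7, 9], [4, 14, 9, 7], [0, 1, 3]),
   (14, [4, 7, 13], [4, 14, 13, 7], [0, 1, 3]),
   (14, [5, 8, 11], [8, 14, 5, 11], [0, 1, 2]),
   (14, [8, 11, 13], [8, 14, 13, 11], [0, 1, 2]),
   (14, [0, 1, 2, 3, 4, 6, 10, 11], [2], [0, 2, 1, 3]),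
   (14, [0, 1, 2, 3, 6, 7, 8, 10], [2], [0, 3, 1, 2]),
   (14, [0, 1, 2, 4, 5, 6, 12, 13], [4], [0, 1, 2, 3]),
   (14, [0, 1, 2, 8, 9, 10, 12, 13], [8], [0, 1, 2, 3]),
   (14, [0, 1, 4, 5, 6, 7, 8, 12], [4], [0, 3, 1, 2]),
   (14, [0, 1, 4, 8, 9, 10, 11, 12], [8], [0, 2, 1, 3]),
   (14, [2, 3, 4, 5, 6, 7, 10, 12], [6], [0, 3, 1, 2]),
   (14, [2, 3, 6, 8, 9, 10, 11, 12], [10], [0, 2, 1, 3]),
   (14, [4, 5, 6, 8, 9, 10, 12, 13], [12], [0, 1, 2, 3]),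
   (15, [1, 2, 4], [4, 2, 1, 15], [0, 1, 2]),
   (15, [1, 2, 8], [8, 2, 1, 15], [0, 1, 3]),
   (15, [1, 2, 12], [12, 2, 1, 15], [0, 1, 2]),
   (15, [1, 4, 8], [8, 4, 1, 15], [0, 2, 3]),
   (15, [1, 4, 10], [4, 10, 1, 15], [0, 1, 2]),
   (15, [1, 6, 8], [8, 6, 1, 15], [0, 1, 3]),
   (15, [1, 6, 10], [10, 6, 1, 15], [0, 2, 3]),
   (15, [1, 6, 12], [12, 6, 1, 15], [0, 1, 3]),
   (15, [1, 10, 12], [12, 10, 1, 15], [0, 1, 2]),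
   (15, [2, 4, 8], [8, 4, 2, 15], [1, 2, 3]),
   (15, [2, 4, 9], [4, 2, 9, 15], [0, 1, 2]),
   (15, [2, 5, 8], [8, 2, 5, 15], [0, 1, 3]),
   (15, [2, 5, 9], [9, 5, 2, 15], [1, 2, 3]),
   (15, [2, 5, 12], [12, 2, 5, 15], [0, 1, 3]),
   (15, [2, 9, 12], [12, 2, 9, 15], [0, 1, 2]),
   (15, [3, 4, 8], [8, 4, 3, 15], [0, 2, 3]),
   (15, [3, 4, 9], [9, 4, 3, 15], [1, 2, 3]),
   (15, [3, 4, 10], [10, 4, 3, 15], [0, 2, 3]),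
   (15, [3, 5, 8], [8, 5, 3, 15], [1, 2, 3]),
   (15, [3, 5, 9], [9, 5, 3, 15], [1, 2, 3]),
   (15, [3, 6, 8], [8, 6, 3, 15], [0, 2, 3]),
   (15, [3, 6, 10], [10, 6, 3, 15], [0, 2, 3]),
   (15, [4, 9, 10], [4, 10, 9, 15], [0, 1, 2]),
   (15, [5, 6, 8], [8, 6, 5, 15], [0, 1, 3]),
   (15, [5, 6, 12], [12, 6, 5, 15], [0, 1, 3]),
   (15, [9, 10, 12], [12, 10, 9, 15], [0, 1, 2]),
   (15, [0, 1, 2, 3, 5, 7, 10, 11], [3], [0, 2, 1, 3]),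
   (15, [0, 1, 2, 3, 6, 7, 9, 11], [3], [0, 3, 1, 2]),
   (15, [0, 1, 3, 4, 5, 7, 12, 13], [5], [0, 1, 2, 3]),
   (15, [0, 1, 3, 8, 9, 11, 12, 13], [9], [0, 1, 2, 3]),
   (15, [0, 1, 4, 5, 6, 7, 9, 13], [5], [0, 3, 1, 2]),
   (15, [0, 1, 5, 8, 9, 10, 11, 13], [9], [0, 2, 1, 3]),
   (15, [0, 2, 3, 4, 6, 7, 12, 14], [6], [0, 1, 2, 3]),
   (15, [0, 2, 3, 8, 10, 11, 12, 14], [10], [0, 1, 2, 3]),
   (15, [0, 2, 4, 5, 6, 7, 10, 14], [6], [0, 2, 1, 3]),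
   (15, [0, 2, 6, 8, 9, 10, 11, 14], [10], [0, 3, 1, 2]),
   (15, [0, 4, 5, 8, 10, 12, 13, 14], [12], [0, 2, 1, 3]),
   (15, [0, 4, 6, 8, 9, 12, 13, 14], [12], [0, 3, 1, 2]),
   (15, [1, 2, 3, 5, 6, 7, 13, 14], [7], [0, 1, 2, 3]),
   (15, [1, 2, 3, 9, 10, 11, 13, 14], [11], [0, 1, 2, 3]),
   (15, [1, 3, 4, 5, 6, 7, 11, 14], [7], [0, 2, 1, 3]),
   (15, [1, 3, 7, 8, 9, 10, 11, 14], [11], [0, 3, 1, 2]),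
   (15, [1, 4, 5, 9, 11, 12, 13, 14], [13], [0, 2, 1, 3]),
   (15, [1, 5, 7, 8, 9, 12, 13, 14], [13], [0, 3, 1, 2]),
   (15, [2, 3, 4, 5, 6, 7, 11, 13], [7], [0, 3, 1, 2]),
   (15, [2, 3, 7, 8, 9, 10, 11, 13], [11], [0, 2, 1, 3]),
   (15, [2, 4, 6, 10, 11, 12, 13, 14], [14], [0, 3, 1, 2]),
   (15, [2, 6, 7, 8, 10, 12, 13, 14], [14], [0, 2, 1, 3]),
   (15, [3, 5, 7, 10, 11, 12, 13, 14], [15], [0, 3, 1, 2]),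
   (15, [3, 6, 7, 9, 11, 12, 13, 14], [15], [0, 2, 1, 3]),
   (15, [4, 5, 7, 8, 9, 11, 12, 13], [13], [0, 1, 2, 3]),
   (15, [4, 6, 7, 8, 10, 11, 12, 14], [14], [0, 1, 2, 3]),
   (15, [5, 6, 7, 9, 10, 11, 13, 14], [15], [0, 1, 2, 3])]

def Tc4 : List (List ℕ) :=
  [[],
   [],
   [],
   [],
   [],
   [],
   [41],
   [22],
   [104],
   [148],
   [521, 641, 146, 536, 656, 887],
   [97, 262, 322, 292, 352, 955, 1501, 1774],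
   [545, 2081, 1089, 2113, 641, 1153, 2177, 134, 2054, 1090, 2114, 1154, 2178, 548, 2084, 644, 2180, 2144, 1664, 1343, 863],
   [73, 1033, 1089, 2113, 1153, 2177, 274, 1042, 322, 1090, 2114, 1154, 2178, 280, 1048, 328, 1096, 1168, 2368, 2623, 943, 4597, 7957, 4858, 7978],
   [41, 521, 8201, 545, 2081, 641, 2177, 8321, 10241, 276, 532, 292, 548, 2084, 644, 2180, 280, 536, 8216, 296, 552, 8456, 656, 8336, 2336, 10496, 3167, 1487, 12407, 14087, 4595, 7955, 5372, 8012, 14192],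
   [22, 262, 4102, 274, 1042, 322, 1090, 4162, 5122, 276, 532, 292, 548, 4132, 4612, 280, 536, 1048, 296, 552, 328, 1096, 1552, 352, 4192, 5632, 3247, 2767, 12475, 15115, 8947, 12067, 20701, 23821, 17653, 20293, 30001, 29521, 24814, 28174, 18682, 20362, 31282, 29602, 10492, 12172, 31828, 30148, 31912, 31432, 15280, 24016, 28384]]

end Pool.Agent.MPba6
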