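import Pool.Agent.MPba6.Count

namespace Pool.Agent.MPba6

open Finset Matrix Classical

variable {ι : Type*}

/-- The two lifts of the points of `Y` in direction `i0`. -/
def lift (i0 : ι) (s s' : ℝ) (Y : Finset (ι → ℝ)) : Set (ι → ℝ) :=
  {x | ∃ y ∈ Y, x = Function.update y i0 s ∨ x = Function.update y i0 s'}

theorem mem_lift1 {i0 : ι} {s s' : ℝ} {Y : Finset (ι → ℝ)} {y : ι → ℝ} (hy : y ∈ Y) :
    Function.update y i0 s ∈ lift i0 s s' Y := ⟨y, hy, Or.inl rfl⟩

theorem mem_lift2 {i0 : ι} {s s' : ℝ} {Y : Finset (ι → ℝ)} {y : ι → ℝ} (hy : y ∈ Y) :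
    Function.update y i0 s' ∈ lift i0 s s' Y := ⟨y, hy, Or.inr rfl⟩

/-- The other admissible value of a fractional coordinate. -/
noncomputable def fl (v : ℝ) : ℝ := if 0 < v then v - 1 else v + 1

/-- Configurations `Y` both of whose lifts in direction `i0` are present. The heights are
`e * h` and `e * (h - 1)` with `e = ±1`; fractional coordinates `k ∈ F` take the values
`t k` and `t k - 1`. -/
structure Dbl (i0 : ι) (h e : ℝ) (t : ι → ℝ) (F G : Finset ι) (Y : Finset (ι → ℝ)) : Prop where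
  h1 : 1 / 2 < h
  h2 : h < 1
  he : e = 1 ∨ e = -1
  disj : Disjoint F G
  nF : i0 ∉ F
  nG : i0 ∉ G
  tb : ∀ k ∈ F, 1 - h ≤ t k ∧ t k ≤ h
  frac : ∀ y ∈ Y, ∀ k ∈ F, y k = t k ∨ y k = t k - 1
  int : ∀ y ∈ Y, ∀ k ∈ G, y k = -1 ∨ y k = 0 ∨ y k = 1
  off : ∀ y ∈ Y, ∀ k, k ∉ F → k ∉ G → y k = 0
  ts : TS (lift i0 (e * h) (e * (h - 1)) Y)

variable {i0 : ι} {h e : ℝ} {t : ι → ℝ} {F G : Finset ι} {Y : Finset (ι → ℝ)}

theorem Dbl.mono (H : Dbl i0 h e t F G Y) {Y' : Finset (ι → ℝ)} (hY : Y' ⊆ Y) :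
    Dbl i0 h e t F G Y' where
  h1 := H.h1
  h2 := H.h2
  he := H.he
  disj := H.disj
  nF := H.nF
  nG := H.nG
  tb := H.tb
  frac := fun y hy => H.frac y (hY hy)
  int := fun y hy => H.int y (hY hy)
  off := fun y hy => H.off y (hY hy)
  ts := H.ts.mono (by
    rintro x ⟨y, hy, hx⟩
    exact ⟨y, hY hy, hx⟩)

theorem lift_del {i0 k : ι} (hk : k ≠ i0) (s s' : ℝ) (Y : Finset (ι → ℝ)) :
    lift i0 s s' (Y.image (del k)) ⊆ del k '' lift i0 s s' Y := by
  rintro x ⟨z, hz, hx⟩
  obtain ⟨y, hy, rfl⟩ := Finset.mem_image.1 hz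
  rcases hx with rfl | rfl
  · refine ⟨_, mem_lift1 hy, ?_⟩
    unfold del
    rw [Function.update_comm hk.symm]
  · refine ⟨_, mem_lift2 hy, ?_⟩
    unfold del
    rw [Function.update_comm hk.symm]

theorem Dbl.delF (H : Dbl i0 h e t F G Y) {k : ι} (hk : k ∈ F) :
    Dbl i0 h e t (F.erase k) G (Y.image (del k)) where
  h1 := H.h1
  h2 := H.h2
  he := H.he
  disj := Finset.disjoint_of_subset_left (Finset.erase_subset _ _) H.disj
  nF := fun h1 => H.nF (Finset.mem_of_mem_erase h1)
  nG := H.nG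
  tb := fun k hk => H.tb k (Finset.mem_of_mem_erase hk)
  frac := by
    intro x hx j hj
    obtain ⟨y, hy, rfl⟩ := Finset.mem_image.1 hx
    rw [Finset.mem_erase] at hj
    rw [del_of_ne hj.1]
    exact H.frac y hy j hj.2
  int := by
    intro x hx j hj
    obtain ⟨y, hy, rfl⟩ := Finset.mem_image.1 hx
    have hjk : j ≠ k := by
      rintro rfl
      exact Finset.disjoint_left.1 H.disj hk hj
    rw [del_of_ne hjk]
    exact H.int y hy j hj
  off := by
    intro x hx j hj hj'
    obtain ⟨y, hy, rfl⟩ := Finset.mem_image.1 hx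
    by_cases hjk : j = k
    · subst hjk; exact del_same _ _
    · rw [del_of_ne hjk]
      exact H.off y hy j (fun h1 => hj (Finset.mem_erase.2 ⟨hjk, h1⟩)) hj'
  ts := by
    have hki : k ≠ i0 := by rintro rfl; exact H.nF hk
    exact (H.ts.del k).mono (lift_del hki _ _ _)

theorem Dbl.delG (H : Dbl i0 h e t F G Y) {k : ι} (hk : k ∈ G) :
    Dbl i0 h e t F (G.erase k) (Y.image (del k)) where
  h1 := H.h1
  h2 := H.h2
  he := H.he
  disj := Finset.disjoint_of_subset_right (Finset.erase_subset _ _) H.disj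
  nF := H.nF
  nG := fun h1 => H.nG (Finset.mem_of_mem_erase h1)
  tb := H.tb
  frac := by
    intro x hx j hj
    obtain ⟨y, hy, rfl⟩ := Finset.mem_image.1 hx
    have hjk : j ≠ k := by
      rintro rfl
      exact Finset.disjoint_left.1 H.disj hj hk
    rw [del_of_ne hjk]
    exact H.frac y hy j hj
  int := by
    intro x hx j hj
    obtain ⟨y, hy, rfl⟩ := Finset.mem_image.1 hx
    rw [Finset.mem_erase] at hj
    rw [del_of_ne hj.1]
    exact H.int y hy j hj.2
  off := by
    intro x hx j hj hj'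
    obtain ⟨y, hy, rfl⟩ := Finset.mem_image.1 hx
    by_cases hjk : j = k
    · subst hjk; exact del_same _ _
    · rw [del_of_ne hjk]
      exact H.off y hy j hj (fun h1 => hj' (Finset.mem_erase.2 ⟨hjk, h1⟩))
  ts := by
    have hki : k ≠ i0 := by rintro rfl; exact H.nG hk
    exact (H.ts.del k).mono (lift_del hki _ _ _)

theorem Dbl.diff_lt_two (H : Dbl i0 h e t F G Y) {y y' : ι → ℝ} (hy : y ∈ Y) (hy' : y' ∈ Y)
    {k : ι} (hk : k ≠ i0) : |y k - y' k| < 2 := by
  have h3 := H.ts 2 ![Function.update y i0 (e * h), Function.update y' i0 (e * h)] ![k, i0] (by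
    intro j
    fin_cases j
    · exact mem_lift1 hy
    · exact mem_lift1 hy')
  rw [Matrix.det_fin_two] at h3
  simp only [Matrix.of_apply, Matrix.cons_val_zero, Matrix.cons_val_one, Function.update_self,
    Function.update_of_ne hk] at h3
  have h4 : y k * (e * h) - y' k * (e * h) = (y k - y' k) * (e * h) := by ring
  rw [h4, abs_mul, abs_mul] at h3
  have h5 : |e| = 1 := by rcases H.he with h6 | h6 <;> rw [h6] <;> simp
  have h6 : |h| = h := abs_of_pos (by linarith [H.h1])
  rw [h5, h6, one_mul] at h3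
  by_contra hcon
  push Not at hcon
  nlinarith [H.h1]

/-- Both signed combinations give the sum of absolute values. -/
theorem abs_add_le_of {a b : ℝ} (h1 : |a + b| ≤ 1) (h2 : |a - b| ≤ 1) : |a| + |b| ≤ 1 := by
  rw [abs_le] at h1 h2
  rcases abs_cases a with ⟨ha, _⟩ | ⟨ha, _⟩ <;> rcases abs_cases b with ⟨hb, _⟩ | ⟨hb, _⟩ <;>
    rw [ha, hb] <;> linarith [h1.1, h1.2, h2.1, h2.2]

/-- The three by three minors used for integral directions. -/
theorem Dbl.minor3 (H : Dbl i0 h e t F G Y) {j l : ι} (hj : j ≠ i0) (hl : l ≠ i0)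
    {y0 y1 y1' : ι → ℝ} (hy0 : y0 ∈ Y) (hy1 : y1 ∈ Y) (hy1' : y1' ∈ Y)
    {ε : ℝ} (hε : ε = 1 ∨ ε = -1) (e0 : y0 j = 0) (e1 : y1 j = ε) (e1' : y1' j = ε)
    (el : y1 l = y0 l) : |y0 l| + h * |y0 l - y1' l| ≤ 1 := by
  have key : ∀ b b' : ℝ, ((b = e * h ∧ b' = e * (h - 1)) ∨ (b = e * (h - 1) ∧ b' = e * h)) →
      |y0 l * (b' - b) + (e * h) * (y0 l - y1' l)| ≤ 1 := by
    intro b b' hb
    have h3 := H.ts 3 ![Function.update y1 i0 b, Function.update y0 i0 (e * h),
      Function.update y1' i0 b'] ![j, l, i0] (by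
      intro c
      rcases hb with ⟨rfl, rfl⟩ | ⟨rfl, rfl⟩
      · fin_cases c
        · exact mem_lift1 hy1
        · exact mem_lift1 hy0
        · exact mem_lift2 hy1'
      · fin_cases c
        · exact mem_lift2 hy1
        · exact mem_lift1 hy0
        · exact mem_lift1 hy1')
    rw [Matrix.det_fin_three] at h3
    simp only [Matrix.of_apply, Matrix.cons_val_zero, Matrix.cons_val_one, Matrix.cons_val,
      Function.update_self, Function.update_of_ne hj, Function.update_of_ne hl, e0, e1, e1',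
      el] at h3
    have h4 : ε * y0 l * b' - ε * y1' l * (e * h) - 0 * y0 l * b' + 0 * y1' l * b +
        ε * y0 l * (e * h) - ε * y0 l * b
        = ε * (y0 l * (b' - b) + (e * h) * (y0 l - y1' l)) := by ring
    have h5 : |ε| = 1 := by rcases hε with h6 | h6 <;> rw [h6] <;> simp
    have h6 : |ε * (y0 l * (b' - b) + (e * h) * (y0 l - y1' l))| ≤ 1 := by
      rw [← h4]; convert h3 using 2
    rw [abs_mul, h5, one_mul] at h6
    exact h6
  have k1 := key (e * (h - 1)) (e * h) (Or.inr ⟨rfl, rfl⟩)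
  have k2 := key (e * h) (e * (h - 1)) (Or.inl ⟨rfl, rfl⟩)
  have h7 := abs_add_le_of (a := e * (y0 l)) (b := e * (h * (y0 l - y1' l)))
    (by convert k1 using 2; ring)
    (by rw [← abs_neg]; convert k2 using 2; ring)
  have h5 : |e| = 1 := by rcases H.he with h6 | h6 <;> rw [h6] <;> simp
  have h6 : |h| = h := abs_of_pos (by linarith [H.h1])
  rw [abs_mul, abs_mul, abs_mul, h5, h6, one_mul, one_mul] at h7
  exact h7

/-- An integral direction costs at most one point. -/
theorem Dbl.costG (H : Dbl i0 h e t F G Y) {j : ι} (hj : j ∈ G) :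
    Y.card ≤ (Y.image (del j)).card + 1 := by
  have hji : j ≠ i0 := by rintro rfl; exact H.nG hj
  -- a sign for the nonzero value
  have hval : ∃ ε : ℝ, (ε = 1 ∨ ε = -1) ∧ ∀ y ∈ Y, y j = 0 ∨ y j = ε := by
    by_cases h1 : ∃ y ∈ Y, y j = 1
    · obtain ⟨y, hy, hyj⟩ := h1
      refine ⟨1, Or.inl rfl, ?_⟩
      intro y' hy'
      rcases H.int y' hy' j hj with h2 | h2 | h2
      · have h3 := H.diff_lt_two hy hy' hji
        rw [hyj, h2] at h3
        norm_num at h3
      · exact Or.inl h2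
      · exact Or.inr h2
    · push Not at h1
      refine ⟨-1, Or.inr rfl, ?_⟩
      intro y' hy'
      rcases H.int y' hy' j hj with h2 | h2 | h2
      · exact Or.inr h2
      · exact Or.inl h2
      · exact absurd h2 (h1 y' hy')
  obtain ⟨ε, hε, hval⟩ := hval
  have hε0 : ε ≠ 0 := by rcases hε with h1 | h1 <;> rw [h1] <;> norm_num
  -- split according to the value
  set Y0 := Y.filter (fun y => y j = 0) with hY0
  set Y1 := Y.filter (fun y => ¬ y j = 0) with hY1
  have hcard : Y0.card + Y1.card = Y.card :=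
    Finset.card_filter_add_card_filter_not (s := Y) (fun y => y j = 0)
  have hi0 : (Y0.image (del j)).card = Y0.card := by
    apply Finset.card_image_of_injOn
    intro x hx y hy hxy
    rw [Finset.mem_coe, hY0, Finset.mem_filter] at hx hy
    have hxy' : del j x = del j y := hxy
    rw [← update_del j x, ← update_del j y, hxy', hx.2, hy.2]
  have hi1 : (Y1.image (del j)).card = Y1.card := by
    apply Finset.card_image_of_injOn
    intro x hx y hy hxy
    rw [Finset.mem_coe, hY1, Finset.mem_filter] at hx hy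
    have hxy' : del j x = del j y := hxy
    have hx1 : x j = ε := (hval x hx.1).resolve_left hx.2
    have hy1 : y j = ε := (hval y hy.1).resolve_left hy.2
    rw [← update_del j x, ← update_del j y, hxy', hx1, hy1]
  have hunion : (Y0.image (del j)) ∪ (Y1.image (del j)) ⊆ Y.image (del j) := by
    intro z hz
    rw [Finset.mem_union, Finset.mem_image, Finset.mem_image] at hz
    rw [Finset.mem_image]
    rcases hz with ⟨y, hy, rfl⟩ | ⟨y, hy, rfl⟩
    · exact ⟨y, (Finset.mem_filter.1 hy).1, rfl⟩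
    · exact ⟨y, (Finset.mem_filter.1 hy).1, rfl⟩
  have hinter : ((Y0.image (del j)) ∩ (Y1.image (del j))).card ≤ 1 := by
    rw [Finset.card_le_one]
    intro z hz z' hz'
    rw [Finset.mem_inter, Finset.mem_image, Finset.mem_image] at hz hz'
    obtain ⟨⟨y0, hy0, hy0z⟩, ⟨y1, hy1, hy1z⟩⟩ := hz
    obtain ⟨⟨y0', hy0', hy0z'⟩, ⟨y1', hy1', hy1z'⟩⟩ := hz'
    rw [hY0, Finset.mem_filter] at hy0 hy0'
    rw [hY1, Finset.mem_filter] at hy1 hy1'
    have e1 : y1 j = ε := (hval y1 hy1.1).resolve_left hy1.2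
    have e1' : y1' j = ε := (hval y1' hy1'.1).resolve_left hy1'.2
    by_contra hne
    have hex : ∃ l, z l ≠ z' l := by
      by_contra hno
      push Not at hno
      exact hne (funext hno)
    obtain ⟨l, hl⟩ := hex
    have hlj : l ≠ j := by
      rintro rfl
      apply hl
      rw [← hy0z, ← hy0z', del_same, del_same]
    have hl0 : y0 l = z l := by rw [← hy0z, del_of_ne hlj]
    have hl1 : y1 l = z l := by rw [← hy1z, del_of_ne hlj]
    have hl0' : y0' l = z' l := by rw [← hy0z', del_of_ne hlj]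
    have hl1' : y1' l = z' l := by rw [← hy1z', del_of_ne hlj]
    have hmem : l ∈ F ∨ l ∈ G := by
      by_contra hno
      push Not at hno
      apply hl
      rw [← hl0, ← hl0', H.off y0 hy0.1 l hno.1 hno.2, H.off y0' hy0'.1 l hno.1 hno.2]
    have hli : l ≠ i0 := by
      rcases hmem with h1 | h1
      · rintro rfl; exact H.nF h1
      · rintro rfl; exact H.nG h1
    have hge : 1 ≤ |z l - z' l| := by
      rcases hmem with h1 | h1
      · have a1 := H.frac y0 hy0.1 l h1
        have a2 := H.frac y0' hy0'.1 l h1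
        rw [hl0] at a1
        rw [hl0'] at a2
        rcases a1 with a1 | a1 <;> rcases a2 with a2 | a2
        · exact absurd (a1.trans a2.symm) hl
        · rw [a1, a2]; ring_nf; simp
        · rw [a1, a2]; ring_nf; simp
        · exact absurd (a1.trans a2.symm) hl
      · have a1 := H.int y0 hy0.1 l h1
        have a2 := H.int y0' hy0'.1 l h1
        rw [hl0] at a1
        rw [hl0'] at a2
        rcases a1 with a1 | a1 | a1 <;> rcases a2 with a2 | a2 | a2 <;>
          first
          | exact absurd (a1.trans a2.symm) hl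
          | (rw [a1, a2]; norm_num)
    have m1 := H.minor3 hji hli hy0.1 hy1.1 hy1'.1 hε hy0.2 e1 e1' (by rw [hl1, hl0])
    have m2 := H.minor3 hji hli hy0'.1 hy1'.1 hy1.1 hε hy0'.2 e1' e1 (by rw [hl1', hl0'])
    rw [hl0, hl1'] at m1
    rw [hl0', hl1, abs_sub_comm] at m2
    have h3 : |z l - z' l| ≤ |z l| + |z' l| := abs_sub _ _
    nlinarith [H.h1]
  have h3 := Finset.card_le_card hunion
  have h4 := Finset.card_union_add_card_inter (Y0.image (del j)) (Y1.image (del j))
  omega

end Pool.Agent.MPba6
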