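import Mathlib

namespace Pool.Agent.MPba6

/-! ### Integer determinants by list recursion -/

/-- `Σ_{j<n} g j` by structural recursion. -/
def esum (g : ℕ → ℤ) : ℕ → ℤ
  | 0 => 0
  | n + 1 => esum g n + g n

theorem esum_eq (g : ℕ → ℤ) (n : ℕ) : esum g n = ∑ j : Fin n, g j := by
  induction n with
  | zero => simp [esum]
  | succ n ih => rw [esum, ih, Fin.sum_univ_castSucc]; simp

/-- sign -/
def sg (j : ℕ) (x : ℤ) : ℤ := bif Nat.beq (j % 2) 0 then x else -x

theorem sg_eq (j : ℕ) (x : ℤ) : sg j x = (-1) ^ j * x := by
  unfold sg
  rcases Nat.even_or_odd j with h | h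
  · have h1 : j % 2 = 0 := Nat.even_iff.1 h
    rw [h1, h.neg_one_pow]
    simp
  · have h1 : j % 2 = 1 := Nat.odd_iff.1 h
    rw [h1, h.neg_one_pow]
    have h2 : Nat.beq 1 0 = false := rfl
    rw [h2]
    simp

/-- determinant of the matrix with entries `f r c`, rows in `R`, columns in `C` -/
def ldet (f : ℕ → ℕ → ℤ) : List ℕ → List ℕ → ℤ
  | [], _ => 1
  | r :: rs, C =>
    esum (fun j => sg j (f r (C.getD j 0) * ldet f rs (C.eraseIdx j))) (rs.length + 1)

theorem ldet_eq (f : ℕ → ℕ → ℤ) : ∀ (R C : List ℕ), C.length = R.length →
    ldet f R C = (Matrix.of fun (i j : Fin R.length) => f (R.getD i 0) (C.getD j 0)).det := by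
  intro R
  induction R with
  | nil => intro C _; simp [ldet]
  | cons r rs ih =>
    intro C hC
    rw [ldet, esum_eq]
    have h1 := Matrix.det_succ_row_zero
      (Matrix.of fun (i j : Fin (rs.length + 1)) => f ((r :: rs).getD i 0) (C.getD j 0))
    refine Eq.trans ?_ h1.symm
    apply Finset.sum_congr rfl
    intro j _
    rw [sg_eq]
    have hj : (j : ℕ) < C.length := by rw [hC]; exact j.2
    rw [ih (C.eraseIdx j) (by rw [List.length_eraseIdx_of_lt hj, hC]; simp)]
    rw [mul_assoc]
    congr 2
    congr 1
    ext i j'
    simp only [Matrix.of_apply, Matrix.submatrix_apply]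
    congr 1
    rw [List.getD_eq_getElem?_getD, List.getD_eq_getElem?_getD, List.getElem?_eraseIdx]
    by_cases h2 : (j' : ℕ) < j
    · rw [if_pos h2]
      rw [Fin.succAbove_of_castSucc_lt _ _ (by exact h2)]
      simp
    · rw [if_neg h2]
      rw [Fin.succAbove_of_le_castSucc _ _ (by exact Nat.le_of_not_lt h2)]
      simp

/-! ### The search -/

/-- some mask in the list is contained in `cur` -/
def hit (cur : ℕ) : List ℕ → Bool
  | [] => false
  | m :: ms => (Nat.beq (Nat.land m cur) m) || hit cur ms

theorem hit_spec (cur : ℕ) (ms : List ℕ) (h : hit cur ms = true) :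
    ∃ m ∈ ms, ∀ i, m.testBit i = true → cur.testBit i = true := by
  induction ms with
  | nil => simp [hit] at h
  | cons m ms ih =>
    rw [hit, Bool.or_eq_true] at h
    rcases h with h | h
    · refine ⟨m, by simp, ?_⟩
      have h1 : m &&& cur = m := Nat.eq_of_beq_eq_true h
      intro i hi
      have h2 : (m &&& cur).testBit i = m.testBit i := by rw [h1]
      rw [Nat.testBit_and, hi] at h2
      simpa using h2
    · obtain ⟨m', hm', h2⟩ := ih h
      exact ⟨m', by simp [hm'], h2⟩

/-- Depth first search; `true` means that every admissible choice of at least `need` further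
positions ends in a mask accepted by `leaf`. -/
def search (leaf : ℕ → Bool) : List (List ℕ) → ℕ → ℕ → ℕ → ℕ → Bool
  | [], _, _, cur, need => Nat.blt 0 need || leaf cur
  | ms :: rest, rem, bit, cur, need =>
    (Nat.blt rem need) ||
      ((hit cur ms || search leaf rest (rem - 1) (bit + bit) (Nat.lor cur bit) (need - 1)) &&
        search leaf rest (rem - 1) (bit + bit) cur need)

/-- number of chosen positions among `p, ..., p + n - 1` -/
def cnt (b : ℕ → Bool) : ℕ → ℕ → ℕ
  | _, 0 => 0
  | p, n + 1 => (bif b p then 1 else 0) + cnt b (p + 1) n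

theorem cnt_le (b : ℕ → Bool) (n : ℕ) : ∀ p, cnt b p n ≤ n := by
  induction n with
  | zero => intro p; simp [cnt]
  | succ n ih =>
    intro p
    rw [cnt]
    have := ih (p + 1)
    cases b p <;> simp <;> omega

theorem cnt_eq (b : ℕ → Bool) (n : ℕ) : ∀ p,
    cnt b p n = ((Finset.range n).filter (fun i => b (p + i) = true)).card := by
  induction n with
  | zero => intro p; simp [cnt]
  | succ n ih =>
    intro p
    rw [cnt, ih (p + 1), Finset.card_filter, Finset.card_filter, Finset.sum_range_succ']
    rw [add_comm]
    congr 1
    · apply Finset.sum_congr rfl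
      intro i _
      rw [show p + 1 + i = p + (i + 1) by ring]
    · rw [add_zero]
      cases b p <;> simp

theorem search_sound (leaf : ℕ → Bool) (b : ℕ → Bool) :
    ∀ (l : List (List ℕ)) (p cur need : ℕ),
    (∀ i, cur.testBit i = (decide (i < p) && b i)) →
    (∀ q ms, l[q]? = some ms → ∀ m ∈ ms, b (p + q) = true →
      (∀ i, m.testBit i = true → b i = true) → False) →
    search leaf l l.length (2 ^ p) cur need = true → cnt b p l.length < need ∨
      ∃ c, (∀ i, c.testBit i = (decide (i < p + l.length) && b i)) ∧ leaf c = true := by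
  intro l
  induction l with
  | nil =>
    intro p cur need hcur _ hs
    simp only [search, List.length_nil, cnt, Bool.or_eq_true] at hs ⊢
    rcases hs with hs | hs
    · left; simpa using hs
    · right; exact ⟨cur, by simpa using hcur, hs⟩
  | cons ms rest ih =>
    intro p cur need hcur hforb hs
    rw [search, Bool.or_eq_true, Bool.and_eq_true, Bool.or_eq_true] at hs
    rw [List.length_cons, cnt]
    have hlen : (ms :: rest).length - 1 = rest.length := by simp
    have hbit : 2 ^ p + 2 ^ p = 2 ^ (p + 1) := by ring
    rw [hlen, hbit] at hs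
    have hforb' : ∀ q ms', rest[q]? = some ms' → ∀ m ∈ ms', b (p + 1 + q) = true →
        (∀ i, m.testBit i = true → b i = true) → False := by
      intro q ms' hq m hm hb
      apply hforb (q + 1) ms' (by simpa using hq) m hm
      rw [show p + (q + 1) = p + 1 + q by ring]
      exact hb
    have hpl : p + (rest.length + 1) = p + 1 + rest.length := by ring
    rw [hpl]
    rcases hs with hs | ⟨hs1, hs2⟩
    · left
      have h1 : (ms :: rest).length < need := by simpa using hs
      rw [List.length_cons] at h1
      have h2 := cnt_le b rest.length (p + 1)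
      cases b p <;> simp <;> omega
    · cases hb : b p with
      | false =>
        have hcur' : ∀ i, cur.testBit i = (decide (i < p + 1) && b i) := by
          intro i
          rw [hcur i]
          rcases Nat.lt_trichotomy i p with h | h | h
          · simp [h, Nat.lt_succ_of_lt h]
          · subst h; simp [hb]
          · simp [Nat.not_lt.2 h.le, Nat.not_lt.2 (show p + 1 ≤ i from h)]
        have := ih (p + 1) cur need hcur' hforb' hs2
        simpa using this
      | true =>
        rcases hs1 with hs1 | hs1
        · obtain ⟨m, hm, h2⟩ := hit_spec _ _ hs1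
          exact (hforb 0 ms (by simp) m hm (by simpa using hb) fun i hi => by
            have := h2 i hi
            rw [hcur i, Bool.and_eq_true] at this
            exact this.2).elim
        · have hcur' : ∀ i, (Nat.lor cur (2 ^ p)).testBit i = (decide (i < p + 1) && b i) := by
            intro i
            have e : (Nat.lor cur (2 ^ p)).testBit i = (cur ||| 2 ^ p).testBit i := rfl
            rw [e, Nat.testBit_or, hcur i, Nat.testBit_two_pow]
            rcases Nat.lt_trichotomy i p with h | h | h
            · simp [h, Nat.lt_succ_of_lt h, h.ne']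
            · subst h; simp [hb]
            · simp [Nat.not_lt.2 h.le, Nat.not_lt.2 (show p + 1 ≤ i from h), h.ne]
          have h3 := ih (p + 1) (Nat.lor cur (2 ^ p)) (need - 1) hcur' hforb' hs1
          rcases h3 with h3 | h3
          · left
            simp only [cond_true]
            omega
          · right; exact h3

/-- bit mask of a list -/
def maskOf : List ℕ → ℕ
  | [] => 0
  | i :: l => Nat.lor (2 ^ i) (maskOf l)

theorem maskOf_testBit (l : List ℕ) (i : ℕ) : (maskOf l).testBit i = true ↔ i ∈ l := by
  induction l with
  | nil => simp [maskOf]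
  | cons j l ih =>
    have : (maskOf (j :: l)).testBit i = (2 ^ j ||| maskOf l).testBit i := rfl
    rw [this, Nat.testBit_or, Bool.or_eq_true, ih, Nat.testBit_two_pow, List.mem_cons]
    simp [eq_comm]

/-- the table of masks attached to the positions -/
def tbl {α : Type} (FB : List (ℕ × List ℕ × α)) (n : ℕ) : List (List ℕ) :=
  (List.range n).map fun p => (FB.filter fun c => Nat.beq c.1 p).map fun c => maskOf c.2.1

theorem search_sound' {α : Type} (leaf : ℕ → Bool) (FB : List (ℕ × List ℕ × α)) (n need : ℕ)
    (b : ℕ → Bool) (T : List (List ℕ)) (hT : T = tbl FB n)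
    (hforb : ∀ c ∈ FB, b c.1 = true → (∀ i ∈ c.2.1, b i = true) → False)
    (hs : search leaf T n 1 0 need = true) :
    ((Finset.range n).filter (fun i => b i = true)).card < need ∨
      ∃ c, (∀ i, c.testBit i = (decide (i < n) && b i)) ∧ leaf c = true := by
  have hlen : T.length = n := by rw [hT]; simp [tbl]
  have h1 := search_sound leaf b T 0 0 need (by simp) (by
    intro q ms hq m hm hb hm2
    subst hT
    simp only [tbl, List.getElem?_map, Option.map_eq_some_iff] at hq
    obtain ⟨q', hq', hms⟩ := hq
    have hqq : q' = q := by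
      rw [List.getElem?_eq_some_iff] at hq'
      obtain ⟨h, h'⟩ := hq'
      simpa using h'.symm
    subst hqq
    subst hms
    rw [List.mem_map] at hm
    obtain ⟨c, hc, rfl⟩ := hm
    rw [List.mem_filter] at hc
    have hc1 : c.1 = q' := Nat.eq_of_beq_eq_true hc.2
    apply hforb c hc.1
    · rw [hc1]; simpa using hb
    · intro i hi
      exact hm2 i ((maskOf_testBit _ _).2 hi)) (by simpa [hlen] using hs)
  rw [hlen, cnt_eq] at h1
  simpa using h1

end Pool.Agent.MPba6
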