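import Pool.Agent.MPba6.DblF
import Pool.Agent.MPba6.Engine
import Pool.Agent.MPba6.CubeData

namespace Pool.Agent.MPba6

open Finset Matrix Classical

variable {ι : Type*}

variable {i0 : ι} {h e : ℝ} {t : ι → ℝ} {F G : Finset ι} {Y : Finset (ι → ℝ)}

/-- The point obtained from `b` by flipping the coordinates `co j` with bit `j` of `q` set. -/
noncomputable def Pt (b : ι → ℝ) (co : ℕ → ι) (a q : ℕ) : ι → ℝ := fun i =>
  if ∃ j < a, co j = i ∧ q.testBit j = true then fl (b i) else b i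

theorem Pt_co (b : ι → ℝ) {co : ℕ → ι} {a : ℕ}
    (hinj : ∀ j < a, ∀ j' < a, co j = co j' → j = j') (q : ℕ) {j : ℕ} (hj : j < a) :
    Pt b co a q (co j) = if q.testBit j = true then fl (b (co j)) else b (co j) := by
  unfold Pt
  by_cases h1 : q.testBit j = true
  · rw [if_pos h1, if_pos ⟨j, hj, rfl, h1⟩]
  · rw [if_neg h1, if_neg]
    rintro ⟨j', hj', h2, h3⟩
    have := hinj j' hj' j hj h2
    rw [this] at h3
    exact h1 h3

theorem Pt_off (b : ι → ℝ) {co : ℕ → ι} {a : ℕ} (q : ℕ) {i : ι} (hi : ∀ j < a, co j ≠ i) :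
    Pt b co a q i = b i := by
  unfold Pt
  rw [if_neg]
  rintro ⟨j, hj, h2, _⟩
  exact hi j hj h2

theorem exists_code (P : ℕ → Prop) (a : ℕ) : ∃ q < 2 ^ a, ∀ j < a, (q.testBit j = true ↔ P j) := by
  refine ⟨Nat.ofBits (fun j : Fin a => decide (P j)), Nat.ofBits_lt_two_pow _, ?_⟩
  intro j hj
  rw [Nat.testBit_ofBits_lt _ _ hj]
  simp

/-- Every point of `Y` is coded relative to a base point of `Y`. -/
theorem Dbl.exists_Pt (H : Dbl i0 h e t F ∅ Y) {co : ℕ → ι} {a : ℕ}
    (hF : ∀ k, k ∈ F ↔ ∃ j < a, co j = k)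
    (hinj : ∀ j < a, ∀ j' < a, co j = co j' → j = j')
    {b : ι → ℝ} (hb : b ∈ Y) {y : ι → ℝ} (hy : y ∈ Y) : ∃ q < 2 ^ a, Pt b co a q = y := by
  obtain ⟨q, hq, hq2⟩ := exists_code (fun j => y (co j) ≠ b (co j)) a
  refine ⟨q, hq, ?_⟩
  ext i
  by_cases hi : i ∈ F
  · obtain ⟨j, hj, rfl⟩ := (hF i).1 hi
    rw [Pt_co b hinj q hj]
    by_cases h1 : y (co j) = b (co j)
    · rw [if_neg, h1]
      rw [hq2 j hj]
      exact fun h2 => h2 h1
    · rw [if_pos ((hq2 j hj).2 h1)]
      rcases H.eq_or_fl hb hy hi with h2 | h2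
      · exact absurd h2 h1
      · exact h2.symm
  · rw [Pt_off b q (fun j hj h1 => hi ((hF i).2 ⟨j, hj, h1⟩)),
      H.off b hb i hi (by simp), H.off y hy i hi (by simp)]

theorem Dbl.code_engine (H : Dbl i0 h e t F ∅ Y) {co : ℕ → ι} {a : ℕ}
    (hF : ∀ k, k ∈ F ↔ ∃ j < a, co j = k)
    (hinj : ∀ j < a, ∀ j' < a, co j = co j' → j = j')
    {b : ι → ℝ} (hb : b ∈ Y) {α : Type} (FB : List (ℕ × List ℕ × α)) (need : ℕ)
    (T : List (List ℕ)) (hT : T = tbl FB (2 ^ a))
    (hforb : ∀ c ∈ FB, Pt b co a c.1 ∈ Y → (∀ i ∈ c.2.1, Pt b co a i ∈ Y) → False)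
    (hs : search (fun _ => false) T (2 ^ a) 1 0 need = true) : Y.card < need := by
  have h1 := search_sound' (fun _ => false) FB (2 ^ a) need (fun q => decide (Pt b co a q ∈ Y))
    T hT (by
      intro c hc h2 h3
      exact hforb c hc (by simpa using h2) (fun i hi => by simpa using h3 i hi)) hs
  rcases h1 with h1 | ⟨_, _, h1⟩
  · refine lt_of_le_of_lt ?_ h1
    have hsub : Y ⊆ ((Finset.range (2 ^ a)).filter
        (fun q => decide (Pt b co a q ∈ Y) = true)).image (Pt b co a) := by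
      intro y hy
      obtain ⟨q, hq, hqy⟩ := H.exists_Pt hF hinj hb hy
      rw [Finset.mem_image]
      exact ⟨q, Finset.mem_filter.2 ⟨Finset.mem_range.2 hq, by rw [hqy]; simpa using hy⟩, hqy⟩
    exact (Finset.card_le_card hsub).trans Finset.card_image_le
  · exact absurd h1 (by simp)

/-- check of a tetrahedron certificate -/
def tfOK (a : ℕ) (M : List ℕ) (q0 q1 q2 q3 j1 j2 j3 : ℕ) : Bool :=
  M.contains q0 && M.contains q1 && M.contains q2 && M.contains q3 &&
  Nat.blt j1 a && Nat.blt j2 a && Nat.blt j3 a &&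
  (q1.testBit j1 == q0.testBit j1) && (q1.testBit j2 == !q0.testBit j2) &&
  (q1.testBit j3 == !q0.testBit j3) &&
  (q2.testBit j1 == !q0.testBit j1) && (q2.testBit j2 == q0.testBit j2) &&
  (q2.testBit j3 == !q0.testBit j3) &&
  (q3.testBit j1 == !q0.testBit j1) && (q3.testBit j2 == !q0.testBit j2) &&
  (q3.testBit j3 == q0.testBit j3)

theorem Pt_same (b : ι → ℝ) {co : ℕ → ι} {a : ℕ}
    (hinj : ∀ j < a, ∀ j' < a, co j = co j' → j = j') {q q' : ℕ} {j : ℕ} (hj : j < a)
    (h1 : (q'.testBit j == q.testBit j) = true) : Pt b co a q' (co j) = Pt b co a q (co j) := by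
  rw [beq_iff_eq] at h1
  rw [Pt_co b hinj q' hj, Pt_co b hinj q hj, h1]

theorem Dbl.Pt_diff (H : Dbl i0 h e t F ∅ Y) {b : ι → ℝ} (hb : b ∈ Y) {co : ℕ → ι} {a : ℕ}
    (hF : ∀ k, k ∈ F ↔ ∃ j < a, co j = k)
    (hinj : ∀ j < a, ∀ j' < a, co j = co j' → j = j') {q q' : ℕ} {j : ℕ} (hj : j < a)
    (h1 : (q'.testBit j == !q.testBit j) = true) :
    Pt b co a q' (co j) = fl (Pt b co a q (co j)) := by
  rw [beq_iff_eq] at h1
  rw [Pt_co b hinj q' hj, Pt_co b hinj q hj, h1]
  have h2 := (H.val hb ((hF _).2 ⟨j, hj, rfl⟩)).2.2.2.1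
  cases q.testBit j
  · simp
  · simp [h2]

theorem Dbl.tf_code (H : Dbl i0 h e t F ∅ Y) {b : ι → ℝ} (hb : b ∈ Y) {co : ℕ → ι} {a : ℕ}
    (hF : ∀ k, k ∈ F ↔ ∃ j < a, co j = k)
    (hinj : ∀ j < a, ∀ j' < a, co j = co j' → j = j') (M : List ℕ)
    (hM : ∀ q ∈ M, Pt b co a q ∈ Y) (q0 q1 q2 q3 j1 j2 j3 : ℕ)
    (hok : tfOK a M q0 q1 q2 q3 j1 j2 j3 = true) : False := by
  unfold tfOK at hok
  simp only [Bool.and_eq_true] at hok
  obtain ⟨⟨⟨⟨⟨⟨⟨⟨⟨⟨⟨⟨⟨⟨⟨m0, m1⟩, m2⟩, m3⟩, l1⟩, l2⟩, l3⟩, a1⟩, a2⟩, a3⟩, b1⟩, b2⟩, b3⟩, c1⟩, c2⟩, c3⟩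
    := hok
  have l1' : j1 < a := by simpa using l1
  have l2' : j2 < a := by simpa using l2
  have l3' : j3 < a := by simpa using l3
  refine H.tf (k1 := co j1) (k2 := co j2) (k3 := co j3) ((hF _).2 ⟨j1, l1', rfl⟩)
    ((hF _).2 ⟨j2, l2', rfl⟩) ((hF _).2 ⟨j3, l3', rfl⟩)
    (hM q0 (by simpa using m0)) (hM q1 (by simpa using m1)) (hM q2 (by simpa using m2))
    (hM q3 (by simpa using m3)) ?_ ?_ ?_ ?_ ?_ ?_ ?_ ?_ ?_
  · exact Pt_same b hinj l1' a1
  · exact H.Pt_diff hb hF hinj l2' a2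
  · exact H.Pt_diff hb hF hinj l3' a3
  · exact H.Pt_diff hb hF hinj l1' b1
  · exact Pt_same b hinj l2' b2
  · exact H.Pt_diff hb hF hinj l3' b3
  · exact H.Pt_diff hb hF hinj l1' c1
  · exact H.Pt_diff hb hF hinj l2' c2
  · exact Pt_same b hinj l3' c3

/-- check of the certificates used for the four dimensional cube -/
def certC (a : ℕ) (c : ℕ × List ℕ × List ℕ × List ℕ) : Bool :=
  match c.2.2.1, c.2.2.2 with
  | [q0, q1, q2, q3], [j1, j2, j3] => tfOK a (c.1 :: c.2.1) q0 q1 q2 q3 j1 j2 j3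
  | [q], [k1, k2, k3, k4] =>
    let M := c.1 :: c.2.1
    Nat.beq a 4 && Nat.blt q 16 &&
    (Nat.blt k1 4 && Nat.blt k2 4 && Nat.blt k3 4 && Nat.blt k4 4) &&
    (!(k1 == k2) && !(k1 == k3) && !(k1 == k4) && !(k2 == k3) && !(k2 == k4) && !(k3 == k4)) &&
    (M.contains q && M.contains (q ^^^ 2 ^ k1) && M.contains (q ^^^ 2 ^ k2) &&
      M.contains (q ^^^ 2 ^ k3) && M.contains (q ^^^ 2 ^ k4) &&
      M.contains (q ^^^ (2 ^ k1 ||| 2 ^ k3)) && M.contains (q ^^^ (2 ^ k1 ||| 2 ^ k4)) &&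
      M.contains (q ^^^ (2 ^ k2 ||| 2 ^ k3)) && M.contains (q ^^^ (2 ^ k2 ||| 2 ^ k4)))
  | _, _ => false

theorem Tc3_eq : Tc3 = tbl FBc3 8 := by decide +kernel
theorem Tc4_eq : Tc4 = tbl FBc4 16 := by decide +kernel
theorem cert_c3 : FBc3.all (certC 3) = true := by decide +kernel
theorem cert_c4 : FBc4.all (certC 4) = true := by decide +kernel
theorem search_c3 : search (fun _ => false) Tc3 8 1 0 7 = true := by decide +kernel
theorem search_c4 : search (fun _ => false) Tc4 16 1 0 9 = true := by decide +kernel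

theorem exists_enum (F : Finset ι) (hne : F.Nonempty) : ∃ co : ℕ → ι,
    (∀ k, k ∈ F ↔ ∃ j < F.card, co j = k) ∧
    (∀ j < F.card, ∀ j' < F.card, co j = co j' → j = j') := by
  obtain ⟨d, hd⟩ := hne
  refine ⟨fun j => if hj : j < F.card then (F.equivFin.symm ⟨j, hj⟩).1 else d, ?_, ?_⟩
  · intro k
    constructor
    · intro hk
      refine ⟨(F.equivFin ⟨k, hk⟩).1, (F.equivFin ⟨k, hk⟩).2, ?_⟩
      simp only [dif_pos (F.equivFin ⟨k, hk⟩).2]
      simp
    · rintro ⟨j, hj, rfl⟩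
      simp only [dif_pos hj]
      exact (F.equivFin.symm ⟨j, hj⟩).2
  · intro j hj j' hj' h1
    simp only [dif_pos hj, dif_pos hj'] at h1
    have h2 := Subtype.ext h1
    have h3 := F.equivFin.symm.injective h2
    exact congrArg Fin.val h3

/-- flip one coordinate -/
noncomputable def fp (c : ι → ℝ) (i : ι) : ι → ℝ := Function.update c i (fl (c i))

theorem fp_same (c : ι → ℝ) (i : ι) : fp c i i = fl (c i) := by simp [fp]

theorem fp_ne (c : ι → ℝ) {i j : ι} (hij : j ≠ i) : fp c i j = c j := by simp [fp, hij]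

theorem Pt_zero (b : ι → ℝ) (co : ℕ → ι) (a : ℕ) : Pt b co a 0 = b := by
  ext i
  unfold Pt
  rw [if_neg]
  rintro ⟨j, _, _, h3⟩
  simp at h3

/-- flipping a bit of the code flips the coordinate -/
theorem Pt_flip (b : ι → ℝ) {co : ℕ → ι} {a : ℕ}
    (hinj : ∀ j < a, ∀ j' < a, co j = co j' → j = j')
    (hfl : ∀ j < a, fl (fl (b (co j))) = b (co j)) (q : ℕ) {k : ℕ} (hk : k < a) :
    Pt b co a (q ^^^ 2 ^ k) = fp (Pt b co a q) (co k) := by
  ext i
  by_cases hi : ∃ j < a, co j = i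
  · obtain ⟨j, hj, rfl⟩ := hi
    by_cases hjk : j = k
    · subst hjk
      rw [fp_same, Pt_co b hinj _ hj, Pt_co b hinj _ hj, Nat.testBit_xor, Nat.testBit_two_pow]
      cases q.testBit j
      · simp
      · simp [hfl j hj]
    · have h1 : co j ≠ co k := fun h2 => hjk (hinj j hj k hk h2)
      rw [fp_ne _ h1, Pt_co b hinj _ hj, Pt_co b hinj _ hj, Nat.testBit_xor,
        Nat.testBit_two_pow]
      have h2 : decide (k = j) = false := by simpa using fun h3 => hjk h3.symm
      rw [h2, Bool.xor_false]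
  · push Not at hi
    rw [fp_ne _ (fun h1 => hi k hk h1.symm), Pt_off b _ hi, Pt_off b _ hi]

theorem xor_or_two_pow (q k l : ℕ) (hkl : k ≠ l) :
    q ^^^ (2 ^ k ||| 2 ^ l) = (q ^^^ 2 ^ k) ^^^ 2 ^ l := by
  apply Nat.eq_of_testBit_eq
  intro i
  rw [Nat.testBit_xor, Nat.testBit_xor, Nat.testBit_xor, Nat.testBit_or, Nat.testBit_two_pow,
    Nat.testBit_two_pow]
  by_cases h1 : k = i
  · have h2 : ¬ l = i := fun h3 => hkl (h1.trans h3.symm)
    cases q.testBit i <;> simp [h1, h2]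
  · by_cases h2 : l = i
    · cases q.testBit i <;> simp [h1, h2]
    · cases q.testBit i <;> simp [h1, h2]

theorem Dbl.three (H : Dbl i0 h e t F ∅ Y) (hc : F.card = 3) : Y.card ≤ 6 := by
  by_cases hY : Y.Nonempty
  · obtain ⟨b, hb⟩ := hY
    obtain ⟨co, hF, hinj⟩ := exists_enum F (by rw [← Finset.card_pos]; omega)
    rw [hc] at hF hinj
    have h1 := H.code_engine hF hinj hb FBc3 7 Tc3 Tc3_eq (by
      intro c hc h2 h3
      have h4 := List.all_eq_true.1 cert_c3 c hc
      unfold certC at h4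
      split at h4
      · refine H.tf_code hb hF hinj (c.1 :: c.2.1) ?_ _ _ _ _ _ _ _ h4
        intro q hq
        rw [List.mem_cons] at hq
        rcases hq with rfl | hq
        · exact h2
        · exact h3 q hq
      · simp at h4
      · exact absurd h4 (by simp)) search_c3
    omega
  · rw [Finset.not_nonempty_iff_eq_empty] at hY
    rw [hY]; simp

theorem Dbl.four_le (H : Dbl i0 h e t F ∅ Y) (hc : F.card = 4) : Y.card ≤ 9 := by
  have h1 := H.recur
  have h2 : ∑ k ∈ F, ((Y.image (del k)).card : ℝ) ≤ ∑ k ∈ F, (6 : ℝ) := by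
    apply Finset.sum_le_sum
    intro k hk
    have h3 := (H.delF hk).three (by rw [Finset.card_erase_of_mem hk, hc])
    exact_mod_cast h3
  rw [Finset.sum_const, nsmul_eq_mul, hc] at h2
  rw [hc] at h1
  push_cast at h1 h2
  have h3 : (Y.card : ℝ) ≤ 9 := by linarith
  exact_mod_cast h3

/-- codes of the extremal nine point configuration, relative to its centre -/
def P9 : List ℕ := [0, 1, 2, 4, 8, 5, 9, 6, 10]

theorem Dbl.four_eq (H : Dbl i0 h e t F ∅ Y) (hc : F.card = 4) (h9 : 9 ≤ Y.card) :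
    h = 2 / 3 ∧ ∃ co : ℕ → ι, ∃ c ∈ Y, (∀ k, k ∈ F ↔ ∃ j < 4, co j = k) ∧
      (∀ j < 4, ∀ j' < 4, co j = co j' → j = j') ∧ (∀ j < 4, |c (co j)| = 1 / 3) ∧
      ∀ y ∈ Y, ∃ q ∈ P9, y = Pt c co 4 q := by
  obtain ⟨b, hb⟩ : Y.Nonempty := by rw [← Finset.card_pos]; omega
  obtain ⟨co, hF, hinj⟩ := exists_enum F (by rw [← Finset.card_pos]; omega)
  rw [hc] at hF hinj
  -- some nine point configuration is contained in `Y`
  have hex : ∃ q k1 k2 k3 k4 : ℕ, (k1 < 4 ∧ k2 < 4 ∧ k3 < 4 ∧ k4 < 4) ∧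
      (k1 ≠ k2 ∧ k1 ≠ k3 ∧ k1 ≠ k4 ∧ k2 ≠ k3 ∧ k2 ≠ k4 ∧ k3 ≠ k4) ∧
      (∀ m ∈ [0, 2 ^ k1, 2 ^ k2, 2 ^ k3, 2 ^ k4, 2 ^ k1 ||| 2 ^ k3, 2 ^ k1 ||| 2 ^ k4,
        2 ^ k2 ||| 2 ^ k3, 2 ^ k2 ||| 2 ^ k4], Pt b co 4 (q ^^^ m) ∈ Y) := by
    by_contra hno
    have h1 := H.code_engine hF hinj hb FBc4 9 Tc4 Tc4_eq (by
      intro c hc h2 h3
      have hM : ∀ q ∈ c.1 :: c.2.1, Pt b co 4 q ∈ Y := by
        intro q hq
        rw [List.mem_cons] at hq
        rcases hq with rfl | hq
        · exact h2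
        · exact h3 q hq
      have h4 := List.all_eq_true.1 cert_c4 c hc
      unfold certC at h4
      split at h4
      · exact H.tf_code hb hF hinj (c.1 :: c.2.1) hM _ _ _ _ _ _ _ h4
      · rename_i q k1 k2 k3 k4 _ _
        apply hno
        simp only [Bool.and_eq_true, Bool.not_eq_true', beq_eq_false_iff_ne] at h4
        obtain ⟨⟨⟨⟨_, _⟩, ⟨⟨⟨l1, l2⟩, l3⟩, l4⟩⟩, ⟨⟨⟨⟨⟨n1, n2⟩, n3⟩, n4⟩, n5⟩, n6⟩⟩,
          ⟨⟨⟨⟨⟨⟨⟨⟨m0, m1⟩, m2⟩, m3⟩, m4⟩, m5⟩, m6⟩, m7⟩, m8⟩⟩ := h4
        refine ⟨q, k1, k2, k3, k4, ⟨by simpa using l1, by simpa using l2, by simpa using l3,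
          by simpa using l4⟩, ⟨n1, n2, n3, n4, n5, n6⟩, ?_⟩
        intro m hm
        simp only [List.mem_cons, List.not_mem_nil, or_false] at hm
        rcases hm with rfl | rfl | rfl | rfl | rfl | rfl | rfl | rfl | rfl
        · apply hM; simpa using m0
        · apply hM; simpa using m1
        · apply hM; simpa using m2
        · apply hM; simpa using m3
        · apply hM; simpa using m4
        · apply hM; simpa using m5
        · apply hM; simpa using m6
        · apply hM; simpa using m7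
        · apply hM; simpa using m8
      · exact absurd h4 (by simp)) search_c4
    omega
  obtain ⟨q, k1, k2, k3, k4, ⟨l1, l2, l3, l4⟩, ⟨n12, n13, n14, n23, n24, n34⟩, hP⟩ := hex
  have hfl : ∀ j < 4, fl (fl (b (co j))) = b (co j) := fun j hj =>
    (H.val hb ((hF _).2 ⟨j, hj, rfl⟩)).2.2.2.1
  set c := Pt b co 4 q with hcdef
  have hc0 : c ∈ Y := by
    have := hP 0 (by simp)
    rwa [Nat.xor_zero] at this
  have hs1 : ∀ k < 4, Pt b co 4 (q ^^^ 2 ^ k) = fp c (co k) := fun k hk =>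
    Pt_flip b hinj hfl q hk
  have hs2 : ∀ k < 4, ∀ l < 4, k ≠ l → Pt b co 4 (q ^^^ (2 ^ k ||| 2 ^ l))
      = fp (fp c (co k)) (co l) := by
    intro k hk l hl hkl
    rw [xor_or_two_pow q k l hkl, Pt_flip b hinj hfl _ hl, hs1 k hk]
  have y1 : fp c (co k1) ∈ Y := by rw [← hs1 k1 l1]; exact hP _ (by simp)
  have y2 : fp c (co k2) ∈ Y := by rw [← hs1 k2 l2]; exact hP _ (by simp)
  have y3 : fp c (co k3) ∈ Y := by rw [← hs1 k3 l3]; exact hP _ (by simp)
  have y4 : fp c (co k4) ∈ Y := by rw [← hs1 k4 l4]; exact hP _ (by simp)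
  have y13 : fp (fp c (co k1)) (co k3) ∈ Y := by
    rw [← hs2 k1 l1 k3 l3 n13]; exact hP _ (by simp)
  have y14 : fp (fp c (co k1)) (co k4) ∈ Y := by
    rw [← hs2 k1 l1 k4 l4 n14]; exact hP _ (by simp)
  have y23 : fp (fp c (co k2)) (co k3) ∈ Y := by
    rw [← hs2 k2 l2 k3 l3 n23]; exact hP _ (by simp)
  have y24 : fp (fp c (co k2)) (co k4) ∈ Y := by
    rw [← hs2 k2 l2 k4 l4 n24]; exact hP _ (by simp)
  have hco : ∀ k < 4, ∀ l < 4, k ≠ l → co k ≠ co l := fun k hk l hl hkl h1 =>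
    hkl (hinj k hk l hl h1)
  have f1 : co k1 ∈ F := (hF _).2 ⟨k1, l1, rfl⟩
  have f2 : co k2 ∈ F := (hF _).2 ⟨k2, l2, rfl⟩
  have f3 : co k3 ∈ F := (hF _).2 ⟨k3, l3, rfl⟩
  have f4 : co k4 ∈ F := (hF _).2 ⟨k4, l4, rfl⟩
  -- weight inequality at the centre
  have hWc : |c (co k1)| + |c (co k2)| + |c (co k3)| + |c (co k4)| ≤ 2 - h := by
    have h1 := H.W hc0 {co k1, co k2, co k3, co k4} (by
      intro i hi
      simp only [Finset.mem_insert, Finset.mem_singleton] at hi
      rcases hi with rfl | rfl | rfl | rfl <;> assumption) (fun i => fp c i) (by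
      intro i hi
      simp only [Finset.mem_insert, Finset.mem_singleton] at hi
      rcases hi with rfl | rfl | rfl | rfl <;> assumption) (by
      intro i _ j _ hji
      exact fp_ne c hji) (by
      intro i _
      exact fp_same c i)
    rw [Finset.sum_insert, Finset.sum_insert, Finset.sum_insert, Finset.sum_singleton] at h1
    · linarith
    · simpa using hco k3 l3 k4 l4 n34
    · simp only [Finset.mem_insert, Finset.mem_singleton, not_or]
      exact ⟨hco k2 l2 k3 l3 n23, hco k2 l2 k4 l4 n24⟩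
    · simp only [Finset.mem_insert, Finset.mem_singleton, not_or]
      exact ⟨hco k1 l1 k2 l2 n12, hco k1 l1 k3 l3 n13, hco k1 l1 k4 l4 n14⟩
  -- weight inequality at the corners
  have hWp : ∀ k < 4, ∀ l < 4, k ≠ l → fp c (co k) ∈ Y → fp c (co l) ∈ Y →
      fp (fp c (co k)) (co l) ∈ Y → h ≤ |c (co k)| + |c (co l)| := by
    intro k hk l hl hkl hyk hyl hykl
    have hne := hco k hk l hl hkl
    have fk : co k ∈ F := (hF _).2 ⟨k, hk, rfl⟩
    have fll : co l ∈ F := (hF _).2 ⟨l, hl, rfl⟩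
    have vk := H.val hc0 fk
    have vl := H.val hc0 fll
    have e1 : fp (fp c (co k)) (co l) (co k) = fl (c (co k)) := by
      rw [fp_ne _ hne, fp_same]
    have e2 : fp (fp c (co k)) (co l) (co l) = fl (c (co l)) := by
      rw [fp_same, fp_ne _ hne.symm]
    have h1 := H.W hykl {co k, co l} (by
      intro i hi
      simp only [Finset.mem_insert, Finset.mem_singleton] at hi
      rcases hi with rfl | rfl <;> assumption)
      (fun i => if i = co k then fp c (co l) else fp c (co k)) (by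
      intro i hi
      simp only [Finset.mem_insert, Finset.mem_singleton] at hi
      rcases hi with rfl | rfl
      · simpa using hyl
      · simpa [hne.symm] using hyk) (by
      intro i hi j hj hji
      simp only [Finset.mem_insert, Finset.mem_singleton] at hi hj
      rcases hi with rfl | rfl
      · rcases hj with rfl | rfl
        · exact absurd rfl hji
        · simp only [if_true]
          rw [fp_same, e2]
      · rcases hj with rfl | rfl
        · simp only [hne.symm, if_false]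
          rw [fp_same, e1]
        · exact absurd rfl hji) (by
      intro i hi
      simp only [Finset.mem_insert, Finset.mem_singleton] at hi
      rcases hi with rfl | rfl
      · simp only [if_true]
        rw [e1, vk.2.2.2.1, fp_ne _ hne]
      · simp only [hne.symm, if_false]
        rw [e2, vl.2.2.2.1, fp_ne _ hne.symm])
    rw [Finset.sum_pair hne, e1, e2, vk.2.2.1, vl.2.2.1] at h1
    linarith
  have w13 := hWp k1 l1 k3 l3 n13 y1 y3 y13
  have w24 := hWp k2 l2 k4 l4 n24 y2 y4 y24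
  have v1 := (H.val hc0 f1).1
  have v2 := (H.val hc0 f2).1
  have v3 := (H.val hc0 f3).1
  have v4 := (H.val hc0 f4).1
  have hh : h = 2 / 3 := by linarith
  -- the new enumeration
  set co' : ℕ → ι := fun n => [co k1, co k2, co k3, co k4].getD n (co k1) with hco'
  have hperm : ∀ j < 4, j = k1 ∨ j = k2 ∨ j = k3 ∨ j = k4 := by
    intro j hj
    omega
  have hF' : ∀ k, k ∈ F ↔ ∃ j < 4, co' j = k := by
    intro k
    rw [hF k]
    constructor
    · rintro ⟨j, hj, rfl⟩
      rcases hperm j hj with rfl | rfl | rfl | rfl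
      · exact ⟨0, by norm_num, rfl⟩
      · exact ⟨1, by norm_num, rfl⟩
      · exact ⟨2, by norm_num, rfl⟩
      · exact ⟨3, by norm_num, rfl⟩
    · rintro ⟨j, hj, rfl⟩
      interval_cases j
      · exact ⟨k1, l1, rfl⟩
      · exact ⟨k2, l2, rfl⟩
      · exact ⟨k3, l3, rfl⟩
      · exact ⟨k4, l4, rfl⟩
  have hinj' : ∀ j < 4, ∀ j' < 4, co' j = co' j' → j = j' := by
    intro j hj j' hj' h1
    have a12 := hco k1 l1 k2 l2 n12
    have a13 := hco k1 l1 k3 l3 n13
    have a14 := hco k1 l1 k4 l4 n14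
    have a23 := hco k2 l2 k3 l3 n23
    have a24 := hco k2 l2 k4 l4 n24
    have a34 := hco k3 l3 k4 l4 n34
    interval_cases j <;> interval_cases j' <;>
      first
      | rfl
      | exact absurd h1 a12
      | exact absurd h1 a13
      | exact absurd h1 a14
      | exact absurd h1 a23
      | exact absurd h1 a24
      | exact absurd h1 a34
      | exact absurd h1.symm a12
      | exact absurd h1.symm a13
      | exact absurd h1.symm a14
      | exact absurd h1.symm a23
      | exact absurd h1.symm a24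
      | exact absurd h1.symm a34
  have hfl' : ∀ j < 4, fl (fl (c (co' j))) = c (co' j) := fun j hj =>
    (H.val hc0 ((hF' _).2 ⟨j, hj, rfl⟩)).2.2.2.1
  refine ⟨hh, co', c, hc0, hF', hinj', ?_, ?_⟩
  · intro j hj
    interval_cases j
    · show |c (co k1)| = 1 / 3
      linarith
    · show |c (co k2)| = 1 / 3
      linarith
    · show |c (co k3)| = 1 / 3
      linarith
    · show |c (co k4)| = 1 / 3
      linarith
  · -- the nine points exhaust `Y`
    have hmem : ∀ q' ∈ P9, Pt c co' 4 q' ∈ Y := by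
      have t0 := Pt_zero c co' 4
      have t1 : Pt c co' 4 1 = fp c (co k1) := by
        have := Pt_flip c hinj' hfl' 0 (k := 0) (by norm_num)
        rw [t0] at this; exact this
      have t2 : Pt c co' 4 2 = fp c (co k2) := by
        have := Pt_flip c hinj' hfl' 0 (k := 1) (by norm_num)
        rw [t0] at this; exact this
      have t4 : Pt c co' 4 4 = fp c (co k3) := by
        have := Pt_flip c hinj' hfl' 0 (k := 2) (by norm_num)
        rw [t0] at this; exact this
      have t8 : Pt c co' 4 8 = fp c (co k4) := by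
        have := Pt_flip c hinj' hfl' 0 (k := 3) (by norm_num)
        rw [t0] at this; exact this
      have t5 : Pt c co' 4 5 = fp (fp c (co k1)) (co k3) := by
        have := Pt_flip c hinj' hfl' 1 (k := 2) (by norm_num)
        rw [t1] at this; exact this
      have t9 : Pt c co' 4 9 = fp (fp c (co k1)) (co k4) := by
        have := Pt_flip c hinj' hfl' 1 (k := 3) (by norm_num)
        rw [t1] at this; exact this
      have t6 : Pt c co' 4 6 = fp (fp c (co k2)) (co k3) := by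
        have := Pt_flip c hinj' hfl' 2 (k := 2) (by norm_num)
        rw [t2] at this; exact this
      have t10 : Pt c co' 4 10 = fp (fp c (co k2)) (co k4) := by
        have := Pt_flip c hinj' hfl' 2 (k := 3) (by norm_num)
        rw [t2] at this; exact this
      intro q' hq'
      unfold P9 at hq'
      simp only [List.mem_cons, List.not_mem_nil, or_false] at hq'
      rcases hq' with rfl | rfl | rfl | rfl | rfl | rfl | rfl | rfl | rfl
      · rw [t0]; exact hc0
      · rw [t1]; exact y1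
      · rw [t2]; exact y2
      · rw [t4]; exact y3
      · rw [t8]; exact y4
      · rw [t5]; exact y13
      · rw [t9]; exact y14
      · rw [t6]; exact y23
      · rw [t10]; exact y24
    have hsub : P9.toFinset.image (Pt c co' 4) ⊆ Y := by
      intro y hy
      obtain ⟨q', hq', rfl⟩ := Finset.mem_image.1 hy
      exact hmem q' (by simpa using hq')
    have hinjP : Set.InjOn (Pt c co' 4) (P9.toFinset : Set ℕ) := by
      intro q1 hq1 q2 hq2 h1
      have hq1' : q1 ∈ P9 := by simpa using hq1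
      have hq2' : q2 ∈ P9 := by simpa using hq2
      have hbits : ∀ j < 4, q1.testBit j = q2.testBit j := by
        intro j hj
        have h2 := congrFun h1 (co' j)
        rw [Pt_co c hinj' _ hj, Pt_co c hinj' _ hj] at h2
        have h3 := (H.val hc0 ((hF' _).2 ⟨j, hj, rfl⟩)).2.2.2.2.2.2.2.2
        cases e1 : q1.testBit j <;> cases e2 : q2.testBit j
        · rfl
        · rw [e1, e2] at h2; simp only [if_true] at h2
          exact absurd h2.symm h3
        · rw [e1, e2] at h2; simp only [if_true] at h2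
          exact absurd h2 h3
        · rfl
      have hdec : ∀ q1 ∈ P9, ∀ q2 ∈ P9, (∀ j < 4, q1.testBit j = q2.testBit j) → q1 = q2 := by
        decide
      exact hdec q1 hq1' q2 hq2' hbits
    have hcard : (P9.toFinset.image (Pt c co' 4)).card = 9 := by
      rw [Finset.card_image_of_injOn hinjP]
      decide
    have heq : P9.toFinset.image (Pt c co' 4) = Y :=
      Finset.eq_of_subset_of_card_le hsub (by rw [hcard]; exact H.four_le hc)
    intro y hy
    rw [← heq] at hy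
    obtain ⟨q', hq', rfl⟩ := Finset.mem_image.1 hy
    exact ⟨q', by simpa using hq', rfl⟩

end Pool.Agent.MPba6
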