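import Pool.Agent.MPba6.Dbl

namespace Pool.Agent.MPba6

open Finset Matrix Classical

variable {ι : Type*}

variable {i0 : ι} {h e : ℝ} {t : ι → ℝ} {F G : Finset ι} {Y : Finset (ι → ℝ)}

theorem fl_pos {v : ℝ} (hv : 0 < v) : fl v = v - 1 := by simp [fl, hv]

theorem fl_neg {v : ℝ} (hv : v < 0) : fl v = v + 1 := by simp [fl, not_lt.2 hv.le]

theorem Dbl.tpos (H : Dbl i0 h e t F G Y) {k : ι} (hk : k ∈ F) : 0 < t k ∧ t k < 1 := by
  have := H.tb k hk
  exact ⟨by linarith [H.h2], by linarith [H.h2]⟩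

/-- All elementary facts on the values of a fractional coordinate. -/
theorem Dbl.val (H : Dbl i0 h e t F G Y) {y : ι → ℝ} (hy : y ∈ Y) {k : ι} (hk : k ∈ F) :
    1 - h ≤ |y k| ∧ |y k| ≤ h ∧ |fl (y k)| = 1 - |y k| ∧ fl (fl (y k)) = y k ∧
    |y k - fl (y k)| = 1 ∧ y k / (y k - fl (y k)) = |y k| ∧
    (fl (y k) = t k ∨ fl (y k) = t k - 1) ∧ y k ≠ 0 ∧ fl (y k) ≠ y k := by
  have h1 := H.tb k hk
  have h2 := H.tpos hk
  rcases H.frac y hy k hk with h3 | h3
  · have h4 : 0 < y k := by rw [h3]; exact h2.1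
    have h5 : fl (y k) = y k - 1 := fl_pos h4
    have h6 : y k - 1 < 0 := by rw [h3]; linarith
    rw [h5, fl_neg h6, abs_of_pos h4, abs_of_neg h6]
    refine ⟨by linarith, by linarith, by ring, by ring, ?_, ?_, ?_, h4.ne', ?_⟩
    · rw [show y k - (y k - 1) = 1 by ring]; simp
    · rw [show y k - (y k - 1) = 1 by ring]; simp
    · right; rw [h3]
    · intro h7; linarith
  · have h4 : y k < 0 := by rw [h3]; linarith
    have h5 : fl (y k) = y k + 1 := fl_neg h4
    have h6 : 0 < y k + 1 := by rw [h3]; linarith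
    rw [h5, fl_pos h6, abs_of_neg h4, abs_of_pos h6]
    refine ⟨by linarith, by linarith, by ring, by ring, ?_, ?_, ?_, h4.ne, ?_⟩
    · rw [show y k - (y k + 1) = -1 by ring]; simp
    · rw [show y k - (y k + 1) = -1 by ring]; ring
    · left; rw [h3]; ring
    · intro h7; linarith

/-- Two points of `Y` either agree in a fractional coordinate or are flips of each other. -/
theorem Dbl.eq_or_fl (H : Dbl i0 h e t F G Y) {y y' : ι → ℝ} (hy : y ∈ Y) (hy' : y' ∈ Y)
    {k : ι} (hk : k ∈ F) : y' k = y k ∨ y' k = fl (y k) := by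
  have h2 := H.tpos hk
  rcases H.frac y hy k hk with h3 | h3 <;> rcases H.frac y' hy' k hk with h4 | h4
  · left; rw [h3, h4]
  · right; rw [h3, fl_pos h2.1, h4]
  · right; rw [h3, fl_neg (by linarith), h4]; ring
  · left; rw [h3, h4]

/-- The weight inequality. -/
theorem Dbl.W (H : Dbl i0 h e t F G Y) {y : ι → ℝ} (hy : y ∈ Y) (N : Finset ι) (hN : N ⊆ F)
    (x : ι → ι → ℝ) (hx : ∀ k ∈ N, x k ∈ Y) (h1 : ∀ k ∈ N, ∀ l ∈ N, l ≠ k → x k l = y l)
    (h2 : ∀ k ∈ N, x k k = fl (y k)) : ∑ k ∈ N, |y k| ≤ 2 - h := by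
  have he0 : e ≠ 0 := by rcases H.he with h3 | h3 <;> rw [h3] <;> norm_num
  have heabs : |e| = 1 := by rcases H.he with h3 | h3 <;> rw [h3] <;> simp
  have hki : ∀ k : {k // k ∈ N}, k.1 ≠ i0 := by
    intro k h3
    exact H.nF (h3 ▸ hN k.2)
  have key := H.ts.localIneq (κ := Option {k // k ∈ N})
    (fun o => o.elim i0 (fun k => k.1))
    (fun o => o.elim (e * h) (fun k => y k.1))
    (fun o => o.elim e (fun k => y k.1 - fl (y k.1)))
    (fun o => o.elim (Function.update y i0 (e * (h - 1)))
      (fun k => Function.update (x k.1) i0 (e * h)))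
    (by
      intro o
      cases o with
      | none => exact he0
      | some k =>
        have := (H.val hy (hN k.2)).2.2.2.2.1
        intro h3
        simp only [Option.elim_some] at h3
        rw [h3] at this
        simp at this)
    (by
      intro o
      cases o with
      | none => exact mem_lift2 hy
      | some k => exact mem_lift1 (hx k.1 k.2))
    (by
      intro o o' hoo
      cases o with
      | none =>
        cases o' with
        | none => exact absurd rfl hoo
        | some l =>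
          simp only [Option.elim_some, Option.elim_none]
          rw [Function.update_of_ne (hki l)]
      | some k =>
        cases o' with
        | none => simp
        | some l =>
          simp only [Option.elim_some]
          rw [Function.update_of_ne (hki l)]
          apply h1 k.1 k.2 l.1 l.2
          intro h3
          exact hoo (by rw [Subtype.ext h3]))
    (by
      intro o
      cases o with
      | none =>
        simp only [Option.elim_none, Function.update_self]
        ring
      | some k =>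
        simp only [Option.elim_some]
        rw [Function.update_of_ne (hki k), h2 k.1 k.2]
        ring)
  rw [Fintype.prod_option, Fintype.sum_option] at key
  simp only [Option.elim_none, Option.elim_some] at key
  have hp : ∏ k : {k // k ∈ N}, |y k.1 - fl (y k.1)| = 1 :=
    Finset.prod_eq_one fun k _ => (H.val hy (hN k.2)).2.2.2.2.1
  have hsum : ∑ k : {k // k ∈ N}, y k.1 / (y k.1 - fl (y k.1)) = ∑ k ∈ N, |y k| := by
    rw [← Finset.sum_coe_sort N (fun k => |y k|)]
    exact Finset.sum_congr rfl fun k _ => (H.val hy (hN k.2)).2.2.2.2.2.1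
  rw [hp, hsum, heabs, mul_div_assoc, mul_one, one_mul] at key
  have h3 : e * (h / e) = h := by field_simp
  rw [h3] at key
  linarith [(abs_le.1 key).1]

/-- Recursive counting for purely fractional configurations. -/
theorem Dbl.recur (H : Dbl i0 h e t F ∅ Y) :
    ((F.card : ℝ) - 4 / 3) * (Y.card : ℝ) ≤ ∑ k ∈ F, ((Y.image (del k)).card : ℝ) := by
  -- the parameter
  obtain ⟨c, hc1, hc2, hc3⟩ : ∃ c : ℝ, 1 ≤ c ∧ (c * (2 - h) - (c - 1) * (3 / 2) ≤ 4 / 3) ∧
      ((1 - h ≤ 1 / 3 ∧ c = 1) ∨ c * h - (c - 1) / 2 ≤ 2 / 3) := by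
    by_cases h3 : 1 - h ≤ 1 / 3
    · exact ⟨1, le_rfl, by linarith, Or.inl ⟨h3, rfl⟩⟩
    · push Not at h3
      have h4 : 0 < 3 * (2 * h - 1) := by linarith [H.h1]
      refine ⟨1 / (3 * (2 * h - 1)), ?_, ?_, Or.inr ?_⟩
      · rw [le_div_iff₀ h4]; linarith
      · rw [show 1 / (3 * (2 * h - 1)) * (2 - h) - (1 / (3 * (2 * h - 1)) - 1) * (3 / 2)
          = 3 / 2 - (1 / (3 * (2 * h - 1))) * (2 * h - 1) / 2 by ring]
        have h5 : (1 / (3 * (2 * h - 1))) * (2 * h - 1) = 1 / 3 := by
          have h6 : 2 * h - 1 ≠ 0 := by linarith [H.h1]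
          field_simp
        rw [h5]; norm_num
      · have h5 : (1 / (3 * (2 * h - 1))) * (2 * h - 1) = 1 / 3 := by
          have h6 : 2 * h - 1 ≠ 0 := by linarith [H.h1]
          field_simp
        rw [show 1 / (3 * (2 * h - 1)) * h - (1 / (3 * (2 * h - 1)) - 1) / 2
          = 1 / 2 + (1 / (3 * (2 * h - 1))) * (2 * h - 1) / 2 by ring, h5]
        norm_num
  set w : ι → (ι → ℝ) → ℝ := fun k y =>
    if Function.update y k (fl (y k)) ∈ Y then c * |y k| - (c - 1) / 2 else 0 with hw
  have h1 : ∀ k ∈ F, (Y.card : ℝ) - ((Y.image (del k)).card : ℝ) ≤ ∑ y ∈ Y, w k y := by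
    intro k hk
    have htp := H.tpos hk
    have hne : t k ≠ t k - 1 := by linarith
    apply card_sub_le Y k {t k, t k - 1}
    · intro y hy
      rcases H.frac y hy k hk with h3 | h3 <;> simp [h3]
    · intro z hz hnon
      rw [Finset.sum_filter, Finset.card_filter]
      push_cast
      rw [Finset.sum_pair hne, Finset.sum_pair hne]
      simp only [hw, Function.update_self, Function.update_idem]
      have e1 : fl (t k) = t k - 1 := fl_pos htp.1
      have e2 : fl (t k - 1) = t k := by rw [fl_neg (by linarith)]; ring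
      have e3 : |t k| = t k := abs_of_pos htp.1
      have e4 : |t k - 1| = 1 - t k := by rw [abs_of_neg (by linarith)]; ring
      rw [e1, e2, e3, e4]
      by_cases a1 : Function.update z k (t k) ∈ Y <;>
        by_cases a2 : Function.update z k (t k - 1) ∈ Y <;>
        simp only [a1, a2, if_true, if_false] <;> nlinarith
  have h2 : ∀ y ∈ Y, ∑ k ∈ F, w k y ≤ 4 / 3 := by
    intro y hy
    set N := F.filter (fun k => Function.update y k (fl (y k)) ∈ Y) with hN
    have h3 : ∑ k ∈ F, w k y = ∑ k ∈ N, (c * |y k| - (c - 1) / 2) := by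
      rw [hN, Finset.sum_filter]
    have hW : ∑ k ∈ N, |y k| ≤ 2 - h := by
      apply H.W hy N (Finset.filter_subset _ _) (fun k => Function.update y k (fl (y k)))
      · intro k hk
        exact (Finset.mem_filter.1 hk).2
      · intro k _ l _ hlk
        rw [Function.update_of_ne hlk]
      · intro k _
        rw [Function.update_self]
    rw [h3, Finset.sum_sub_distrib, ← Finset.mul_sum, Finset.sum_const, nsmul_eq_mul]
    have hWn : 0 ≤ ∑ k ∈ N, |y k| := Finset.sum_nonneg fun k _ => abs_nonneg _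
    by_cases h4 : 3 ≤ N.card
    · have h5 : (3 : ℝ) ≤ N.card := by exact_mod_cast h4
      nlinarith
    · rcases hc3 with ⟨h5, h6⟩ | h5
      · rw [h6]; linarith
      · have h6 : (N.card : ℝ) ≤ 2 := by
          have : N.card ≤ 2 := by omega
          exact_mod_cast this
        have h7 : ∑ k ∈ N, |y k| ≤ ∑ k ∈ N, h :=
          Finset.sum_le_sum fun k hk => (H.val hy (Finset.mem_of_mem_filter k hk)).2.1
        rw [Finset.sum_const, nsmul_eq_mul] at h7
        have h8 : (0 : ℝ) ≤ N.card := by positivity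
        nlinarith
  have h3 : ∑ k ∈ F, ((Y.card : ℝ) - ((Y.image (del k)).card : ℝ)) ≤ ∑ y ∈ Y, (4 / 3 : ℝ) := by
    calc _ ≤ ∑ k ∈ F, ∑ y ∈ Y, w k y := Finset.sum_le_sum h1
      _ = ∑ y ∈ Y, ∑ k ∈ F, w k y := Finset.sum_comm
      _ ≤ _ := Finset.sum_le_sum h2
  rw [Finset.sum_sub_distrib, Finset.sum_const, Finset.sum_const, nsmul_eq_mul,
    nsmul_eq_mul] at h3
  linarith

/-- No tetrahedra: a parity class of a three dimensional face projection cannot occur. -/
theorem Dbl.tf (H : Dbl i0 h e t F G Y) {k1 k2 k3 : ι} (hk1 : k1 ∈ F) (hk2 : k2 ∈ F)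
    (hk3 : k3 ∈ F) {y0 y1 y2 y3 : ι → ℝ} (hy0 : y0 ∈ Y) (hy1 : y1 ∈ Y)
    (hy2 : y2 ∈ Y) (hy3 : y3 ∈ Y)
    (a1 : y1 k1 = y0 k1) (a2 : y1 k2 = fl (y0 k2)) (a3 : y1 k3 = fl (y0 k3))
    (b1 : y2 k1 = fl (y0 k1)) (b2 : y2 k2 = y0 k2) (b3 : y2 k3 = fl (y0 k3))
    (c1 : y3 k1 = fl (y0 k1)) (c2 : y3 k2 = fl (y0 k2)) (c3 : y3 k3 = y0 k3) : False := by
  have n1 : k1 ≠ i0 := by rintro rfl; exact H.nF hk1
  have n2 : k2 ≠ i0 := by rintro rfl; exact H.nF hk2
  have n3 : k3 ≠ i0 := by rintro rfl; exact H.nF hk3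
  have key := H.ts 4 ![Function.update y0 i0 (e * h), Function.update y1 i0 (e * h),
    Function.update y2 i0 (e * h), Function.update y3 i0 (e * h)] ![k1, k2, k3, i0] (by
      intro c
      fin_cases c
      · exact mem_lift1 hy0
      · exact mem_lift1 hy1
      · exact mem_lift1 hy2
      · exact mem_lift1 hy3)
  have g1 := (H.val hy0 hk1).2.2.2.2.1
  have g2 := (H.val hy0 hk2).2.2.2.2.1
  have g3 := (H.val hy0 hk3).2.2.2.2.1
  set u1 := y0 k1
  set u2 := y0 k2
  set u3 := y0 k3
  set v1 := fl u1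
  set v2 := fl u2
  set v3 := fl u3
  have hdet : (Matrix.of fun i j => (![Function.update y0 i0 (e * h),
      Function.update y1 i0 (e * h), Function.update y2 i0 (e * h),
      Function.update y3 i0 (e * h)] : Fin 4 → ι → ℝ) j
      ((![k1, k2, k3, i0] : Fin 4 → ι) i)).det
      = 2 * (u1 - v1) * (u2 - v2) * (u3 - v3) * (e * h) ∨
      (Matrix.of fun i j => (![Function.update y0 i0 (e * h),
      Function.update y1 i0 (e * h), Function.update y2 i0 (e * h),
      Function.update y3 i0 (e * h)] : Fin 4 → ι → ℝ) j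
      ((![k1, k2, k3, i0] : Fin 4 → ι) i)).det
      = -(2 * (u1 - v1) * (u2 - v2) * (u3 - v3) * (e * h)) := by
    have hM : (Matrix.of fun i j => (![Function.update y0 i0 (e * h),
        Function.update y1 i0 (e * h), Function.update y2 i0 (e * h),
        Function.update y3 i0 (e * h)] : Fin 4 → ι → ℝ) j
        ((![k1, k2, k3, i0] : Fin 4 → ι) i))
        = !![u1, u1, v1, v1; u2, v2, u2, v2; u3, v3, v3, u3; e * h, e * h, e * h, e * h] := by
      ext i j
      fin_cases i <;> fin_cases j <;>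
        simp [Function.update_of_ne n1, Function.update_of_ne n2, Function.update_of_ne n3,
          a1, a2, a3, b1, b2, b3, c1, c2, c3, u1, u2, u3, v1, v2, v3]
    rw [hM]
    rw [Matrix.det_succ_row_zero]
    simp only [Fin.sum_univ_succ, Matrix.det_fin_three, Matrix.submatrix_apply, Matrix.of_apply,
      Fin.succAbove, Matrix.cons_val_zero, Matrix.cons_val_one, Matrix.cons_val_succ]
    left
    simp
    ring
  have hsz : |2 * (u1 - v1) * (u2 - v2) * (u3 - v3) * (e * h)| = 2 * h := by
    have heabs : |e| = 1 := by rcases H.he with h3 | h3 <;> rw [h3] <;> simp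
    rw [abs_mul, abs_mul, abs_mul, abs_mul, abs_mul, g1, g2, g3, heabs,
      abs_of_pos (show (0 : ℝ) < h by linarith [H.h1])]
    norm_num
  have hh := H.h1
  rcases hdet with h4 | h4
  · rw [h4, hsz] at key; linarith
  · rw [h4, abs_neg, hsz] at key; linarith

end Pool.Agent.MPba6
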