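import Pool.Agent.MPba6.Link

namespace Pool.Agent.MPba6

open Finset Matrix Classical

variable {ι : Type*}

theorem det_row0_comb {n : ℕ} (A A1 A2 : Matrix (Fin (n + 1)) (Fin (n + 1)) ℝ) (a b : ℝ)
    (h0 : ∀ j, A 0 j = a * A1 0 j + b * A2 0 j) (h1 : ∀ (i : Fin n) j, A i.succ j = A1 i.succ j)
    (h2 : ∀ (i : Fin n) j, A i.succ j = A2 i.succ j) : A.det = a * A1.det + b * A2.det := by
  rw [Matrix.det_succ_row_zero A, Matrix.det_succ_row_zero A1, Matrix.det_succ_row_zero A2,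
    Finset.mul_sum, Finset.mul_sum, ← Finset.sum_add_distrib]
  apply Finset.sum_congr rfl
  intro j _
  have e1 : A.submatrix Fin.succ j.succAbove = A1.submatrix Fin.succ j.succAbove := by
    ext i k; exact h1 i _
  have e2 : A.submatrix Fin.succ j.succAbove = A2.submatrix Fin.succ j.succAbove := by
    ext i k; exact h2 i _
  rw [← e1, ← e2, h0 j]
  ring

theorem TS.ldet_comb {D : Set (ι → ℝ)} (h : TS D) (r0 : ℕ) (R C : List ℕ)
    (hlen : C.length = R.length + 1)
    (co : ℕ → ι) (v : ℕ → ι → ℝ) (f1 f2 : ℕ → ℕ → ℤ) (κ : ℕ → ℝ) (a b : ℝ)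
    (hf0 : ∀ q ∈ C, v q (co r0) = a * (f1 r0 q : ℝ) + b * (f2 r0 q : ℝ))
    (hf : ∀ ρ ∈ R, ∀ q ∈ C, v q (co ρ) = κ ρ * (f1 ρ q : ℝ))
    (hf2 : ∀ ρ ∈ R, ∀ q ∈ C, f2 ρ q = f1 ρ q) (hC : ∀ q ∈ C, v q ∈ D) :
    |(R.map κ).prod| * |a * (ldet f1 (r0 :: R) C : ℝ) + b * (ldet f2 (r0 :: R) C : ℝ)| ≤ 1 := by
  have hR : ∀ i : Fin R.length, R.getD i 0 ∈ R := by
    intro i
    rw [List.getD_eq_getElem _ _ i.2]
    exact List.getElem_mem _
  have hC' : ∀ i : Fin (R.length + 1), C.getD i 0 ∈ C := by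
    intro i
    rw [List.getD_eq_getElem _ _ (by rw [hlen]; exact i.2)]
    exact List.getElem_mem _
  have h1 := h.det_le (fun j : Fin (R.length + 1) => v (C.getD j 0))
    (fun i : Fin (R.length + 1) => co ((r0 :: R).getD i 0)) (fun j => hC _ (hC' j))
  -- scale factors
  set s : Fin (R.length + 1) → ℝ := Fin.cons 1 (fun i : Fin R.length => κ (R.getD i 0)) with hs
  set A1 : Matrix (Fin (R.length + 1)) (Fin (R.length + 1)) ℝ := Matrix.of fun i j => s i *
    ((Matrix.of fun (i j : Fin (R.length + 1)) => f1 ((r0 :: R).getD i 0) (C.getD j 0)).map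
      (Int.cast : ℤ → ℝ)) i j with hA1
  set A2 : Matrix (Fin (R.length + 1)) (Fin (R.length + 1)) ℝ := Matrix.of fun i j => s i *
    ((Matrix.of fun (i j : Fin (R.length + 1)) => f2 ((r0 :: R).getD i 0) (C.getD j 0)).map
      (Int.cast : ℤ → ℝ)) i j with hA2
  have hdet := det_row0_comb (Matrix.of fun (i j : Fin (R.length + 1)) =>
    v (C.getD j 0) (co ((r0 :: R).getD i 0))) A1 A2 a b
    (by
      intro j
      simp only [hA1, hA2, Matrix.of_apply, Matrix.map_apply, hs, Fin.cons_zero, one_mul]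
      exact hf0 _ (hC' j))
    (by
      intro i j
      simp only [hA1, Matrix.of_apply, Matrix.map_apply, hs, Fin.cons_succ, Fin.val_succ,
        List.getD_cons_succ]
      exact hf _ (hR i) _ (hC' j))
    (by
      intro i j
      simp only [hA2, Matrix.of_apply, Matrix.map_apply, hs, Fin.cons_succ, Fin.val_succ,
        List.getD_cons_succ]
      rw [hf2 _ (hR i) _ (hC' j)]
      exact hf _ (hR i) _ (hC' j))
  have h4 : ∏ i : Fin (R.length + 1), s i = (R.map κ).prod := by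
    rw [Fin.prod_univ_succ, hs, Fin.cons_zero, one_mul]
    simp only [Fin.cons_succ]
    rw [← List.prod_ofFn]
    congr 1
    apply List.ext_getElem
    · simp
    · intro i h5 h6
      simp
  have h5 : A1.det = (R.map κ).prod * (ldet f1 (r0 :: R) C : ℝ) := by
    rw [hA1, Matrix.det_mul_column, h4, ldet_eq f1 (r0 :: R) C (by simpa using hlen)]
    congr 1
    exact (Int.cast_det _).symm
  have h6 : A2.det = (R.map κ).prod * (ldet f2 (r0 :: R) C : ℝ) := by
    rw [hA2, Matrix.det_mul_column, h4, ldet_eq f2 (r0 :: R) C (by simpa using hlen)]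
    congr 1
    exact (Int.cast_det _).symm
  rw [hdet, h5, h6] at h1
  have h7 : a * ((R.map κ).prod * (ldet f1 (r0 :: R) C : ℝ)) +
      b * ((R.map κ).prod * (ldet f2 (r0 :: R) C : ℝ))
      = (R.map κ).prod * (a * (ldet f1 (r0 :: R) C : ℝ) + b * (ldet f2 (r0 :: R) C : ℝ)) := by
    ring
  rw [h7, abs_mul] at h1
  exact h1

end Pool.Agent.MPba6
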