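import Pool.Agent.MPba6.DblCode
import Pool.Agent.MPba6.Link2
import Pool.Agent.MPba6.Cube5Data

namespace Pool.Agent.MPba6

open Finset Matrix Classical

variable {ι : Type*}

variable {i0 : ι} {h e : ℝ} {t : ι → ℝ} {F G : Finset ι} {Y : Finset (ι → ℝ)}

/-- scaled entries at the parameter value one third -/
def g1 (ρ n : ℕ) : ℤ :=
  bif Nat.beq ρ 5 then (bif Nat.beq (n % 2) 1 then -2 else 1)
  else (bif (AC5.getD (n / 2) 0).testBit ρ then -2 else 1)

/-- scaled entries at the parameter value one half -/
def g2 (ρ n : ℕ) : ℤ :=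
  bif Nat.beq ρ 4 then (bif (AC5.getD (n / 2) 0).testBit 4 then -1 else 1) else g1 ρ n

def cert5 (c : ℕ × List ℕ × List ℕ × List ℕ) : Bool :=
  let M := c.1 :: c.2.1
  let C := c.2.2.1
  match c.2.2.2 with
  | r :: R =>
    Nat.beq r 4 && (C.all fun n => M.contains (n / 2)) && Nat.beq C.length (R.length + 1) &&
      (R.all fun ρ => Nat.blt ρ 4 || Nat.beq ρ 5) &&
      ((decide ((3 : ℤ) ^ (R.length + 1) < ldet g1 (4 :: R) C) &&
        decide (2 * (3 : ℤ) ^ R.length < ldet g2 (4 :: R) C)) ||
       (decide ((3 : ℤ) ^ (R.length + 1) < -ldet g1 (4 :: R) C) &&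
        decide (2 * (3 : ℤ) ^ R.length < -ldet g2 (4 :: R) C)))
  | [] => false

theorem T5_eq : T5 = tbl FB5 18 := by decide +kernel
theorem cert_5 : FB5.all cert5 = true := by decide +kernel
theorem search_5 : search (fun _ => false) T5 18 1 0 11 = true := by decide +kernel

theorem cover_5 : ∀ q ∈ P9, ∃ p < 18, AC5.getD p 0 = q := by decide
theorem cover_5' : ∀ q ∈ P9, ∃ p < 18, AC5.getD p 0 = q + 16 := by decide

theorem bits_5 : ∀ q ∈ P9, q.testBit 4 = false ∧ (q + 16).testBit 4 = true ∧
    ∀ j < 4, (q + 16).testBit j = q.testBit j := by decide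

theorem abs_prod_map (R : List ℕ) (κ : ℕ → ℝ) (x : ℝ) (h7 : ∀ ρ ∈ R, |κ ρ| = x) :
    |(R.map κ).prod| = x ^ R.length := by
  induction R with
  | nil => simp
  | cons r' rs ih =>
    rw [List.map_cons, List.prod_cons, abs_mul, ih (fun ρ hρ => h7 ρ (by simp [hρ])),
      h7 r' (by simp), List.length_cons, pow_succ']

theorem Dbl.five (H : Dbl i0 h e t F ∅ Y) (hc : F.card = 5) : Y.card ≤ 10 := by
  by_contra hcon
  push Not at hcon
  -- a direction with a nine point projection
  have hex : ∃ j ∈ F, 9 ≤ (Y.image (del j)).card := by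
    by_contra hno
    push Not at hno
    have h1 := H.recur
    have h2 : ∑ k ∈ F, ((Y.image (del k)).card : ℝ) ≤ ∑ k ∈ F, (8 : ℝ) := by
      apply Finset.sum_le_sum
      intro k hk
      have h3 : (Y.image (del k)).card ≤ 8 := by have := hno k hk; omega
      exact_mod_cast h3
    rw [Finset.sum_const, nsmul_eq_mul, hc] at h2
    rw [hc] at h1
    have h3 : (11 : ℝ) ≤ Y.card := by exact_mod_cast hcon
    push_cast at h1 h2
    linarith
  obtain ⟨j, hj, h9⟩ := hex
  obtain ⟨hh, co, c, hcY, hF4, hinj, habs, hP⟩ := (H.delF hj).four_eq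
    (by rw [Finset.card_erase_of_mem hj, hc]) h9
  have hcoj : ∀ k < 4, co k ≠ j := by
    intro k hk h1
    have := (hF4 (co k)).2 ⟨k, hk, rfl⟩
    rw [h1] at this
    simp at this
  have hcoF : ∀ k < 4, co k ∈ F := fun k hk =>
    Finset.mem_of_mem_erase ((hF4 (co k)).2 ⟨k, hk, rfl⟩)
  have hji0 : j ≠ i0 := by rintro rfl; exact H.nF hj
  have hcoi0 : ∀ k < 4, co k ≠ i0 := fun k hk h1 => H.nF (h1 ▸ hcoF k hk)
  obtain ⟨yc, hyc, hycc⟩ := Finset.mem_image.1 hcY
  have hcj : c j = 0 := by rw [← hycc, del_same]
  have htj := H.tpos hj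
  have htb := H.tb j hj
  -- the base value of coordinate `j`
  obtain ⟨β, hβ, hβ2, hβfl, hβfl2⟩ : ∃ β : ℝ, (β = t j ∨ β = t j - 1) ∧ |β| ≤ 1 / 2 ∧
      (fl β = t j ∨ fl β = t j - 1) ∧ fl β ≠ β := by
    by_cases h1 : t j ≤ 1 / 2
    · refine ⟨t j, Or.inl rfl, by rw [abs_of_pos htj.1]; exact h1, Or.inr (fl_pos htj.1), ?_⟩
      rw [fl_pos htj.1]; intro h2; linarith
    · push Not at h1
      have h2 : t j - 1 < 0 := by linarith [htj.2]
      refine ⟨t j - 1, Or.inr rfl, by rw [abs_of_neg h2]; linarith, Or.inl ?_, ?_⟩
      · rw [fl_neg h2]; ring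
      · rw [fl_neg h2]; intro h2; linarith
  have hβ3 : 1 / 3 ≤ |β| := by
    rcases hβ with h1 | h1
    · rw [h1, abs_of_pos htj.1]; linarith
    · rw [h1, abs_of_neg (by linarith [htj.2])]; linarith
  -- sign of `β`
  obtain ⟨ε, hε, hβε, hflε⟩ : ∃ ε : ℝ, |ε| = 1 ∧ β = ε * |β| ∧ fl β = ε * (|β| - 1) := by
    rcases lt_trichotomy β 0 with h1 | h1 | h1
    · refine ⟨-1, by simp, ?_, ?_⟩
      · rw [abs_of_neg h1]; ring
      · rw [abs_of_neg h1, fl_neg h1]; ring
    · rw [h1] at hβ3; norm_num at hβ3
    · refine ⟨1, by simp, ?_, ?_⟩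
      · rw [abs_of_pos h1]; ring
      · rw [abs_of_pos h1, fl_pos h1]; ring
  -- base vector and coordinates
  set b : ι → ℝ := Function.update c j β with hb
  set co5 : ℕ → ι := fun n => if n < 4 then co n else j with hco5
  have hinj5 : ∀ n < 5, ∀ n' < 5, co5 n = co5 n' → n = n' := by
    intro n hn n' hn' h1
    by_cases a1 : n < 4 <;> by_cases a2 : n' < 4
    · simp only [hco5, a1, a2, if_true] at h1
      exact hinj n a1 n' a2 h1
    · simp only [hco5, a1, a2, if_true, if_false] at h1
      exact absurd h1 (hcoj n a1)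
    · simp only [hco5, a1, a2, if_true, if_false] at h1
      exact absurd h1.symm (hcoj n' a2)
    · omega
  set v : ℕ → ι → ℝ := fun p => Pt b co5 5 (AC5.getD p 0) with hv
  have hflc : ∀ k < 4, fl (c (co k)) = -2 * c (co k) := by
    intro k hk
    have h1 := habs k hk
    rcases lt_trichotomy (c (co k)) 0 with h2 | h2 | h2
    · rw [abs_of_neg h2] at h1
      rw [fl_neg h2]; linarith
    · rw [h2] at h1; norm_num at h1
    · rw [abs_of_pos h2] at h1
      rw [fl_pos h2]; linarith
  -- values of the atoms
  have hv4 : ∀ p, ∀ k < 4, v p (co k) = c (co k) *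
      ((bif (AC5.getD p 0).testBit k then (-2 : ℤ) else 1 : ℤ) : ℝ) := by
    intro p k hk
    have e1 : co5 k = co k := by simp [hco5, hk]
    have e2 := Pt_co b hinj5 (AC5.getD p 0) (show k < 5 by omega)
    have e3 : b (co k) = c (co k) := by rw [hb, Function.update_of_ne (hcoj k hk)]
    rw [e1, e3] at e2
    rw [hv]
    simp only
    rw [e2]
    cases (AC5.getD p 0).testBit k
    · simp
    · simp only [if_true, cond_true]
      rw [hflc k hk]; push_cast; ring
  have hvj : ∀ p, v p j = if (AC5.getD p 0).testBit 4 = true then fl β else β := by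
    intro p
    have e1 : co5 4 = j := by simp [hco5]
    have e2 := Pt_co b hinj5 (AC5.getD p 0) (show 4 < 5 by omega)
    have e3 : b j = β := by rw [hb, Function.update_self]
    rw [e1, e3] at e2
    exact e2
  -- every point of `Y` is an atom
  have hcov : ∀ y ∈ Y, ∃ p < 18, v p = y := by
    intro y hy
    obtain ⟨q, hq, hyq⟩ := hP (del j y) (Finset.mem_image_of_mem _ hy)
    obtain ⟨hb4, hb4', hbj⟩ := bits_5 q hq
    have key : ∀ q' : ℕ, (∀ k < 4, q'.testBit k = q.testBit k) →
        (if q'.testBit 4 = true then fl β else β) = y j → Pt b co5 5 q' = y := by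
      intro q' h1 h2
      ext i
      by_cases hi : ∃ n < 5, co5 n = i
      · obtain ⟨n, hn, rfl⟩ := hi
        by_cases hn4 : n < 4
        · have e1 : co5 n = co n := by simp [hco5, hn4]
          have e2 := Pt_co b hinj5 q' hn
          have e3 : b (co n) = c (co n) := by rw [hb, Function.update_of_ne (hcoj n hn4)]
          rw [e1, e3, h1 n hn4] at e2
          have e4 := congrFun hyq (co n)
          rw [del_of_ne (hcoj n hn4), Pt_co c hinj q hn4] at e4
          rw [e1, e2, e4]
        · have hn5 : n = 4 := by omega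
          subst hn5
          have e1 : co5 4 = j := by simp [hco5]
          have e2 := Pt_co b hinj5 q' hn
          have e3 : b j = β := by rw [hb, Function.update_self]
          rw [e1, e3] at e2
          rw [e1, e2, h2]
      · push Not at hi
        have hij : i ≠ j := fun h3 => hi 4 (by norm_num) (by simp [hco5, h3])
        have hiF : i ∉ F := by
          intro h3
          obtain ⟨k, hk, hki⟩ := (hF4 i).1 (Finset.mem_erase.2 ⟨hij, h3⟩)
          exact hi k (by omega) (by simp [hco5, hk, hki])
        rw [Pt_off b _ hi, hb, Function.update_of_ne hij, H.off y hy i hiF (by simp)]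
        exact (H.delF hj).off c hcY i (fun h3 => hiF (Finset.mem_of_mem_erase h3)) (by simp)
    have hyj : y j = β ∨ y j = fl β := by
      rcases H.frac y hy j hj with h1 | h1
      · rcases hβ with h2 | h2
        · left; rw [h1, h2]
        · rcases hβfl with h3 | h3
          · right; rw [h1, h3]
          · exact absurd (h3.trans h2.symm) hβfl2
      · rcases hβ with h2 | h2
        · rcases hβfl with h3 | h3
          · exact absurd (h3.trans h2.symm) hβfl2
          · right; rw [h1, h3]
        · left; rw [h1, h2]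
    rcases hyj with h1 | h1
    · obtain ⟨p, hp, hpq⟩ := cover_5 q hq
      refine ⟨p, hp, ?_⟩
      rw [hv]
      simp only
      rw [hpq]
      apply key q (fun k _ => rfl)
      rw [hb4, h1]; simp
    · obtain ⟨p, hp, hpq⟩ := cover_5' q hq
      refine ⟨p, hp, ?_⟩
      rw [hv]
      simp only
      rw [hpq]
      apply key (q + 16) hbj
      rw [hb4', h1]; simp
  -- soundness of the certificates
  have hforb : ∀ c' ∈ FB5, v c'.1 ∈ Y → (∀ i ∈ c'.2.1, v i ∈ Y) → False := by
    intro c' hc' hv1 hv2
    have h4 := List.all_eq_true.1 cert_5 c' hc'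
    unfold cert5 at h4
    simp only at h4
    split at h4
    · rename_i r R _
      simp only [Bool.and_eq_true, Bool.or_eq_true, decide_eq_true_eq] at h4
      obtain ⟨⟨⟨⟨_, hM⟩, hlen⟩, hR⟩, hdet⟩ := h4
      have hlen' : c'.2.2.1.length = R.length + 1 := Nat.eq_of_beq_eq_true hlen
      have hMY : ∀ n ∈ c'.2.2.1, v (n / 2) ∈ Y := by
        intro n hn
        have h5 := List.all_eq_true.1 hM n hn
        have h6 : n / 2 ∈ c'.1 :: c'.2.1 := by simpa using h5
        rw [List.mem_cons] at h6
        rcases h6 with h6 | h6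
        · rw [h6]; exact hv1
        · exact hv2 _ h6
      set vv : ℕ → ι → ℝ := fun n => Function.update (v (n / 2)) i0
        (if n % 2 = 1 then e * h else e * (h - 1)) with hvv
      set rr : ℕ → ι := fun ρ => if ρ = 5 then i0 else if ρ = 4 then j else co ρ with hrr
      set κ : ℕ → ℝ := fun ρ => if ρ = 5 then -(e / 3) else c (co ρ) with hκ
      have hRm : ∀ ρ ∈ R, ρ < 4 ∨ ρ = 5 := by
        intro ρ hρ
        have h5 := List.all_eq_true.1 hR ρ hρ
        rw [Bool.or_eq_true] at h5
        rcases h5 with h5 | h5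
        · left; simpa using h5
        · right; exact Nat.eq_of_beq_eq_true h5
      have h5 := H.ts.ldet_comb 4 R c'.2.2.1 hlen' rr vv g1 g2 κ (ε * (1 - 2 * |β|))
        (ε * (3 * |β| - 1))
        (by
          intro n hn
          have e1 : rr 4 = j := by simp [hrr]
          rw [e1, hvv]
          simp only
          rw [Function.update_of_ne hji0, hvj]
          have e2 : g1 4 n = if (AC5.getD (n / 2) 0).testBit 4 = true then -2 else 1 := by
            unfold g1
            have : Nat.beq 4 5 = false := rfl
            rw [this]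
            cases (AC5.getD (n / 2) 0).testBit 4 <;> rfl
          have e3 : g2 4 n = if (AC5.getD (n / 2) 0).testBit 4 = true then -1 else 1 := by
            unfold g2
            have : Nat.beq 4 4 = true := rfl
            rw [this]
            cases (AC5.getD (n / 2) 0).testBit 4 <;> rfl
          rw [e2, e3]
          cases (AC5.getD (n / 2) 0).testBit 4
          · simp only [Bool.false_eq_true, if_false]
            push_cast
            rw [show ε * (1 - 2 * |β|) * 1 + ε * (3 * |β| - 1) * 1 = ε * |β| by ring]
            exact hβε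
          · simp only [if_true]
            push_cast
            rw [hflε]; ring)
        (by
          intro ρ hρ n hn
          rcases hRm ρ hρ with h6 | h6
          · have e1 : rr ρ = co ρ := by
              have a1 : ρ ≠ 5 := by omega
              have a2 : ρ ≠ 4 := by omega
              simp [hrr, a1, a2]
            have e2 : κ ρ = c (co ρ) := by
              have a1 : ρ ≠ 5 := by omega
              simp [hκ, a1]
            have e3 : g1 ρ n = bif (AC5.getD (n / 2) 0).testBit ρ then -2 else 1 := by
              unfold g1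
              have : Nat.beq ρ 5 = false := by
                cases hb5 : Nat.beq ρ 5
                · rfl
                · exact absurd (Nat.eq_of_beq_eq_true hb5) (by omega)
              rw [this]; rfl
            rw [e1, e2, e3, hvv]
            simp only
            rw [Function.update_of_ne (hcoi0 ρ h6), hv4 _ ρ h6]
          · subst h6
            have e1 : rr 5 = i0 := by simp [hrr]
            have e2 : κ 5 = -(e / 3) := by simp [hκ]
            have e3 : g1 5 n = if n % 2 = 1 then -2 else 1 := by
              unfold g1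
              have : Nat.beq 5 5 = true := rfl
              rw [this, cond_true]
              rcases Nat.mod_two_eq_zero_or_one n with h7 | h7 <;> rw [h7] <;> rfl
            rw [e1, e2, e3, hvv]
            simp only
            rw [Function.update_self, hh]
            rcases Nat.mod_two_eq_zero_or_one n with h7 | h7 <;> rw [h7]
            · norm_num; ring
            · norm_num; ring)
        (by
          intro ρ hρ n hn
          have h6 : ρ ≠ 4 := by rcases hRm ρ hρ with h7 | h7 <;> omega
          unfold g2
          have : Nat.beq ρ 4 = false := by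
            cases hb5 : Nat.beq ρ 4
            · rfl
            · exact absurd (Nat.eq_of_beq_eq_true hb5) h6
          rw [this]; rfl)
        (by
          intro n hn
          rw [hvv]
          simp only
          split_ifs
          · exact mem_lift1 (hMY n hn)
          · exact mem_lift2 (hMY n hn))
      have h6 : |(R.map κ).prod| = (1 / 3) ^ R.length := by
        have h7 : ∀ ρ ∈ R, |κ ρ| = 1 / 3 := by
          intro ρ hρ
          rcases hRm ρ hρ with h8 | h8
          · have a1 : ρ ≠ 5 := by omega
            simp only [hκ, a1, if_false]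
            exact habs ρ h8
          · simp only [hκ, h8, if_true]
            rcases H.he with h9 | h9 <;> rw [h9] <;> norm_num [abs_of_pos, abs_of_neg]
        exact abs_prod_map R κ _ h7
      rw [h6] at h5
      have h3pos : (0 : ℝ) < 3 ^ R.length := by positivity
      have h7 : |ε * (1 - 2 * |β|) * (ldet g1 (4 :: R) c'.2.2.1 : ℝ) +
          ε * (3 * |β| - 1) * (ldet g2 (4 :: R) c'.2.2.1 : ℝ)| ≤ 3 ^ R.length := by
        rw [one_div, inv_pow, inv_mul_le_iff₀ h3pos, mul_one] at h5
        exact h5
      have h8 : ε * (1 - 2 * |β|) * (ldet g1 (4 :: R) c'.2.2.1 : ℝ) +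
          ε * (3 * |β| - 1) * (ldet g2 (4 :: R) c'.2.2.1 : ℝ)
          = ε * ((1 - 2 * |β|) * (ldet g1 (4 :: R) c'.2.2.1 : ℝ) +
          (3 * |β| - 1) * (ldet g2 (4 :: R) c'.2.2.1 : ℝ)) := by ring
      rw [h8, abs_mul, hε, one_mul, abs_le] at h7
      have ha : 0 ≤ 1 - 2 * |β| := by linarith
      have hb' : 0 ≤ 3 * |β| - 1 := by linarith
      rcases hdet with ⟨d1, d2⟩ | ⟨d1, d2⟩
      · have d1' : (3 : ℝ) ^ (R.length + 1) < (ldet g1 (4 :: R) c'.2.2.1 : ℝ) := by
          exact_mod_cast d1
        have d2' : 2 * (3 : ℝ) ^ R.length < (ldet g2 (4 :: R) c'.2.2.1 : ℝ) := by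
          exact_mod_cast d2
        rw [pow_succ] at d1'
        by_cases h9 : 0 < 3 * |β| - 1
        · nlinarith
        · have h10 : 3 * |β| - 1 = 0 := le_antisymm (not_lt.1 h9) hb'
          have h11 : |β| = 1 / 3 := by linarith
          rw [h11] at h7
          norm_num at h7
          linarith [h7.2]
      · have d1' : (3 : ℝ) ^ (R.length + 1) < -(ldet g1 (4 :: R) c'.2.2.1 : ℝ) := by
          exact_mod_cast d1
        have d2' : 2 * (3 : ℝ) ^ R.length < -(ldet g2 (4 :: R) c'.2.2.1 : ℝ) := by
          exact_mod_cast d2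
        rw [pow_succ] at d1'
        by_cases h9 : 0 < 3 * |β| - 1
        · nlinarith
        · have h10 : 3 * |β| - 1 = 0 := le_antisymm (not_lt.1 h9) hb'
          have h11 : |β| = 1 / 3 := by linarith
          rw [h11] at h7
          norm_num at h7
          linarith [h7.1]
    · exact absurd h4 (by simp)
  have h1 := search_sound' (fun _ => false) FB5 18 11 (fun p => decide (v p ∈ Y))
    T5 T5_eq (by
      intro c' hc' h2 h3
      exact hforb c' hc' (by simpa using h2) (fun i hi => by simpa using h3 i hi)) search_5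
  rcases h1 with h1 | ⟨_, _, h1⟩
  · have hsub : Y ⊆ ((Finset.range 18).filter (fun p => decide (v p ∈ Y) = true)).image v := by
      intro y hy
      obtain ⟨p, hp, hpy⟩ := hcov y hy
      rw [Finset.mem_image]
      exact ⟨p, Finset.mem_filter.2 ⟨Finset.mem_range.2 hp, by rw [hpy]; simpa using hy⟩, hpy⟩
    have h2 := (Finset.card_le_card hsub).trans Finset.card_image_le
    omega
  · exact absurd h1 (by simp)

end Pool.Agent.MPba6
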