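import Pool.Agent.MPba6.Main

namespace Pool.Agent.MPba6

open Finset Matrix Classical

/-- Transfer to matrices. -/
theorem matrix_bound (m n : ℕ) (t : Fin m → ℝ) (A : Fin m → Fin n → ℤ)
    (ht : ∀ i, 0 ≤ t i ∧ t i < 1) (ht0 : t ≠ 0)
    (hdist : ∀ j j', (∀ i, A i j = A i j') → j = j')
    (hTS : ∀ (k : ℕ) (r : Fin k → Fin m) (c : Fin k → Fin n), Function.Injective r →
      Function.Injective c → |(Matrix.of fun i j => t (r i) + (A (r i) (c j) : ℝ)).det| ≤ 1) :
    n ≤ m ^ 2 + m := by
  set col : Fin n → Fin m → ℝ := fun j i => t i + (A i j : ℝ) with hcol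
  have hinj : Function.Injective col := by
    intro j j' hjj
    apply hdist
    intro i
    have h1 := congrFun hjj i
    simp only [hcol] at h1
    have h2 : (A i j : ℝ) = (A i j' : ℝ) := by linarith
    exact_mod_cast h2
  set D : Finset (Fin m → ℝ) := Finset.univ.image col with hD
  have hcard : D.card = n := by
    rw [hD, Finset.card_image_of_injective _ hinj, Finset.card_univ, Fintype.card_fin]
  have hCfg : Cfg t (Finset.univ : Finset (Fin m)) D := by
    refine ⟨fun i _ => ht i, ?_, ?_, ?_⟩
    · intro x hx i _
      obtain ⟨j, _, rfl⟩ := Finset.mem_image.1 hx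
      exact ⟨A i j, rfl⟩
    · intro x _ i hi
      exact absurd (Finset.mem_univ i) hi
    · intro k c r hc
      have h1 : ∀ j, ∃ f, col f = c j := by
        intro j
        have := hc j
        rw [hD, Finset.mem_coe, Finset.mem_image] at this
        obtain ⟨f, _, hf⟩ := this
        exact ⟨f, hf⟩
      choose f hf using h1
      have h2 : (Matrix.of fun i j => c j (r i)) =
          (Matrix.of fun i j => t (r i) + (A (r i) (f j) : ℝ)) := by
        ext i j
        simp only [Matrix.of_apply, ← hf, hcol]
      rw [h2]
      by_cases hr : Function.Injective r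
      · by_cases hfi : Function.Injective f
        · exact hTS k r f hr hfi
        · unfold Function.Injective at hfi
          push Not at hfi
          obtain ⟨a, b, hab, hne⟩ := hfi
          rw [Matrix.det_zero_of_column_eq hne]
          · simp
          · intro i
            simp [hab]
      · unfold Function.Injective at hr
        push Not at hr
        obtain ⟨a, b, hab, hne⟩ := hr
        rw [Matrix.det_zero_of_row_eq hne]
        · simp
        · ext i
          simp [hab]
  have hex : ∃ i ∈ (Finset.univ : Finset (Fin m)), t i ≠ 0 := by
    by_contra hno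
    push Not at hno
    exact ht0 (funext fun i => hno i (Finset.mem_univ i))
  have h3 := main m t Finset.univ D hCfg (by simp) hex
  rw [hcard] at h3
  exact h3

end Pool.Agent.MPba6
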