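import Mathlib

namespace Pool.Agent.MPba6

def AV12 : List (List ℤ) :=
  [[1, -2, -2],
   [1, -2, 2],
   [1, 2, -2],
   [1, 2, 2],
   [1, -2, 0],
   [1, 0, -2],
   [1, 0, 2],
   [1, 2, 0],
   [1, 0, 0]]

def FB12 : List (ℕ × List ℕ × List ℕ) :=
  [(1, [0], [1, 2]),
   (2, [0], [1, 2]),
   (3, [1], [1, 2]),
   (3, [2], [1, 2]),
   (5, [3, 4], [0, 1, 2]),
   (6, [2, 4], [0, 1, 2]),
   (7, [0, 6], [0, 1, 2]),
   (7, [1, 5], [0, 1, 2])]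

def T12 : List (List ℕ) :=
  [[],
   [1],
   [1],
   [2, 4],
   [],
   [24],
   [20],
   [65, 34],
   []]

def AV13 : List (List ℤ) :=
  [[1, -2, -2, -2],
   [1, -2, -2, 2],
   [1, -2, 2, -2],
   [1, -2, 2, 2],
   [1, 2, -2, -2],
   [1, 2, -2, 2],
   [1, 2, 2, -2],
   [1, 2, 2, 2],
   [1, -2, -2, 0],
   [1, -2, 0, -2],
   [1, -2, 0, 2],
   [1, -2, 2, 0],
   [1, 0, -2, -2],
   [1, 0, -2, 2],
   [1, 0, 2, -2],
   [1, 0, 2, 2],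
   [1, 2, -2, 0],
   [1, 2, 0, -2],
   [1, 2, 0, 2],
   [1, 2, 2, 0],
   [1, -2, 0, 0],
   [1, 0, -2, 0],
   [1, 0, 0, -2],
   [1, 0, 0, 2],
   [1, 0, 2, 0],
   [1, 2, 0, 0],
   [1, 0, 0, 0]]

def FB13 : List (ℕ × List ℕ × List ℕ) :=
  [(1, [0], [1, 3]),
   (2, [0], [1, 2]),
   (2, [1], [1, 2]),
   (3, [0], [1, 2]),
   (3, [1], [1, 2]),
   (3, [2], [1, 3]),
   (4, [0], [1, 2]),
   (4, [1], [1, 2]),
   (4, [2], [1, 3]),
   (5, [0], [1, 2]),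
   (5, [1], [1, 2]),
   (5, [3], [1, 3]),
   (5, [4], [1, 3]),
   (6, [0], [1, 3]),
   (6, [2], [1, 2]),
   (6, [3], [1, 2]),
   (6, [4], [1, 2]),
   (6, [5], [1, 2]),
   (7, [1], [1, 3]),
   (7, [2], [1, 2]),
   (7, [3], [1, 2]),
   (7, [4], [1, 2]),
   (7, [5], [1, 2]),
   (7, [6], [1, 3]),
   (8, [2], [1, 2]),
   (8, [3], [1, 2]),
   (8, [4], [1, 2]),
   (8, [5], [1, 2]),
   (9, [1], [1, 3]),
   (9, [3], [1, 3]),
   (9, [4], [1, 3]),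
   (9, [6], [1, 3]),
   (9, [7, 8], [0, 2, 3]),
   (10, [0], [1, 3]),
   (10, [2], [1, 3]),
   (10, [5], [1, 3]),
   (10, [6, 8], [0, 2, 3]),
   (10, [7], [1, 3]),
   (10, [9], [1, 3]),
   (11, [0], [1, 2]),
   (11, [1], [1, 2]),
   (11, [4, 10], [0, 2, 3]),
   (11, [5, 9], [0, 2, 3]),
   (11, [6], [1, 2]),
   (11, [7], [1, 2]),
   (11, [8], [1, 2]),
   (12, [1], [2, 3]),
   (12, [2], [2, 3]),
   (12, [5], [2, 3]),
   (12, [6], [2, 3]),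
   (12, [7, 8], [0, 1, 3]),
   (12, [7, 9], [0, 1, 2]),
   (12, [8, 9], [1, 2, 3]),
   (12, [10, 11], [0, 2, 3]),
   (13, [0], [2, 3]),
   (13, [3], [2, 3]),
   (13, [4], [2, 3]),
   (13, [6, 8], [0, 1, 3]),
   (13, [6, 10], [0, 1, 2]),
   (13, [7], [2, 3]),
   (13, [8, 10], [1, 2, 3]),
   (13, [9, 11], [0, 2, 3]),
   (13, [12], [2, 3]),
   (14, [0], [2, 3]),
   (14, [3], [2, 3]),
   (14, [4], [2, 3]),
   (14, [5, 9], [0, 1, 2]),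
   (14, [5, 11], [0, 1, 3]),
   (14, [7], [2, 3]),
   (14, [8, 10], [0, 2, 3]),
   (14, [9, 11], [1, 2, 3]),
   (14, [12], [2, 3]),
   (15, [1], [2, 3]),
   (15, [2], [2, 3]),
   (15, [4, 10], [0, 1, 2]),
   (15, [4, 11], [0, 1, 3]),
   (15, [5], [2, 3]),
   (15, [6], [2, 3]),
   (15, [8, 9], [0, 2, 3]),
   (15, [10, 11], [1, 2, 3]),
   (15, [13], [2, 3]),
   (15, [14], [2, 3]),
   (16, [0], [1, 2]),
   (16, [1], [1, 2]),
   (16, [2, 13], [0, 1, 3]),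
   (16, [3, 12], [0, 1, 3]),
   (16, [6], [1, 2]),
   (16, [7], [1, 2]),
   (16, [8], [1, 2]),
   (16, [9, 13], [0, 1, 3]),
   (16, [9, 14], [0, 1, 2]),
   (16, [9, 15], [0, 1, 2]),
   (16, [10, 12], [0, 1, 3]),
   (16, [10, 14], [0, 1, 2]),
   (16, [10, 15], [0, 1, 2]),
   (17, [0], [1, 3]),
   (17, [1, 14], [0, 1, 2]),
   (17, [2], [1, 3]),
   (17, [3, 12], [0, 1, 2]),
   (17, [3, 16], [0, 2, 3]),
   (17, [5], [1, 3]),
   (17, [7], [1, 3]),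
   (17, [8, 13], [0, 1, 3]),
   (17, [8, 14], [0, 1, 2]),
   (17, [8, 15], [0, 1, 2]),
   (17, [9], [1, 3]),
   (17, [11, 12], [0, 1, 2]),
   (17, [11, 13], [0, 1, 2]),
   (17, [11, 15], [0, 1, 3]),
   (17, [12, 16], [1, 2, 3]),
   (17, [15, 16], [0, 2, 3]),
   (18, [0, 15], [0, 1, 2]),
   (18, [1], [1, 3]),
   (18, [2, 13], [0, 1, 2]),
   (18, [2, 16], [0, 2, 3]),
   (18, [3], [1, 3]),
   (18, [4], [1, 3]),
   (18, [6], [1, 3]),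
   (18, [8, 12], [0, 1, 3]),
   (18, [8, 14], [0, 1, 2]),
   (18, [8, 15], [0, 1, 2]),
   (18, [10], [1, 3]),
   (18, [11, 12], [0, 1, 2]),
   (18, [11, 13], [0, 1, 2]),
   (18, [11, 14], [0, 1, 3]),
   (18, [13, 16], [1, 2, 3]),
   (18, [14, 16], [0, 2, 3]),
   (18, [17], [1, 3]),
   (19, [0, 15], [0, 1, 3]),
   (19, [0, 18], [0, 2, 3]),
   (19, [1, 14], [0, 1, 3]),
   (19, [1, 17], [0, 2, 3]),
   (19, [2], [1, 2]),
   (19, [3], [1, 2]),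
   (19, [4], [1, 2]),
   (19, [5], [1, 2]),
   (19, [9, 12], [0, 1, 2]),
   (19, [9, 13], [0, 1, 2]),
   (19, [9, 15], [0, 1, 3]),
   (19, [10, 12], [0, 1, 2]),
   (19, [10, 13], [0, 1, 2]),
   (19, [10, 14], [0, 1, 3]),
   (19, [11], [1, 2]),
   (19, [12, 18], [0, 2, 3]),
   (19, [13, 17], [0, 2, 3]),
   (19, [14, 17], [1, 2, 3]),
   (19, [15, 18], [1, 2, 3]),
   (19, [16], [1, 2]),
   (20, [4, 15], [0, 1, 2]),
   (20, [5, 14], [0, 1, 2]),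
   (20, [6, 13], [0, 1, 2]),
   (20, [7, 12], [0, 1, 2]),
   (20, [12, 18], [0, 1, 3]),
   (20, [12, 19], [0, 1, 2]),
   (20, [13, 17], [0, 1, 3]),
   (20, [13, 19], [0, 1, 2]),
   (20, [14, 16], [0, 1, 2]),
   (20, [14, 18], [0, 1, 3]),
   (20, [15, 16], [0, 1, 2]),
   (20, [15, 17], [0, 1, 3]),
   (21, [2, 18], [0, 1, 2]),
   (21, [3, 17], [0, 1, 2]),
   (21, [6, 10], [0, 1, 2]),
   (21, [6, 20], [0, 1, 2]),
   (21, [7, 9], [0, 1, 2]),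
   (21, [7, 20], [0, 1, 2]),
   (21, [9, 15], [0, 2, 3]),
   (21, [9, 19], [0, 1, 2]),
   (21, [10, 14], [0, 2, 3]),
   (21, [10, 19], [0, 1, 2]),
   (21, [11, 17], [0, 1, 2]),
   (21, [11, 18], [0, 1, 2]),
   (21, [14, 18], [0, 2, 3]),
   (21, [15, 17], [0, 2, 3]),
   (21, [19, 20], [0, 1, 2]),
   (22, [1, 19], [0, 1, 3]),
   (22, [3, 16], [0, 1, 3]),
   (22, [3, 21], [0, 2, 3]),
   (22, [5, 11], [0, 1, 3]),
   (22, [5, 20], [0, 1, 3]),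
   (22, [7, 8], [0, 1, 3]),
   (22, [7, 20], [0, 1, 3]),
   (22, [7, 21], [0, 2, 3]),
   (22, [8, 15], [0, 2, 3]),
   (22, [8, 18], [0, 1, 3]),
   (22, [10, 16], [0, 1, 3]),
   (22, [10, 19], [0, 1, 3]),
   (22, [11, 13], [0, 2, 3]),
   (22, [11, 18], [0, 1, 3]),
   (22, [13, 19], [0, 2, 3]),
   (22, [15, 16], [0, 2, 3]),
   (22, [15, 21], [0, 2, 3]),
   (22, [18, 20], [0, 1, 3]),
   (23, [0, 19], [0, 1, 3]),
   (23, [2, 16], [0, 1, 3]),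
   (23, [2, 21], [0, 2, 3]),
   (23, [4, 11], [0, 1, 3]),
   (23, [4, 20], [0, 1, 3]),
   (23, [6, 8], [0, 1, 3]),
   (23, [6, 20], [0, 1, 3]),
   (23, [6, 21], [0, 2, 3]),
   (23, [8, 14], [0, 2, 3]),
   (23, [8, 17], [0, 1, 3]),
   (23, [9, 16], [0, 1, 3]),
   (23, [9, 19], [0, 1, 3]),
   (23, [11, 12], [0, 2, 3]),
   (23, [11, 17], [0, 1, 3]),
   (23, [12, 19], [0, 2, 3]),
   (23, [14, 16], [0, 2, 3]),
   (23, [14, 21], [0, 2, 3]),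
   (23, [17, 20], [0, 1, 3]),
   (24, [0, 18], [0, 1, 2]),
   (24, [0, 23], [0, 2, 3]),
   (24, [1, 17], [0, 1, 2]),
   (24, [1, 22], [0, 2, 3]),
   (24, [4, 10], [0, 1, 2]),
   (24, [4, 20], [0, 1, 2]),
   (24, [4, 23], [0, 2, 3]),
   (24, [5, 9], [0, 1, 2]),
   (24, [5, 20], [0, 1, 2]),
   (24, [5, 22], [0, 2, 3]),
   (24, [8, 17], [0, 1, 2]),
   (24, [8, 18], [0, 1, 2]),
   (24, [9, 13], [0, 2, 3]),
   (24, [9, 16], [0, 1, 2]),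
   (24, [10, 12], [0, 2, 3]),
   (24, [10, 16], [0, 1, 2]),
   (24, [12, 18], [0, 2, 3]),
   (24, [12, 23], [0, 2, 3]),
   (24, [13, 17], [0, 2, 3]),
   (24, [13, 22], [0, 2, 3]),
   (24, [16, 20], [0, 1, 2]),
   (25, [0, 15], [0, 1, 2]),
   (25, [0, 23], [0, 1, 3]),
   (25, [0, 24], [0, 1, 2]),
   (25, [1, 14], [0, 1, 2]),
   (25, [1, 22], [0, 1, 3]),
   (25, [1, 24], [0, 1, 2]),
   (25, [2, 13], [0, 1, 2]),
   (25, [2, 21], [0, 1, 2]),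
   (25, [2, 23], [0, 1, 3]),
   (25, [3, 12], [0, 1, 2]),
   (25, [3, 21], [0, 1, 2]),
   (25, [3, 22], [0, 1, 3]),
   (25, [8, 14], [0, 1, 2]),
   (25, [8, 15], [0, 1, 2]),
   (25, [8, 24], [0, 1, 2]),
   (25, [9, 13], [0, 1, 3]),
   (25, [9, 15], [0, 1, 3]),
   (25, [9, 23], [0, 1, 3]),
   (25, [10, 12], [0, 1, 3]),
   (25, [10, 14], [0, 1, 3]),
   (25, [10, 22], [0, 1, 3]),
   (25, [11, 12], [0, 1, 2]),
   (25, [11, 13], [0, 1, 2]),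
   (25, [11, 21], [0, 1, 2])]

def T13 : List (List ℕ) :=
  [[],
   [1],
   [1, 2],
   [1, 2, 4],
   [1, 2, 4],
   [1, 2, 8, 16],
   [1, 4, 8, 16, 32],
   [2, 4, 8, 16, 32, 64],
   [4, 8, 16, 32],
   [2, 8, 16, 64, 384],
   [1, 4, 32, 320, 128, 512],
   [1, 2, 1040, 544, 64, 128, 256],
   [2, 4, 32, 64, 384, 640, 768, 3072],
   [1, 8, 16, 320, 1088, 128, 1280, 2560, 4096],
   [1, 8, 16, 544, 2080, 128, 1280, 2560, 4096],
   [2, 4, 1040, 2064, 32, 64, 768, 3072, 8192, 16384],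
   [1, 2, 8196, 4104, 64, 128, 256, 8704, 16896, 33280, 5120, 17408, 33792],
   [1, 16386, 4, 4104, 65544, 32, 128, 8448, 16640, 33024, 512, 6144, 10240, 34816, 69632, 98304],
   [32769, 2, 8196, 65540, 8, 16, 64, 4352, 16640, 33024, 1024, 6144, 10240, 18432, 73728, 81920, 131072],
   [32769, 262145, 16386, 131074, 4, 8, 16, 32, 4608, 8704, 33280, 5120, 9216, 17408, 2048, 266240, 139264, 147456, 294912, 65536],
   [32784, 16416, 8256, 4224, 266240, 528384, 139264, 532480, 81920, 278528, 98304, 163840],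
   [262148, 131080, 1088, 1048640, 640, 1048704, 33280, 524800, 17408, 525312, 133120, 264192, 278528, 163840, 1572864],
   [524290, 65544, 2097160, 2080, 1048608, 384, 1048704, 2097280, 33024, 262400, 66560, 525312, 10240, 264192, 532480, 98304, 2129920, 1310720],
   [524289, 65540, 2097156, 2064, 1048592, 320, 1048640, 2097216, 16640, 131328, 66048, 524800, 6144, 133120, 528384, 81920, 2113536, 1179648],
   [262145, 8388609, 131074, 4194306, 1040, 1048592, 8388624, 544, 1048608, 4194336, 131328, 262400, 8704, 66048, 5120, 66560, 266240, 8392704, 139264, 4202496, 1114112],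
   [32769, 8388609, 16777217, 16386, 4194306, 16777218, 8196, 2097156, 8388612, 4104, 2097160, 4194312, 16640, 33024, 16777472, 8704, 33280, 8389120, 5120, 17408, 4195328, 6144, 10240, 2099200],
   []]

def AV22 : List (List ℤ) :=
  [[1, 1, -2, -2],
   [1, 1, -2, 2],
   [1, 1, 2, -2],
   [1, 1, 2, 2],
   [1, -1, -2, -2],
   [1, -1, -2, 2],
   [1, -1, 2, -2],
   [1, -1, 2, 2],
   [1, 1, -2, 0],
   [1, 1, 0, -2],
   [1, 1, 0, 2],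
   [1, 1, 2, 0],
   [1, -1, -2, 0],
   [1, -1, 0, -2],
   [1, -1, 0, 2],
   [1, -1, 2, 0],
   [1, 1, 0, 0],
   [1, -1, 0, 0]]

def FB22 : List (ℕ × List ℕ × List ℕ) :=
  [(1, [0], [2, 3]),
   (2, [0], [2, 3]),
   (3, [1], [2, 3]),
   (3, [2], [2, 3]),
   (4, [1], [2, 3]),
   (4, [2], [2, 3]),
   (5, [0], [2, 3]),
   (5, [3], [2, 3]),
   (5, [4], [2, 3]),
   (6, [0], [2, 3]),
   (6, [3], [2, 3]),
   (6, [4], [2, 3]),
   (7, [1], [2, 3]),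
   (7, [2], [2, 3]),
   (7, [5], [2, 3]),
   (7, [6], [2, 3]),
   (9, [3, 8], [0, 2, 3]),
   (9, [4, 8], [1, 2, 3]),
   (9, [7, 8], [0, 2, 3]),
   (10, [2, 8], [0, 2, 3]),
   (10, [4, 7, 9], [0, 1, 2, 3]),
   (10, [5, 6, 9], [0, 1, 2, 3]),
   (10, [5, 8], [1, 2, 3]),
   (10, [6, 8], [0, 2, 3]),
   (11, [0, 10], [0, 2, 3]),
   (11, [1, 9], [0, 2, 3]),
   (11, [4, 7, 8], [0, 1, 2, 3]),
   (11, [4, 10], [0, 2, 3]),
   (11, [5, 6, 8], [0, 1, 2, 3]),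
   (11, [5, 9], [0, 2, 3]),
   (11, [6, 9], [1, 2, 3]),
   (11, [7, 10], [1, 2, 3]),
   (12, [0, 10], [1, 2, 3]),
   (12, [1, 9], [1, 2, 3]),
   (12, [2, 10], [0, 2, 3]),
   (12, [3, 9], [0, 2, 3]),
   (12, [6, 9], [1, 2, 3]),
   (12, [6, 10], [0, 2, 3]),
   (12, [7, 9], [0, 2, 3]),
   (12, [7, 10], [1, 2, 3]),
   (13, [0, 11], [1, 2, 3]),
   (13, [0, 12], [1, 2, 3]),
   (13, [1, 11], [0, 2, 3]),
   (13, [2, 8], [1, 2, 3]),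
   (13, [3, 8], [0, 2, 3]),
   (13, [3, 12], [0, 2, 3]),
   (13, [5, 8], [1, 2, 3]),
   (13, [5, 11], [0, 2, 3]),
   (13, [7, 8], [0, 2, 3]),
   (13, [7, 11], [1, 2, 3]),
   (13, [7, 12], [0, 2, 3]),
   (14, [0, 3, 13], [0, 1, 2, 3]),
   (14, [0, 11], [0, 2, 3]),
   (14, [1, 2, 13], [0, 1, 2, 3]),
   (14, [1, 11], [1, 2, 3]),
   (14, [1, 12], [1, 2, 3]),
   (14, [2, 8], [0, 2, 3]),
   (14, [2, 12], [0, 2, 3]),
   (14, [3, 8], [1, 2, 3]),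
   (14, [4, 8], [1, 2, 3]),
   (14, [4, 11], [0, 2, 3]),
   (14, [6, 8], [0, 2, 3]),
   (14, [6, 11], [1, 2, 3]),
   (14, [6, 12], [0, 2, 3]),
   (14, [8, 11, 13], [0, 1, 2, 3]),
   (15, [0, 3, 12], [0, 1, 2, 3]),
   (15, [0, 10], [0, 2, 3]),
   (15, [0, 14], [0, 2, 3]),
   (15, [1, 2, 12], [0, 1, 2, 3]),
   (15, [1, 9], [0, 2, 3]),
   (15, [1, 13], [0, 2, 3]),
   (15, [2, 10], [1, 2, 3]),
   (15, [2, 13], [1, 2, 3]),
   (15, [3, 9], [1, 2, 3]),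
   (15, [3, 14], [1, 2, 3]),
   (15, [4, 9], [1, 2, 3]),
   (15, [4, 10], [0, 2, 3]),
   (15, [4, 14], [0, 2, 3]),
   (15, [5, 9], [0, 2, 3]),
   (15, [5, 10], [1, 2, 3]),
   (15, [5, 13], [0, 2, 3]),
   (15, [9, 10, 12], [0, 1, 2, 3])]

def T22 : List (List ℕ) :=
  [[],
   [1],
   [1],
   [2, 4],
   [2, 4],
   [1, 8, 16],
   [1, 8, 16],
   [2, 4, 32, 64],
   [],
   [264, 272, 384],
   [260, 656, 608, 288, 320],
   [1025, 514, 400, 1040, 352, 544, 576, 1152],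
   [1025, 514, 1028, 520, 576, 1088, 640, 1152],
   [2049, 4097, 2050, 260, 264, 4104, 288, 2080, 384, 2176, 4224],
   [8201, 2049, 8198, 2050, 4098, 260, 4100, 264, 272, 2064, 320, 2112, 4160, 10496],
   [4105, 1025, 16385, 4102, 514, 8194, 1028, 8196, 520, 16392, 528, 1040, 16400, 544, 1056, 8224, 5632],
   [],
   []]

def AV31 : List (List ℤ) :=
  [[1, 1, 1, -2],
   [1, 1, 1, 2],
   [1, 1, -1, -2],
   [1, 1, -1, 2],
   [1, -1, 1, -2],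
   [1, -1, 1, 2],
   [1, -1, -1, -2],
   [1, -1, -1, 2],
   [1, 1, 1, 0],
   [1, 1, -1, 0],
   [1, -1, 1, 0],
   [1, -1, -1, 0]]

def FB31 : List (ℕ × List ℕ × List ℕ) :=
  [(6, [0, 3, 5], [0, 1, 2, 3]),
   (7, [1, 2, 4], [0, 1, 2, 3]),
   (8, [2, 4, 7], [0, 1, 2, 3]),
   (8, [3, 5, 6], [0, 1, 2, 3]),
   (9, [0, 5, 6], [0, 1, 2, 3]),
   (9, [1, 4, 7], [0, 1, 2, 3]),
   (10, [0, 3, 6], [0, 1, 2, 3]),
   (10, [1, 2, 7], [0, 1, 2, 3]),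
   (11, [0, 3, 5], [0, 1, 2, 3]),
   (11, [1, 2, 4], [0, 1, 2, 3])]

def T31 : List (List ℕ) :=
  [[],
   [],
   [],
   [],
   [],
   [],
   [41],
   [22],
   [148, 104],
   [97, 146],
   [73, 134],
   [41, 22]]

def C31 : List ℕ := [259, 524, 1072, 2240]

end Pool.Agent.MPba6
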