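import Pool.Agent.MPba6.Link
import Pool.Agent.MPba6.HalfData

namespace Pool.Agent.MPba6

open Finset Matrix Classical

variable {ι : Type*}

theorem T12_eq : T12 = tbl FB12 9 := by decide +kernel
theorem T13_eq : T13 = tbl FB13 27 := by decide +kernel
theorem T22_eq : T22 = tbl FB22 18 := by decide +kernel
theorem T31_eq : T31 = tbl FB31 12 := by decide +kernel

theorem cert12 : FB12.all (certOK (ent AV12) 2 3 9) = true := by decide +kernel
theorem cert13 : FB13.all (certOK (ent AV13) 2 4 27) = true := by decide +kernel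
theorem cert22 : FB22.all (certOK (ent AV22) 2 4 18) = true := by decide +kernel
theorem cert31 : FB31.all (certOK (ent AV31) 2 4 12) = true := by decide +kernel

theorem search12 : search (fun _ => false) T12 9 1 0 6 = true := by decide +kernel
theorem search13 : search (fun _ => false) T13 27 1 0 9 = true := by decide +kernel
theorem search22 : search (fun _ => false) T22 18 1 0 9 = true := by decide +kernel
theorem search31 : search (fun _ => false) T31 12 1 0 10 = true := by decide +kernel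

/-- some class of the projection to the half coordinates is missing -/
def leaf31 (c : ℕ) : Bool := C31.any fun m => Nat.beq (Nat.land m c) 0

theorem search31' : search leaf31 T31 12 1 0 9 = true := by decide +kernel

theorem HI.halfZ {F G : Finset ι} {D : Finset (ι → ℝ)} (h : HI F G D) {x : ι → ℝ} (hx : x ∈ D)
    {i : ι} (hi : i ∈ F) : ∃ e ∈ ([1, -1] : List ℤ), x i = (e : ℝ) / 2 := by
  rcases h.half x hx i hi with h1 | h1
  · exact ⟨1, by simp, by rw [h1]; norm_num⟩
  · exact ⟨-1, by simp, by rw [h1]; norm_num⟩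

theorem HI.intZ {F G : Finset ι} {D : Finset (ι → ℝ)} (h : HI F G D) {x : ι → ℝ} (hx : x ∈ D)
    {i : ι} (hi : i ∈ G) : ∃ e ∈ ([-2, 0, 2] : List ℤ), x i = (e : ℝ) / 2 := by
  rcases h.int x hx i hi with h1 | h1 | h1
  · exact ⟨-2, by simp, by rw [h1]; norm_num⟩
  · exact ⟨0, by simp, by rw [h1]; norm_num⟩
  · exact ⟨2, by simp, by rw [h1]; norm_num⟩

theorem cov12 : ∀ e1 ∈ ([-2, 0, 2] : List ℤ), ∀ e2 ∈ ([-2, 0, 2] : List ℤ),
    [1, e1, e2] ∈ AV12 := by decide

theorem cov13 : ∀ e1 ∈ ([-2, 0, 2] : List ℤ), ∀ e2 ∈ ([-2, 0, 2] : List ℤ),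
    ∀ e3 ∈ ([-2, 0, 2] : List ℤ), [1, e1, e2, e3] ∈ AV13 := by decide

theorem cov22 : ∀ e1 ∈ ([1, -1] : List ℤ), ∀ e2 ∈ ([-2, 0, 2] : List ℤ),
    ∀ e3 ∈ ([-2, 0, 2] : List ℤ), [1, e1, e2, e3] ∈ AV22 := by decide

theorem cov31 : ∀ e1 ∈ ([1, -1] : List ℤ), ∀ e2 ∈ ([1, -1] : List ℤ),
    ∀ e3 ∈ ([-2, 0, 2] : List ℤ), [1, e1, e2, e3] ∈ AV31 := by decide

theorem card_12 {a b c : ι} (hab : a ≠ b) (hac : a ≠ c) (hbc : b ≠ c) {D : Finset (ι → ℝ)}
    (h : HI {a} {b, c} D) (hsym : ∀ x ∈ D, -x ∈ D) : D.card ≤ 10 := by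
  have h1 := half_engine (fun _ => false) h.ts (fun ρ => [a, b, c].getD ρ a) 3 (by
      intro ρ hρ ρ' hρ' h1
      interval_cases ρ <;> interval_cases ρ' <;> simp_all) (by
      intro x hx i hi
      apply h.off x hx i
      · have := hi 0 (by norm_num)
        simp only [List.getD_cons_zero, Finset.mem_singleton] at this ⊢
        exact fun h => this h.symm
      · have h1 := hi 1 (by norm_num)
        have h2 := hi 2 (by norm_num)
        simp only [List.getD_cons_zero, List.getD_cons_succ] at h1 h2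
        simp only [Finset.mem_insert, Finset.mem_singleton, not_or]
        exact ⟨fun h => h1 h.symm, fun h => h2 h.symm⟩) hsym (by
      intro x hx
      exact h.half x hx a (by simp)) AV12 9 rfl (by
      intro x hx h0
      obtain ⟨e1, he1, hx1⟩ := h.intZ hx (i := b) (by simp)
      obtain ⟨e2, he2, hx2⟩ := h.intZ hx (i := c) (by simp)
      refine ⟨[1, e1, e2], cov12 e1 he1 e2 he2, ?_⟩
      intro ρ hρ
      simp only [List.getD_cons_zero] at h0
      interval_cases ρ <;> simp [h0, hx1, hx2]) FB12 6 T12 T12_eq cert12 search12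
  rcases h1 with h1 | ⟨_, _, h1⟩
  · omega
  · exact absurd h1 (by simp)

theorem card_13 {a b c d : ι} (hab : a ≠ b) (hac : a ≠ c) (had : a ≠ d) (hbc : b ≠ c)
    (hbd : b ≠ d) (hcd : c ≠ d) {D : Finset (ι → ℝ)}
    (h : HI {a} {b, c, d} D) (hsym : ∀ x ∈ D, -x ∈ D) : D.card ≤ 16 := by
  have h1 := half_engine (fun _ => false) h.ts (fun ρ => [a, b, c, d].getD ρ a) 4 (by
      intro ρ hρ ρ' hρ' h1
      interval_cases ρ <;> interval_cases ρ' <;> simp_all) (by
      intro x hx i hi
      apply h.off x hx i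
      · have := hi 0 (by norm_num)
        simp only [List.getD_cons_zero, Finset.mem_singleton] at this ⊢
        exact fun h => this h.symm
      · have h1 := hi 1 (by norm_num)
        have h2 := hi 2 (by norm_num)
        have h3 := hi 3 (by norm_num)
        simp only [List.getD_cons_zero, List.getD_cons_succ] at h1 h2 h3
        simp only [Finset.mem_insert, Finset.mem_singleton, not_or]
        exact ⟨fun h => h1 h.symm, fun h => h2 h.symm, fun h => h3 h.symm⟩) hsym (by
      intro x hx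
      exact h.half x hx a (by simp)) AV13 27 rfl (by
      intro x hx h0
      obtain ⟨e1, he1, hx1⟩ := h.intZ hx (i := b) (by simp)
      obtain ⟨e2, he2, hx2⟩ := h.intZ hx (i := c) (by simp)
      obtain ⟨e3, he3, hx3⟩ := h.intZ hx (i := d) (by simp)
      refine ⟨[1, e1, e2, e3], cov13 e1 he1 e2 he2 e3 he3, ?_⟩
      intro ρ hρ
      simp only [List.getD_cons_zero] at h0
      interval_cases ρ <;> simp [h0, hx1, hx2, hx3]) FB13 9 T13 T13_eq cert13 search13
  rcases h1 with h1 | ⟨_, _, h1⟩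
  · omega
  · exact absurd h1 (by simp)

theorem card_22 {a b c d : ι} (hab : a ≠ b) (hac : a ≠ c) (had : a ≠ d) (hbc : b ≠ c)
    (hbd : b ≠ d) (hcd : c ≠ d) {D : Finset (ι → ℝ)}
    (h : HI {a, b} {c, d} D) (hsym : ∀ x ∈ D, -x ∈ D) : D.card ≤ 16 := by
  have h1 := half_engine (fun _ => false) h.ts (fun ρ => [a, b, c, d].getD ρ a) 4 (by
      intro ρ hρ ρ' hρ' h1
      interval_cases ρ <;> interval_cases ρ' <;> simp_all) (by
      intro x hx i hi
      have h0 := hi 0 (by norm_num)
      have h1 := hi 1 (by norm_num)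
      have h2 := hi 2 (by norm_num)
      have h3 := hi 3 (by norm_num)
      simp only [List.getD_cons_zero, List.getD_cons_succ] at h0 h1 h2 h3
      apply h.off x hx i
      · simp only [Finset.mem_insert, Finset.mem_singleton, not_or]
        exact ⟨fun h => h0 h.symm, fun h => h1 h.symm⟩
      · simp only [Finset.mem_insert, Finset.mem_singleton, not_or]
        exact ⟨fun h => h2 h.symm, fun h => h3 h.symm⟩) hsym (by
      intro x hx
      exact h.half x hx a (by simp)) AV22 18 rfl (by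
      intro x hx h0
      obtain ⟨e1, he1, hx1⟩ := h.halfZ hx (i := b) (by simp)
      obtain ⟨e2, he2, hx2⟩ := h.intZ hx (i := c) (by simp)
      obtain ⟨e3, he3, hx3⟩ := h.intZ hx (i := d) (by simp)
      refine ⟨[1, e1, e2, e3], cov22 e1 he1 e2 he2 e3 he3, ?_⟩
      intro ρ hρ
      simp only [List.getD_cons_zero] at h0
      interval_cases ρ <;> simp [h0, hx1, hx2, hx3]) FB22 9 T22 T22_eq cert22 search22
  rcases h1 with h1 | ⟨_, _, h1⟩
  · omega
  · exact absurd h1 (by simp)

theorem card_31_aux (leaf : ℕ → Bool) (need : ℕ)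
    (hs : search leaf T31 12 1 0 need = true) {a b c d : ι}
    (hab : a ≠ b) (hac : a ≠ c) (had : a ≠ d) (hbc : b ≠ c)
    (hbd : b ≠ d) (hcd : c ≠ d) {D : Finset (ι → ℝ)}
    (h : HI {a, b, c} {d} D) (hsym : ∀ x ∈ D, -x ∈ D) :
    D.card + 2 ≤ 2 * need ∨ ∃ e, (∀ i, e.testBit i =
      (decide (i < 12) && decide (vecOf (fun ρ => [a, b, c, d].getD ρ a) 4
        (fun ρ => ent AV31 ρ i) ∈ D))) ∧ leaf e = true := by
  apply half_engine leaf h.ts (fun ρ => [a, b, c, d].getD ρ a) 4 (by
      intro ρ hρ ρ' hρ' h1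
      interval_cases ρ <;> interval_cases ρ' <;> simp_all) (by
      intro x hx i hi
      have h0 := hi 0 (by norm_num)
      have h1 := hi 1 (by norm_num)
      have h2 := hi 2 (by norm_num)
      have h3 := hi 3 (by norm_num)
      simp only [List.getD_cons_zero, List.getD_cons_succ] at h0 h1 h2 h3
      apply h.off x hx i
      · simp only [Finset.mem_insert, Finset.mem_singleton, not_or]
        exact ⟨fun h => h0 h.symm, fun h => h1 h.symm, fun h => h2 h.symm⟩
      · simp only [Finset.mem_singleton]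
        exact fun h => h3 h.symm) hsym (by
      intro x hx
      exact h.half x hx a (by simp)) AV31 12 rfl (by
      intro x hx h0
      obtain ⟨e1, he1, hx1⟩ := h.halfZ hx (i := b) (by simp)
      obtain ⟨e2, he2, hx2⟩ := h.halfZ hx (i := c) (by simp)
      obtain ⟨e3, he3, hx3⟩ := h.intZ hx (i := d) (by simp)
      refine ⟨[1, e1, e2, e3], cov31 e1 he1 e2 he2 e3 he3, ?_⟩
      intro ρ hρ
      simp only [List.getD_cons_zero] at h0
      interval_cases ρ <;> simp [h0, hx1, hx2, hx3]) FB31 need T31 T31_eq cert31 hs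

theorem card_31 {a b c d : ι}
    (hab : a ≠ b) (hac : a ≠ c) (had : a ≠ d) (hbc : b ≠ c)
    (hbd : b ≠ d) (hcd : c ≠ d) {D : Finset (ι → ℝ)}
    (h : HI {a, b, c} {d} D) (hsym : ∀ x ∈ D, -x ∈ D) : D.card ≤ 18 := by
  have h1 := card_31_aux (fun _ => false) 10 search31 hab hac had hbc hbd hcd h hsym
  rcases h1 with h1 | ⟨_, _, h1⟩
  · omega
  · exact absurd h1 (by simp)

end Pool.Agent.MPba6
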