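import Pool.Agent.MPba6.HalfRec

namespace Pool.Agent.MPba6

open Finset Matrix Classical

variable {ι : Type*}

theorem HI.insert_zero {G : Finset ι} {Z : Finset (ι → ℝ)} (h : HI ∅ G Z) (a : ι) :
    HI ∅ G (insert 0 Z) where
  disj := h.disj
  half := by simp
  int := by
    intro x hx i hi
    rw [Finset.mem_insert] at hx
    rcases hx with rfl | hx
    · simp
    · exact h.int x hx i hi
  off := by
    intro x hx i hi hi'
    rw [Finset.mem_insert] at hx
    rcases hx with rfl | hx
    · simp
    · exact h.off x hx i hi hi'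
  ts := by
    have h1 := h.ts.insert_single a (a := 0) (by simp)
    rw [Pi.single_zero] at h1
    rw [Finset.coe_insert]
    exact h1

theorem HI.step1 {a : ι} {G : Finset ι} {D : Finset (ι → ℝ)} (h : HI {a} G D) (hs : Sym D)
    (m : ℕ) (hm : 5 ≤ m) (hG : G.card + 1 = m)
    (ih : ∀ i ∈ G, (D.image (del i)).card + 4 + m ≤ m ^ 2) : D.card + 4 ≤ m ^ 2 + m := by
  have haG : a ∉ G := by simpa using h.disj
  have heven := even_card hs a (fun x hx => h.half x hx a (by simp))
  by_contra hcon
  have hbig : m ^ 2 + m ≤ D.card + 2 := by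
    obtain ⟨k, hk⟩ := heven
    have h1 : m ^ 2 + m = m * (m + 1) := by ring
    obtain ⟨l, hl⟩ := Nat.even_mul_succ_self m
    omega
  have hZ := h.delF (i := a) (by simp)
  have he : ({a} : Finset ι).erase a = ∅ := by simp
  rw [he] at hZ
  set Z := D.image (del a) with hZdef
  set n := G.card with hn
  have hmR : (m : ℝ) = (n : ℝ) + 1 := by rw [← hG]; push_cast; ring
  have hbigR : (m : ℝ) ^ 2 + m ≤ D.card + 2 := by exact_mod_cast hbig
  have hm5 : (5 : ℝ) ≤ m := by exact_mod_cast hm
  have hT := h.t2'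
  rw [Finset.card_singleton, Finset.sum_singleton] at hT
  have h4 : ∑ i ∈ G, ((D.image (del i)).card : ℝ) ≤ ∑ i ∈ G, ((m : ℝ) ^ 2 - m - 4) :=
    Finset.sum_le_sum fun i hi => by
      have h5 : ((D.image (del i)).card : ℝ) + 4 + m ≤ (m : ℝ) ^ 2 := by exact_mod_cast ih i hi
      linarith
  rw [Finset.sum_const, nsmul_eq_mul, ← hn] at h4
  have hT' : (m : ℝ) * D.card ≤ Z.card + (n : ℝ) * ((m : ℝ) ^ 2 - m - 4) +
      ∑ σ ∈ D, ∑ i ∈ {a} ∪ G, wt {a} G D i σ := by
    have h6 : ((1 + n : ℕ) : ℝ) = (m : ℝ) := by rw [hmR]; push_cast; ring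
    rw [h6] at hT
    linarith
  have hsplit : ∀ σ, ∑ i ∈ {a} ∪ G, wt {a} G D i σ
      = wt {a} G D a σ + ∑ i ∈ G, wt {a} G D i σ := by
    intro σ
    rw [Finset.sum_union h.disj, Finset.sum_singleton]
  have hGF : ∀ i ∈ G, i ∉ ({a} : Finset ι) := by
    intro i hi h1
    rw [Finset.mem_singleton] at h1
    exact haG (h1 ▸ hi)
  -- the zero vector is not in the projection
  have h0 : (0 : ι → ℝ) ∉ Z := by
    intro h0
    obtain ⟨σ, hσ, hσ0⟩ := Finset.mem_image.1 h0
    have hσ' := hs σ hσ
    have hz : ∀ i ∈ G, σ i = 0 := by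
      intro i hi
      have hia : i ≠ a := fun h1 => haG (h1 ▸ hi)
      have := congrFun hσ0 i
      rw [del_of_ne hia] at this
      exact this
    have hW1 : ∀ τ : ι → ℝ, (∀ i ∈ G, τ i = 0) → ∑ i ∈ {a} ∪ G, wt {a} G D i τ ≤ 1 / 2 := by
      intro τ hτ
      rw [hsplit τ, Finset.sum_eq_zero (fun i hi => wt_zero (hGF i hi) (hτ i hi)), add_zero]
      exact wt_le_half (by simp) τ
    have hne : -σ ≠ σ := by
      intro h1
      have h2 := congrFun h1 a
      rw [Pi.neg_apply] at h2
      rcases h.half σ hσ a (by simp) with h3 | h3 <;> rw [h3] at h2 <;> norm_num at h2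
    have h7 : ∑ τ ∈ D, ∑ i ∈ {a} ∪ G, wt {a} G D i τ ≤ 2 * (D.card : ℝ) - 3 := by
      have hmem : -σ ∈ D.erase σ := Finset.mem_erase.2 ⟨hne, hσ'⟩
      rw [← Finset.add_sum_erase _ _ hσ, ← Finset.add_sum_erase _ _ hmem]
      have h8 := hW1 σ hz
      have h9 := hW1 (-σ) (fun i hi => by rw [Pi.neg_apply, hz i hi, neg_zero])
      have h10 : ∑ τ ∈ (D.erase σ).erase (-σ), ∑ i ∈ {a} ∪ G, wt {a} G D i τ
          ≤ ∑ τ ∈ (D.erase σ).erase (-σ), (2 : ℝ) :=
        Finset.sum_le_sum fun τ hτ => h.wsum τ (Finset.mem_of_mem_erase (Finset.mem_of_mem_erase hτ))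
      have h11 : (((D.erase σ).erase (-σ)).card : ℝ) = (D.card : ℝ) - 2 := by
        have h12 : ((D.erase σ).erase (-σ)).card + 2 = D.card := by
          have e1 := Finset.card_erase_add_one hmem
          have e2 := Finset.card_erase_add_one hσ
          omega
        have h13 : (((D.erase σ).erase (-σ)).card : ℝ) + 2 = (D.card : ℝ) := by exact_mod_cast h12
        linarith
      rw [Finset.sum_const, nsmul_eq_mul, h11] at h10
      linarith
    have hZc := heller n G Z hZ rfl
    have hZcR : (Z.card : ℝ) ≤ (n : ℝ) ^ 2 + n + 1 := by exact_mod_cast hZc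
    nlinarith
  have hZ0 := hZ.insert_zero a
  have hZ0c := heller n G _ hZ0 rfl
  rw [Finset.card_insert_of_notMem h0] at hZ0c
  have hZcR : (Z.card : ℝ) ≤ (n : ℝ) ^ 2 + n := by
    have : Z.card ≤ n ^ 2 + n := by omega
    exact_mod_cast this
  -- all weights are equal to two
  have hW : ∀ σ ∈ D, 2 ≤ ∑ i ∈ {a} ∪ G, wt {a} G D i σ := by
    intro σ hσ
    by_contra hlt
    push Not at hlt
    have h5 : ∑ σ ∈ D, ∑ i ∈ {a} ∪ G, wt {a} G D i σ < ∑ σ ∈ D, (2 : ℝ) :=
      Finset.sum_lt_sum h.wsum ⟨σ, hσ, hlt⟩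
    rw [Finset.sum_const, nsmul_eq_mul] at h5
    nlinarith
  have hZeq : n ^ 2 + n ≤ Z.card := by
    have h5 : ∑ σ ∈ D, ∑ i ∈ {a} ∪ G, wt {a} G D i σ ≤ ∑ σ ∈ D, (2 : ℝ) :=
      Finset.sum_le_sum h.wsum
    rw [Finset.sum_const, nsmul_eq_mul] at h5
    have h6 : (n : ℝ) ^ 2 + n ≤ Z.card := by nlinarith
    exact_mod_cast h6
  -- unit vectors
  have hGne : G.Nonempty := by rw [← Finset.card_pos]; omega
  have hU := heller n G _ (hZ.add_units hGne) rfl
  obtain ⟨j, hj⟩ := hGne
  have hjZ : (Pi.single j 1 : ι → ℝ) ∈ Z := by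
    by_contra hno
    have hsub : insert (Pi.single j 1 : ι → ℝ) (insert 0 Z) ⊆ Z ∪ insert 0 (units G) := by
      intro x hx
      rw [Finset.mem_insert, Finset.mem_insert] at hx
      rw [Finset.mem_union, Finset.mem_insert]
      rcases hx with rfl | rfl | hx
      · right; right; exact mem_units.2 ⟨j, hj, Or.inl rfl⟩
      · right; left; rfl
      · left; exact hx
    have h1 := Finset.card_le_card hsub
    rw [Finset.card_insert_of_notMem, Finset.card_insert_of_notMem h0] at h1
    · omega
    · rw [Finset.mem_insert, not_or]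
      refine ⟨?_, hno⟩
      intro h2
      have := congrFun h2 j
      simp at this
  obtain ⟨σ, hσ, hσj⟩ := Finset.mem_image.1 hjZ
  have h5 := hW σ hσ
  have hval : ∀ i, i ≠ a → σ i = (Pi.single j 1 : ι → ℝ) i := by
    intro i hi
    have := congrFun hσj i
    rwa [del_of_ne hi] at this
  have hja : j ≠ a := fun h1 => haG (h1 ▸ hj)
  rw [hsplit σ, ← Finset.add_sum_erase _ _ hj] at h5
  have h6 : ∑ i ∈ G.erase j, wt {a} G D i σ = 0 := by
    apply Finset.sum_eq_zero
    intro i hi
    have hi' := Finset.mem_of_mem_erase hi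
    have hia : i ≠ a := fun h1 => haG (h1 ▸ hi')
    apply wt_zero (hGF i hi')
    rw [hval i hia]
    simp [Finset.ne_of_mem_erase hi]
  have h7 : wt {a} G D j σ ≤ 1 / 2 := by
    have h8 : Function.update σ j 0 ∉ D := by
      intro h9
      apply h0
      rw [hZdef, Finset.mem_image]
      refine ⟨_, h9, ?_⟩
      ext i
      by_cases hia : i = a
      · subst hia; simp [del]
      · rw [del_of_ne hia]
        by_cases hij : i = j
        · subst hij; simp
        · rw [Function.update_of_ne hij, hval i hia]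
          simp [hij]
    unfold wt
    simp only [hGF j hj, if_false, hj, if_true, h8]
    split_ifs <;> norm_num
  have h8 : wt {a} G D a σ ≤ 1 / 2 := wt_le_half (by simp) σ
  linarith

/-- Bound for symmetric half-integral configurations with `m ≥ 5`. -/
theorem half_big (m : ℕ) (hm : 5 ≤ m) : ∀ (F G : Finset ι) (D : Finset (ι → ℝ)), HI F G D →
    Sym D → F.Nonempty → F.card + G.card = m → D.card + 4 ≤ m ^ 2 + m := by
  induction m, hm using Nat.le_induction with
  | base =>
    intro F G D h hs hF hc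
    have h0 := Finset.card_pos.2 hF
    have h1 : F.card = 1 ∨ F.card = 2 ∨ F.card = 3 ∨ F.card = 4 ∨ F.card = 5 := by omega
    rcases h1 with h1 | h1 | h1 | h1 | h1
    · obtain ⟨a, rfl⟩ := Finset.card_eq_one.1 h1
      apply h.step1 hs 5 le_rfl (by omega)
      intro i hi
      have h2 := (h.delG hi).base4 (hs.del i) hF (by rw [Finset.card_erase_of_mem hi]; omega)
      rcases h2 with h2 | h2
      · omega
      · have := h2.1; omega
    · have h2 := h.recur 16 16 (by
        intro i hi
        have h3 := (h.delF hi).base4 (hs.del i) (by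
          rw [← Finset.card_pos, Finset.card_erase_of_mem hi]; omega) (by
          rw [Finset.card_erase_of_mem hi]; omega)
        rcases h3 with h3 | h3
        · exact h3
        · rw [Finset.card_erase_of_mem hi] at h3; omega) (by
        intro i hi
        have h3 := (h.delG hi).base4 (hs.del i) hF (by
          rw [Finset.card_erase_of_mem hi]; omega)
        rcases h3 with h3 | h3
        · exact h3
        · omega)
      have h4 : G.card = 3 := by omega
      rw [h1, h4] at h2
      omega
    · have := h.case32 hs h1 (by omega)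
      omega
    · obtain ⟨g, rfl⟩ := Finset.card_eq_one.1 (show G.card = 1 by omega)
      have := h.case41 hs h1
      omega
    · have h4 : G.card = 0 := by omega
      have h2 := h.recur 16 16 (by
        intro i hi
        have h3 := (h.delF hi).base4 (hs.del i) (by
          rw [← Finset.card_pos, Finset.card_erase_of_mem hi]; omega) (by
          rw [Finset.card_erase_of_mem hi]; omega)
        rcases h3 with h3 | h3
        · exact h3
        · rw [Finset.card_erase_of_mem hi] at h3; omega) (by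
        intro i hi
        rw [Finset.card_eq_zero] at h4
        rw [h4] at hi
        simp at hi)
      rw [h1, h4] at h2
      omega
  | succ m hm ih =>
    intro F G D h hs hF hc
    have h0 := Finset.card_pos.2 hF
    by_cases h1 : F.card = 1
    · obtain ⟨a, rfl⟩ := Finset.card_eq_one.1 h1
      apply h.step1 hs (m + 1) (by omega) (by omega)
      intro i hi
      have h2 := ih _ _ _ (h.delG hi) (hs.del i) hF (by
        rw [Finset.card_erase_of_mem hi]; have := Finset.card_pos.2 ⟨i, hi⟩; omega)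
      nlinarith
    · obtain ⟨a0, ha0⟩ := hF
      have heven := even_card hs a0 (fun x hx => h.half x hx a0 ha0)
      have h2 := h.recur (m ^ 2 + m - 4) (m ^ 2 + m - 4) (by
        intro i hi
        have h3 := ih _ _ _ (h.delF hi) (hs.del i) (by
          rw [← Finset.card_pos, Finset.card_erase_of_mem hi]; omega) (by
          rw [Finset.card_erase_of_mem hi]; omega)
        omega) (by
        intro i hi
        have h3 := ih _ _ _ (h.delG hi) (hs.del i) ⟨a0, ha0⟩ (by
          rw [Finset.card_erase_of_mem hi]; have := Finset.card_pos.2 ⟨i, hi⟩; omega)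
        omega)
      have h3 : 4 ≤ m ^ 2 + m := by nlinarith
      obtain ⟨K, hK⟩ : ∃ K, m ^ 2 + m = K + 4 := ⟨m ^ 2 + m - 4, by omega⟩
      have hK' : m ^ 2 + m - 4 = K := by omega
      rw [hK', ← Nat.add_mul, hc] at h2
      -- (m+1) * |D| ≤ (m+1) * K + 2 |D|
      have h5 : (m - 1) * D.card ≤ (m + 1) * K := by
        obtain ⟨p, rfl⟩ : ∃ p, m = p + 1 := ⟨m - 1, by omega⟩
        simp only [Nat.add_sub_cancel]
        nlinarith
      have h6 : D.card < (m + 1) ^ 2 + (m + 1) - 2 := by
        by_contra hcon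
        push Not at hcon
        have h7 : (m - 1) * ((m + 1) ^ 2 + (m + 1) - 2) ≤ (m + 1) * K :=
          (Nat.mul_le_mul_left _ hcon).trans h5
        obtain ⟨p, rfl⟩ : ∃ p, m = p + 1 := ⟨m - 1, by omega⟩
        have h8 : (p + 1 + 1) ^ 2 + (p + 1 + 1) - 2 = p ^ 2 + 5 * p + 4 := by
          have : (p + 1 + 1) ^ 2 + (p + 1 + 1) = p ^ 2 + 5 * p + 4 + 2 := by ring
          omega
        rw [h8] at h7
        simp only [Nat.add_sub_cancel] at h7
        nlinarith
      obtain ⟨k, hk⟩ := heven
      obtain ⟨l, hl⟩ := Nat.even_mul_succ_self (m + 1)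
      have h9 : (m + 1) ^ 2 + (m + 1) = (m + 1) * (m + 1 + 1) := by ring
      omega

/-- Heller type bound for symmetric half-integral configurations. -/
theorem half_bound {F G : Finset ι} {D : Finset (ι → ℝ)} (h : HI F G D) (hs : Sym D)
    (hF : F.Nonempty) : D.card ≤ (F.card + G.card) ^ 2 + (F.card + G.card) + 1 := by
  have h0 := Finset.card_pos.2 hF
  have hbox := h.box
  by_cases h5 : 5 ≤ F.card + G.card
  · have := half_big (F.card + G.card) h5 F G D h hs hF rfl
    omega
  · by_cases h4 : F.card + G.card = 4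
    · have := h.base4 hs hF h4
      rw [h4]
      omega
    · have h1 : (F.card = 1 ∧ G.card = 0) ∨ (F.card = 1 ∧ G.card = 1) ∨ (F.card = 1 ∧ G.card = 2)
        ∨ (F.card = 2 ∧ G.card = 0) ∨ (F.card = 2 ∧ G.card = 1) ∨ (F.card = 3 ∧ G.card = 0) := by
        omega
      rcases h1 with h1 | h1 | h1 | h1 | h1 | h1
      · rw [h1.1, h1.2] at hbox ⊢; omega
      · rw [h1.1, h1.2] at hbox ⊢; omega
      · obtain ⟨a, rfl⟩ := Finset.card_eq_one.1 h1.1
        obtain ⟨b, c, hbc, rfl⟩ := Finset.card_eq_two.1 h1.2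
        have hdis := h.disj
        simp only [Finset.disjoint_singleton_left, Finset.mem_insert, Finset.mem_singleton,
          not_or] at hdis
        have := card_12 hdis.1 hdis.2 hbc h hs
        rw [h1.1, h1.2]
        omega
      · rw [h1.1, h1.2] at hbox ⊢; omega
      · rw [h1.1, h1.2] at hbox ⊢; omega
      · rw [h1.1, h1.2] at hbox ⊢; omega

end Pool.Agent.MPba6
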