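import Pool.Agent.MPba6.Half4

namespace Pool.Agent.MPba6

open Finset Matrix Classical

variable {ι : Type*}

/-- Symmetric sets of vectors. -/
def Sym (D : Finset (ι → ℝ)) : Prop := ∀ x ∈ D, -x ∈ D

theorem del_neg (i : ι) (x : ι → ℝ) : del i (-x) = -del i x := by
  ext j
  by_cases h : j = i
  · subst h; simp [del]
  · simp [del, h]

theorem del_comm (i j : ι) (x : ι → ℝ) : del i (del j x) = del j (del i x) := by
  ext k
  by_cases h : k = i <;> by_cases h' : k = j <;> simp [del, h, h', Function.update_apply]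

theorem Sym.del {D : Finset (ι → ℝ)} (h : Sym D) (i : ι) : Sym (D.image (del i)) := by
  intro x hx
  obtain ⟨y, hy, rfl⟩ := Finset.mem_image.1 hx
  rw [← del_neg]
  exact Finset.mem_image_of_mem _ (h y hy)

theorem even_card {D : Finset (ι → ℝ)} (h : Sym D) (a : ι)
    (ha : ∀ x ∈ D, x a = 1 / 2 ∨ x a = -(1 / 2)) : Even D.card := by
  have h1 : D.filter (fun x => ¬ x a = 1 / 2) = (D.filter (fun x => x a = 1 / 2)).image (fun x => -x) := by
    ext x
    simp only [Finset.mem_filter, Finset.mem_image]
    constructor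
    · rintro ⟨hx, hxa⟩
      refine ⟨-x, ⟨h x hx, ?_⟩, neg_neg x⟩
      rcases ha x hx with h2 | h2
      · exact absurd h2 hxa
      · rw [Pi.neg_apply, h2, neg_neg]
    · rintro ⟨y, ⟨hy, hya⟩, rfl⟩
      refine ⟨h y hy, ?_⟩
      rw [Pi.neg_apply, hya]
      norm_num
  have h2 : (D.filter (fun x => ¬ x a = 1 / 2)).card = (D.filter (fun x => x a = 1 / 2)).card := by
    rw [h1, Finset.card_image_of_injective _ neg_injective]
  have h3 := Finset.card_filter_add_card_filter_not (s := D) (fun x => x a = 1 / 2)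
  rw [h2] at h3
  exact ⟨_, h3.symm⟩

theorem card_le_mul_del (D : Finset (ι → ℝ)) (i : ι) (V : Finset ℝ) (hV : ∀ x ∈ D, x i ∈ V) :
    D.card ≤ V.card * (D.image (del i)).card := by
  apply Finset.card_le_mul_card_image
  intro z hz
  apply Finset.card_le_card_of_injOn (fun x => x i)
  · intro x hx
    rw [Finset.mem_coe, Finset.mem_filter] at hx
    exact hV x hx.1
  · intro x hx y hy hxy
    rw [Finset.mem_coe, Finset.mem_filter] at hx hy
    rw [← update_del i x, ← update_del i y, hx.2, hy.2]
    have : x i = y i := hxy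
    rw [this]

theorem card_le_two_del (D : Finset (ι → ℝ)) (i : ι) (u v : ℝ)
    (h : ∀ x ∈ D, x i = u ∨ x i = v) : D.card ≤ 2 * (D.image (del i)).card := by
  have h1 := card_le_mul_del D i {u, v} (by
    intro x hx
    rcases h x hx with h1 | h1 <;> simp [h1])
  have h2 : ({u, v} : Finset ℝ).card ≤ 2 := Finset.card_le_two
  exact h1.trans (Nat.mul_le_mul_right _ h2)

theorem HI.box {F G : Finset ι} {D : Finset (ι → ℝ)} (h : HI F G D) :
    D.card ≤ 2 ^ F.card * 3 ^ G.card := by
  induction hn : F.card + G.card generalizing F G D with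
  | zero =>
    have hF : F = ∅ := by rw [← Finset.card_eq_zero]; omega
    have hG : G = ∅ := by rw [← Finset.card_eq_zero]; omega
    subst hF; subst hG
    simpa using card_le_one_of_zero h
  | succ n ih =>
    by_cases hF : F.Nonempty
    · obtain ⟨i, hi⟩ := hF
      have h1 := ih (h.delF hi) (by rw [Finset.card_erase_of_mem hi]; have := Finset.card_pos.2 ⟨i, hi⟩; omega)
      have h2 := card_le_two_del D i (1 / 2) (-(1 / 2)) (fun x hx => h.half x hx i hi)
      have h3 : F.card = (F.erase i).card + 1 := (Finset.card_erase_add_one hi).symm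
      rw [h3, pow_succ]
      calc D.card ≤ 2 * (D.image (MPba6.del i)).card := h2
        _ ≤ 2 * (2 ^ (F.erase i).card * 3 ^ G.card) := Nat.mul_le_mul_left _ h1
        _ = _ := by ring
    · rw [Finset.not_nonempty_iff_eq_empty] at hF
      subst hF
      have hG : G.Nonempty := by rw [← Finset.card_pos]; simp at hn; omega
      obtain ⟨i, hi⟩ := hG
      have h1 := ih (h.delG hi) (by rw [Finset.card_erase_of_mem hi]; have := Finset.card_pos.2 ⟨i, hi⟩; omega)
      have h2 := card_le_mul_del D i {-1, 0, 1} (by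
        intro x hx
        rcases h.int x hx i hi with h1 | h1 | h1 <;> simp [h1])
      have h4 : ({-1, 0, 1} : Finset ℝ).card ≤ 3 := Finset.card_le_three
      have h3 : G.card = (G.erase i).card + 1 := (Finset.card_erase_add_one hi).symm
      rw [h3, pow_succ]
      calc D.card ≤ ({-1, 0, 1} : Finset ℝ).card * (D.image (MPba6.del i)).card := h2
        _ ≤ 3 * (2 ^ (∅ : Finset ι).card * 3 ^ (G.erase i).card) := Nat.mul_le_mul h4 h1
        _ = _ := by ring

/-- The projection property of the extremal `(3,1)` configurations. -/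
theorem card_31_proj {a b c d : ι}
    (hab : a ≠ b) (hac : a ≠ c) (had : a ≠ d) (hbc : b ≠ c)
    (hbd : b ≠ d) (hcd : c ≠ d) {D : Finset (ι → ℝ)}
    (h : HI {a, b, c} {d} D) (hsym : ∀ x ∈ D, -x ∈ D) (hcard : 17 ≤ D.card) :
    (D.image (del d)).card ≤ 6 := by
  have h1 := card_31_aux leaf31 9 search31' hab hac had hbc hbd hcd h hsym
  rcases h1 with h1 | ⟨e, h1, h2⟩
  · omega
  -- a class of sign patterns is missing
  have key : ∃ s2 s3 : ℤ, (s2 = 1 ∨ s2 = -1) ∧ (s3 = 1 ∨ s3 = -1) ∧
      ∀ e3 ∈ ([-2, 0, 2] : List ℤ), vecOf (fun ρ => [a, b, c, d].getD ρ a) 4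
        (fun ρ => [1, s2, s3, e3].getD ρ 0) ∉ D := by
    unfold leaf31 C31 at h2
    simp only [List.any_cons, List.any_nil, Bool.or_false, Bool.or_eq_true] at h2
    have hbit : ∀ m : ℕ, Nat.beq (Nat.land m e) 0 = true → ∀ i, m.testBit i = true → i < 12 →
        vecOf (fun ρ => [a, b, c, d].getD ρ a) 4 (fun ρ => ent AV31 ρ i) ∉ D := by
      intro m hm i hi hi12 hD
      have h3 : m &&& e = 0 := Nat.eq_of_beq_eq_true hm
      have h4 : (m &&& e).testBit i = false := by rw [h3]; simp
      rw [Nat.testBit_and, hi, h1 i] at h4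
      simp only [hi12, hD, decide_true, Bool.and_self] at h4
      exact absurd h4 (by simp)
    have hfin : ∀ (m : ℕ) (s2 s3 : ℤ), Nat.beq (Nat.land m e) 0 = true →
        (∀ e3 ∈ ([-2, 0, 2] : List ℤ), ∃ i < 12, m.testBit i = true ∧
          AV31.getD i [] = [1, s2, s3, e3]) →
        ∀ e3 ∈ ([-2, 0, 2] : List ℤ), vecOf (fun ρ => [a, b, c, d].getD ρ a) 4
          (fun ρ => [1, s2, s3, e3].getD ρ 0) ∉ D := by
      intro m s2 s3 hm hAV e3 he3
      obtain ⟨i, hi, him, hiA⟩ := hAV e3 he3
      have := hbit m hm i him hi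
      unfold ent at this
      rw [hiA] at this
      exact this
    rcases h2 with h2 | h2 | h2 | h2
    · exact ⟨1, 1, Or.inl rfl, Or.inl rfl, hfin _ 1 1 h2 (by decide)⟩
    · exact ⟨1, -1, Or.inl rfl, Or.inr rfl, hfin _ 1 (-1) h2 (by decide)⟩
    · exact ⟨-1, 1, Or.inr rfl, Or.inl rfl, hfin _ (-1) 1 h2 (by decide)⟩
    · exact ⟨-1, -1, Or.inr rfl, Or.inr rfl, hfin _ (-1) (-1) h2 (by decide)⟩
  obtain ⟨s2, s3, hs2, hs3, hno⟩ := key
  have hno' : ∀ x ∈ D, ¬ (x a = 1 / 2 ∧ x b = (s2 : ℝ) / 2 ∧ x c = (s3 : ℝ) / 2) := by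
    rintro x hx ⟨hxa, hxb, hxc⟩
    obtain ⟨e3, he3, hxd⟩ := h.intZ hx (i := d) (by simp)
    apply hno e3 he3
    have : vecOf (fun ρ => [a, b, c, d].getD ρ a) 4 (fun ρ => [1, s2, s3, e3].getD ρ 0) = x := by
      ext i
      have hinj : ∀ ρ < 4, ∀ ρ' < 4, (fun ρ => [a, b, c, d].getD ρ a) ρ
          = (fun ρ => [a, b, c, d].getD ρ a) ρ' → ρ = ρ' := by
        intro ρ hρ ρ' hρ' h1
        interval_cases ρ <;> interval_cases ρ' <;> simp_all
      by_cases hi : ∃ ρ < 4, (fun ρ => [a, b, c, d].getD ρ a) ρ = i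
      · obtain ⟨ρ, hρ, rfl⟩ := hi
        rw [vecOf_co (fun ρ => [a, b, c, d].getD ρ a) 4 _ hinj ρ hρ]
        interval_cases ρ <;> simp [hxa, hxb, hxc, hxd]
      · push Not at hi
        rw [vecOf_off _ 4 _ i hi]
        have h0 := hi 0 (by norm_num)
        have h1 := hi 1 (by norm_num)
        have h2 := hi 2 (by norm_num)
        have h3 := hi 3 (by norm_num)
        simp only [List.getD_cons_zero, List.getD_cons_succ] at h0 h1 h2 h3
        symm
        apply h.off x hx i
        · simp only [Finset.mem_insert, Finset.mem_singleton, not_or]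
          exact ⟨fun h => h0 h.symm, fun h => h1 h.symm, fun h => h2 h.symm⟩
        · simp only [Finset.mem_singleton]
          exact fun h => h3 h.symm
    rw [this]; exact hx
  -- count the remaining patterns
  have hinj : Set.InjOn (fun x : ι → ℝ => (decide (x a = 1 / 2), decide (x b = 1 / 2),
      decide (x c = 1 / 2))) ((D.image (del d) : Finset (ι → ℝ)) : Set (ι → ℝ)) := by
    intro x hx y hy hxy
    simp only [Prod.mk.injEq, decide_eq_decide] at hxy
    have hd := h.delG (i := d) (by simp)
    have hval : ∀ i ∈ ({a, b, c} : Finset ι), (x i = 1 / 2 ↔ y i = 1 / 2) → x i = y i := by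
      intro i hi hiff
      rcases hd.half x hx i hi with h3 | h3
      · rw [h3, hiff.1 h3]
      · rcases hd.half y hy i hi with h4 | h4
        · rw [hiff.2 h4, h4]
        · rw [h3, h4]
    ext i
    by_cases hi : i ∈ ({a, b, c} : Finset ι)
    · simp only [Finset.mem_insert, Finset.mem_singleton] at hi
      rcases hi with rfl | rfl | rfl
      · exact hval _ (by simp) hxy.1
      · exact hval _ (by simp) hxy.2.1
      · exact hval _ (by simp) hxy.2.2
    · rw [hd.off x hx i hi (by simp), hd.off y hy i hi (by simp)]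
  rw [← Finset.card_image_of_injOn hinj]
  have hsub : (D.image (del d)).image (fun x : ι → ℝ => (decide (x a = 1 / 2),
      decide (x b = 1 / 2), decide (x c = 1 / 2))) ⊆
      (Finset.univ : Finset (Bool × Bool × Bool)).filter (fun p =>
        p ≠ (true, decide (s2 = 1), decide (s3 = 1)) ∧
        p ≠ (false, decide (s2 ≠ 1), decide (s3 ≠ 1))) := by
    intro p hp
    obtain ⟨y, hy, rfl⟩ := Finset.mem_image.1 hp
    obtain ⟨x, hx, rfl⟩ := Finset.mem_image.1 hy
    rw [Finset.mem_filter]
    refine ⟨Finset.mem_univ _, ?_, ?_⟩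
    · intro heq
      simp only [del_of_ne had, del_of_ne hbd, del_of_ne hcd, Prod.mk.injEq,
        decide_eq_true_eq, decide_eq_decide] at heq
      apply hno' x hx
      refine ⟨heq.1, ?_, ?_⟩
      · rcases hs2 with h3 | h3
        · rw [heq.2.1.2 h3, h3]; norm_num
        · rcases h.half x hx b (by simp) with h4 | h4
          · have := heq.2.1.1 h4; omega
          · rw [h4, h3]; norm_num
      · rcases hs3 with h3 | h3
        · rw [heq.2.2.2 h3, h3]; norm_num
        · rcases h.half x hx c (by simp) with h4 | h4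
          · have := heq.2.2.1 h4; omega
          · rw [h4, h3]; norm_num
    · intro heq
      simp only [del_of_ne had, del_of_ne hbd, del_of_ne hcd, Prod.mk.injEq,
        decide_eq_false_iff_not, decide_eq_decide] at heq
      apply hno' (-x) (hsym x hx)
      simp only [Pi.neg_apply]
      refine ⟨?_, ?_, ?_⟩
      · rcases h.half x hx a (by simp) with h4 | h4
        · exact absurd h4 heq.1
        · rw [h4]; norm_num
      · rcases hs2 with h3 | h3
        · rcases h.half x hx b (by simp) with h4 | h4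
          · have := heq.2.1.1 h4; omega
          · rw [h4, h3]; norm_num
        · have : x b = 1 / 2 := heq.2.1.2 (by omega)
          rw [this, h3]; norm_num
      · rcases hs3 with h3 | h3
        · rcases h.half x hx c (by simp) with h4 | h4
          · have := heq.2.2.1 h4; omega
          · rw [h4, h3]; norm_num
        · have : x c = 1 / 2 := heq.2.2.2 (by omega)
          rw [this, h3]; norm_num
  refine (Finset.card_le_card hsub).trans ?_
  have : ∀ u v : Bool, ((Finset.univ : Finset (Bool × Bool × Bool)).filter (fun p =>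
        p ≠ (true, u, v) ∧ p ≠ (false, !u, !v))).card ≤ 6 := by decide
  have h5 := this (decide (s2 = 1)) (decide (s3 = 1))
  simpa using h5

end Pool.Agent.MPba6
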