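import Pool.Agent.MPba6.HalfMain

namespace Pool.Agent.MPba6

open Finset Matrix Classical

variable {ι : Type*}

theorem HI.base4 {F G : Finset ι} {D : Finset (ι → ℝ)} (h : HI F G D) (hs : Sym D)
    (hF : F.Nonempty) (hc : F.card + G.card = 4) :
    D.card ≤ 16 ∨ (F.card = 3 ∧ G.card = 1 ∧ D.card ≤ 18) := by
  have h0 := Finset.card_pos.2 hF
  have h1 : F.card = 1 ∨ F.card = 2 ∨ F.card = 3 ∨ F.card = 4 := by omega
  rcases h1 with h1 | h1 | h1 | h1
  · left
    obtain ⟨a, rfl⟩ := Finset.card_eq_one.1 h1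
    obtain ⟨b, c, d, hbc, hbd, hcd, rfl⟩ := Finset.card_eq_three.1 (show G.card = 3 by omega)
    have hdis := h.disj
    simp only [Finset.disjoint_singleton_left, Finset.mem_insert, Finset.mem_singleton,
      not_or] at hdis
    exact card_13 hdis.1 hdis.2.1 hdis.2.2 hbc hbd hcd h hs
  · left
    obtain ⟨a, b, hab, rfl⟩ := Finset.card_eq_two.1 h1
    obtain ⟨c, d, hcd, rfl⟩ := Finset.card_eq_two.1 (show G.card = 2 by omega)
    have hdis := h.disj
    simp only [Finset.disjoint_insert_left, Finset.disjoint_singleton_left, Finset.mem_insert,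
      Finset.mem_singleton, not_or] at hdis
    exact card_22 hab hdis.1.1 hdis.1.2 hdis.2.1 hdis.2.2 hcd h hs
  · right
    obtain ⟨a, b, c, hab, hac, hbc, rfl⟩ := Finset.card_eq_three.1 h1
    obtain ⟨d, rfl⟩ := Finset.card_eq_one.1 (show G.card = 1 by omega)
    have hdis := h.disj
    simp only [Finset.disjoint_insert_left, Finset.disjoint_singleton_left,
      Finset.mem_singleton] at hdis
    exact ⟨h1, rfl, card_31 hab hac hdis.1 hbc hdis.2.1 hdis.2.2 h hs⟩
  · left
    have h2 := h.box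
    have h3 : G.card = 0 := by omega
    rw [h1, h3] at h2
    omega

theorem HI.proj31 {F G : Finset ι} {D : Finset (ι → ℝ)} (h : HI F G D) (hs : Sym D)
    (hF : F.card = 3) {g : ι} (hG : G = {g}) (hD : 17 ≤ D.card) :
    (D.image (del g)).card ≤ 6 := by
  subst hG
  obtain ⟨a, b, c, hab, hac, hbc, rfl⟩ := Finset.card_eq_three.1 hF
  have hdis := h.disj
  simp only [Finset.disjoint_insert_left, Finset.disjoint_singleton_left,
    Finset.mem_singleton] at hdis
  exact card_31_proj hab hac hdis.1 hbc hdis.2.1 hdis.2.2 h hs hD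

/-- The double counting inequality in summed form. -/
theorem HI.t2' {F G : Finset ι} {D : Finset (ι → ℝ)} (h : HI F G D) :
    ((F.card + G.card : ℕ) : ℝ) * (D.card : ℝ)
      ≤ ∑ i ∈ F, ((D.image (del i)).card : ℝ) + ∑ i ∈ G, ((D.image (del i)).card : ℝ)
        + ∑ σ ∈ D, ∑ i ∈ F ∪ G, wt F G D i σ := by
  have h1 := h.t2
  rw [Finset.sum_union h.disj, Finset.sum_sub_distrib, Finset.sum_sub_distrib,
    Finset.sum_const, Finset.sum_const, nsmul_eq_mul, nsmul_eq_mul] at h1
  push_cast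
  linarith

theorem HI.wsum {F G : Finset ι} {D : Finset (ι → ℝ)} (h : HI F G D) :
    ∀ σ ∈ D, ∑ i ∈ F ∪ G, wt F G D i σ ≤ 2 := fun σ hσ =>
  h.wt_sum_le σ (h.half σ hσ) (h.int σ hσ) _

/-- Basic recursion, in natural numbers. -/
theorem HI.recur {F G : Finset ι} {D : Finset (ι → ℝ)} (h : HI F G D) (A B : ℕ)
    (hA : ∀ i ∈ F, (D.image (del i)).card ≤ A) (hB : ∀ i ∈ G, (D.image (del i)).card ≤ B) :
    (F.card + G.card) * D.card ≤ F.card * A + G.card * B + 2 * D.card := by
  have h1 := h.t2'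
  have h2 : ∑ σ ∈ D, ∑ i ∈ F ∪ G, wt F G D i σ ≤ ∑ σ ∈ D, (2 : ℝ) :=
    Finset.sum_le_sum h.wsum
  have h3 : ∑ i ∈ F, ((D.image (del i)).card : ℝ) ≤ ∑ i ∈ F, (A : ℝ) :=
    Finset.sum_le_sum fun i hi => by exact_mod_cast hA i hi
  have h4 : ∑ i ∈ G, ((D.image (del i)).card : ℝ) ≤ ∑ i ∈ G, (B : ℝ) :=
    Finset.sum_le_sum fun i hi => by exact_mod_cast hB i hi
  rw [Finset.sum_const, nsmul_eq_mul] at h2 h3 h4
  have h5 : (((F.card + G.card) * D.card : ℕ) : ℝ)
      ≤ ((F.card * A + G.card * B + 2 * D.card : ℕ) : ℝ) := by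
    push_cast at h1 ⊢
    linarith
  exact_mod_cast h5

/-- Flip closure forces even fibres. -/
theorem card_eq_two_del {E : Finset (ι → ℝ)} {i : ι}
    (hv : ∀ x ∈ E, x i = 1 / 2 ∨ x i = -(1 / 2))
    (hcl : ∀ x ∈ E, Function.update x i (-x i) ∈ E) :
    E.card = 2 * (E.image (del i)).card := by
  apply le_antisymm (card_le_two_del E i (1 / 2) (-(1 / 2)) hv)
  have h1 : ∀ w : ℝ, (w = 1 / 2 ∨ w = -(1 / 2)) →
      (E.image (del i)).card ≤ (E.filter (fun x => x i = w)).card := by
    intro w hw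
    have : E.image (del i) ⊆ (E.filter (fun x => x i = w)).image (del i) := by
      intro z hz
      obtain ⟨x, hx, rfl⟩ := Finset.mem_image.1 hz
      rw [Finset.mem_image]
      by_cases hxw : x i = w
      · exact ⟨x, Finset.mem_filter.2 ⟨hx, hxw⟩, rfl⟩
      · refine ⟨Function.update x i (-x i), Finset.mem_filter.2 ⟨hcl x hx, ?_⟩, ?_⟩
        · rw [Function.update_self]
          rcases hv x hx with h2 | h2 <;> rcases hw with h3 | h3
          · exact absurd (h2.trans h3.symm) hxw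
          · rw [h2, h3]
          · rw [h2, h3]; norm_num
          · exact absurd (h2.trans h3.symm) hxw
        · simp [del]
    exact (Finset.card_le_card this).trans Finset.card_image_le
  have h2 := Finset.card_filter_add_card_filter_not (s := E) (fun x => x i = 1 / 2)
  have h3 : (E.filter (fun x => x i = -(1 / 2))).card ≤ (E.filter (fun x => ¬ x i = 1 / 2)).card := by
    apply Finset.card_le_card
    intro x hx
    rw [Finset.mem_filter] at hx ⊢
    refine ⟨hx.1, ?_⟩
    rw [hx.2]; norm_num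
  have h4 := h1 (1 / 2) (Or.inl rfl)
  have h5 := h1 (-(1 / 2)) (Or.inr rfl)
  omega

theorem flip_closed_of_card {E : Finset (ι → ℝ)} {i : ι}
    (hv : ∀ x ∈ E, x i = 1 / 2 ∨ x i = -(1 / 2)) (hE : E.card = 12)
    (hp : (E.image (del i)).card ≤ 6) : ∀ x ∈ E, Function.update x i (-x i) ∈ E := by
  intro x hx
  by_contra hno
  have h1 : (insert (Function.update x i (-x i)) E).card = 13 := by
    rw [Finset.card_insert_of_notMem hno, hE]
  have h2 : (insert (Function.update x i (-x i)) E).image (del i) = E.image (del i) := by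
    rw [Finset.image_insert]
    apply Finset.insert_eq_of_mem
    rw [Finset.mem_image]
    exact ⟨x, hx, by simp [del]⟩
  have h3 := card_le_two_del (insert (Function.update x i (-x i)) E) i (1 / 2) (-(1 / 2)) (by
    intro y hy
    rw [Finset.mem_insert] at hy
    rcases hy with rfl | hy
    · rw [Function.update_self]
      rcases hv x hx with h4 | h4
      · right; rw [h4]
      · left; rw [h4]; norm_num
    · exact hv y hy)
  rw [h1, h2] at h3
  omega

theorem flip_closed_del {E : Finset (ι → ℝ)} {i j : ι} (hij : j ≠ i)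
    (h : ∀ x ∈ E, Function.update x j (-x j) ∈ E) :
    ∀ x ∈ E.image (del i), Function.update x j (-x j) ∈ E.image (del i) := by
  intro x hx
  obtain ⟨y, hy, rfl⟩ := Finset.mem_image.1 hx
  rw [Finset.mem_image]
  refine ⟨_, h y hy, ?_⟩
  rw [del_of_ne hij]
  unfold del
  rw [Function.update_comm hij]

theorem HI.case41 {F : Finset ι} {g : ι} {D : Finset (ι → ℝ)} (h : HI F {g} D) (hs : Sym D)
    (hF : F.card = 4) : D.card ≤ 26 := by
  have hne : F.Nonempty := by rw [← Finset.card_pos]; omega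
  obtain ⟨a0, ha0⟩ := hne
  have heven := even_card hs a0 (fun x hx => h.half x hx a0 ha0)
  by_contra hcon
  have h28 : 28 ≤ D.card := by
    obtain ⟨k, hk⟩ := heven
    omega
  have hgF : g ∉ F := fun h1 => Finset.disjoint_left.1 h.disj h1 (by simp)
  have hA : ∀ i ∈ F, (D.image (del i)).card ≤ 18 := by
    intro i hi
    have hne' : (F.erase i).Nonempty := by
      rw [← Finset.card_pos, Finset.card_erase_of_mem hi]; omega
    have h1 := (h.delF hi).base4 (hs.del i) hne' (by
      rw [Finset.card_erase_of_mem hi, hF]; simp)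
    rcases h1 with h1 | h1
    · omega
    · exact h1.2.2
  have hG := h.delG (i := g) (by simp)
  have hGe : ({g} : Finset ι).erase g = ∅ := by simp
  rw [hGe] at hG
  set E := D.image (del g) with hE
  have hE16 : E.card ≤ 16 := by
    have := hG.box
    rw [hF] at this
    simpa using this
  have hproj : ∀ i ∈ F, 17 ≤ (D.image (del i)).card → (E.image (del i)).card ≤ 6 := by
    intro i hi h17
    have h1 := (h.delF hi).proj31 (hs.del i) (by rw [Finset.card_erase_of_mem hi, hF]) rfl h17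
    have h2 : E.image (del i) = (D.image (del i)).image (del g) := by
      rw [hE, Finset.image_image, Finset.image_image]
      congr 1
      ext x : 1
      exact del_comm _ _ _
    rw [h2]; exact h1
  have hEv : ∀ i ∈ F, ∀ x ∈ E, x i = 1 / 2 ∨ x i = -(1 / 2) := fun i hi x hx => hG.half x hx i hi
  -- the total is large
  have hsum : 84 ≤ ∑ i ∈ F, (D.image (del i)).card + E.card := by
    have h1 := h.t2'
    have h2 : ∑ σ ∈ D, ∑ i ∈ F ∪ {g}, wt F {g} D i σ ≤ ∑ σ ∈ D, (2 : ℝ) :=
      Finset.sum_le_sum h.wsum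
    rw [Finset.sum_const, nsmul_eq_mul] at h2
    rw [hF, Finset.sum_singleton, Finset.card_singleton] at h1
    have h3 : (3 : ℝ) * D.card ≤ ∑ i ∈ F, ((D.image (del i)).card : ℝ) + (E.card : ℝ) := by
      push_cast at h1
      linarith
    have h4 : 3 * D.card ≤ ∑ i ∈ F, (D.image (del i)).card + E.card := by
      exact_mod_cast h3
    omega
  have hex : ∃ i ∈ F, 17 ≤ (D.image (del i)).card := by
    by_contra hno
    push Not at hno
    have : ∑ i ∈ F, (D.image (del i)).card ≤ ∑ i ∈ F, 16 :=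
      Finset.sum_le_sum fun i hi => by have := hno i hi; omega
    rw [Finset.sum_const, hF] at this
    simp at this
    omega
  have hE12 : E.card ≤ 12 := by
    obtain ⟨i, hi, h17⟩ := hex
    have h1 := hproj i hi h17
    have h2 := card_le_two_del E i _ _ (hEv i hi)
    omega
  have hall : ∀ i ∈ F, (D.image (del i)).card = 18 := by
    intro i hi
    have h1 : ∑ j ∈ F.erase i, (D.image (del j)).card ≤ ∑ j ∈ F.erase i, 18 :=
      Finset.sum_le_sum fun j hj => hA j (Finset.mem_of_mem_erase hj)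
    rw [Finset.sum_const, Finset.card_erase_of_mem hi, hF] at h1
    have h2 := Finset.add_sum_erase F (fun j => (D.image (del j)).card) hi
    have h3 := hA i hi
    simp only [smul_eq_mul] at h1 h2
    omega
  have hE12' : E.card = 12 := by
    have h1 : ∑ i ∈ F, (D.image (del i)).card = ∑ i ∈ F, 18 :=
      Finset.sum_congr rfl hall
    rw [Finset.sum_const, hF] at h1
    simp only [smul_eq_mul] at h1
    omega
  have hcl : ∀ i ∈ F, ∀ x ∈ E, Function.update x i (-x i) ∈ E := fun i hi =>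
    flip_closed_of_card (hEv i hi) hE12' (hproj i hi (by rw [hall i hi]; norm_num))
  -- three different coordinates
  obtain ⟨a, b, c, ha, hb, hc, hab, hac, hbc⟩ := Finset.two_lt_card_iff.1
    (show 2 < F.card by omega)
  have e1 := card_eq_two_del (hEv a ha) (hcl a ha)
  have e2 := card_eq_two_del (E := E.image (del a)) (i := b) (by
    intro x hx
    obtain ⟨y, hy, rfl⟩ := Finset.mem_image.1 hx
    rw [del_of_ne (Ne.symm hab)]
    exact hEv b hb y hy) (flip_closed_del (Ne.symm hab) (hcl b hb))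
  have e3 := card_eq_two_del (E := (E.image (del a)).image (del b)) (i := c) (by
    intro x hx
    obtain ⟨z, hz, rfl⟩ := Finset.mem_image.1 hx
    obtain ⟨y, hy, rfl⟩ := Finset.mem_image.1 hz
    rw [del_of_ne (Ne.symm hbc), del_of_ne (Ne.symm hac)]
    exact hEv c hc y hy) (flip_closed_del (Ne.symm hbc) (flip_closed_del (Ne.symm hac) (hcl c hc)))
  omega

theorem HI.case32 {F G : Finset ι} {D : Finset (ι → ℝ)} (h : HI F G D) (hs : Sym D)
    (hF : F.card = 3) (hG : G.card = 2) : D.card ≤ 26 := by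
  have hne : F.Nonempty := by rw [← Finset.card_pos]; omega
  obtain ⟨a0, ha0⟩ := hne
  have heven := even_card hs a0 (fun x hx => h.half x hx a0 ha0)
  by_contra hcon
  have h28 : 28 ≤ D.card := by
    obtain ⟨k, hk⟩ := heven
    omega
  have hA : ∀ i ∈ F, (D.image (del i)).card ≤ 16 := by
    intro i hi
    have hne' : (F.erase i).Nonempty := by
      rw [← Finset.card_pos, Finset.card_erase_of_mem hi]; omega
    have h1 := (h.delF hi).base4 (hs.del i) hne' (by
      rw [Finset.card_erase_of_mem hi, hF, hG])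
    rcases h1 with h1 | h1
    · omega
    · rw [Finset.card_erase_of_mem hi, hF] at h1
      omega
  have hB : ∀ i ∈ G, (D.image (del i)).card ≤ 18 := by
    intro i hi
    have h1 := (h.delG hi).base4 (hs.del i) ⟨a0, ha0⟩ (by
      rw [Finset.card_erase_of_mem hi, hF, hG])
    rcases h1 with h1 | h1
    · omega
    · exact h1.2.2
  have h1 := h.t2'
  rw [hF, hG] at h1
  have h3 : ∑ i ∈ F, ((D.image (del i)).card : ℝ) ≤ ∑ i ∈ F, (16 : ℝ) :=
    Finset.sum_le_sum fun i hi => by exact_mod_cast hA i hi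
  have h4 : ∑ i ∈ G, ((D.image (del i)).card : ℝ) ≤ ∑ i ∈ G, (18 : ℝ) :=
    Finset.sum_le_sum fun i hi => by exact_mod_cast hB i hi
  rw [Finset.sum_const, nsmul_eq_mul, hF] at h3
  rw [Finset.sum_const, nsmul_eq_mul, hG] at h4
  have h28' : (28 : ℝ) ≤ D.card := by exact_mod_cast h28
  have h2 : ∑ σ ∈ D, ∑ i ∈ F ∪ G, wt F G D i σ ≤ ∑ σ ∈ D, (2 : ℝ) :=
    Finset.sum_le_sum h.wsum
  rw [Finset.sum_const, nsmul_eq_mul] at h2
  push_cast at h1 h3 h4
  have hW : ∀ σ ∈ D, ∑ i ∈ F ∪ G, wt F G D i σ = 2 := by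
    intro σ hσ
    by_contra hneq
    have hlt : ∑ i ∈ F ∪ G, wt F G D i σ < 2 := lt_of_le_of_ne (h.wsum σ hσ) hneq
    have h5 : ∑ σ ∈ D, ∑ i ∈ F ∪ G, wt F G D i σ < ∑ σ ∈ D, (2 : ℝ) :=
      Finset.sum_lt_sum h.wsum ⟨σ, hσ, hlt⟩
    rw [Finset.sum_const, nsmul_eq_mul] at h5
    linarith
  have hGall : ∀ i ∈ G, (D.image (del i)).card = 18 := by
    intro i hi
    by_contra hneq
    have hlt : (D.image (del i)).card < 18 := lt_of_le_of_ne (hB i hi) hneq
    have h5 : ∑ i ∈ G, ((D.image (del i)).card : ℝ) < ∑ i ∈ G, (18 : ℝ) :=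
      Finset.sum_lt_sum (fun i hi => by exact_mod_cast hB i hi) ⟨i, hi, by exact_mod_cast hlt⟩
    rw [Finset.sum_const, nsmul_eq_mul, hG] at h5
    push_cast at h5
    linarith
  have hFw : ∀ σ, ∑ i ∈ F, wt F G D i σ ≤ 3 / 2 := by
    intro σ
    calc _ ≤ ∑ i ∈ F, (1 / 2 : ℝ) := Finset.sum_le_sum fun i hi => wt_le_half hi σ
      _ = 3 / 2 := by rw [Finset.sum_const, hF]; norm_num
  obtain ⟨g1, g2, hg12, rfl⟩ := Finset.card_eq_two.1 hG
  have hF1 : g1 ∉ F := fun h1 => Finset.disjoint_left.1 h.disj h1 (by simp)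
  have hF2 : g2 ∉ F := fun h1 => Finset.disjoint_left.1 h.disj h1 (by simp)
  have hsplit : ∀ σ, ∑ i ∈ F ∪ {g1, g2}, wt F {g1, g2} D i σ
      = ∑ i ∈ F, wt F {g1, g2} D i σ + (wt F {g1, g2} D g1 σ + wt F {g1, g2} D g2 σ) := by
    intro σ
    rw [Finset.sum_union h.disj, Finset.sum_pair hg12]
  -- no vanishing integral coordinate
  have hmain : ∀ g g' : ι, (g = g1 ∧ g' = g2) ∨ (g = g2 ∧ g' = g1) → ∀ σ ∈ D, σ g ≠ 0 := by
    intro g g' hgg σ hσ h0
    have hgF : g ∉ F := by rcases hgg with ⟨rfl, rfl⟩ | ⟨rfl, rfl⟩ <;> assumption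
    have hgF' : g' ∉ F := by rcases hgg with ⟨rfl, rfl⟩ | ⟨rfl, rfl⟩ <;> assumption
    have hne : g ≠ g' := by
      rcases hgg with ⟨rfl, rfl⟩ | ⟨rfl, rfl⟩
      · exact hg12
      · exact hg12.symm
    have hgG' : g' ∈ ({g1, g2} : Finset ι) := by
      rcases hgg with ⟨rfl, rfl⟩ | ⟨rfl, rfl⟩ <;> simp
    have hsplit' : ∀ σ, ∑ i ∈ F ∪ {g1, g2}, wt F {g1, g2} D i σ
      = ∑ i ∈ F, wt F {g1, g2} D i σ + (wt F {g1, g2} D g σ + wt F {g1, g2} D g' σ) := by
      intro σ
      rcases hgg with ⟨rfl, rfl⟩ | ⟨rfl, rfl⟩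
      · exact hsplit σ
      · rw [hsplit σ]; ring
    have h5 := hW σ hσ
    rw [hsplit' σ, wt_zero hgF h0] at h5
    have h6 := hFw σ
    have h7 : wt F {g1, g2} D g' σ ≠ 0 := by
      intro h8; rw [h8] at h5; linarith
    have h8 : σ g' ≠ 0 := fun h9 => h7 (wt_zero hgF' h9)
    by_cases h9 : Function.update σ g' 0 ∈ D
    · have h10 := hW _ h9
      rw [hsplit' _, wt_zero hgF (by rw [Function.update_of_ne hne]; exact h0),
        wt_zero hgF' (by simp)] at h10
      have h11 := hFw (Function.update σ g' 0)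
      linarith
    · by_cases h10 : Function.update σ g' (-σ g') ∈ D
      · have h11 := h.wt_sum_le' σ (h.half σ hσ) (h.int σ hσ) (F ∪ {g1, g2}) g'
          (Finset.mem_union_right _ hgG') hgG' h8 h9 h10
        rw [hW σ hσ] at h11
        linarith
      · apply h7
        unfold wt
        simp only [hgF', if_false, hgG', if_true, h8, h9, h10]
  have hnz := hmain g1 g2 (Or.inl ⟨rfl, rfl⟩)
  have h18 := hGall g2 (by simp)
  have h5 := card_le_two_del (D.image (del g2)) g1 1 (-1) (by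
    intro x hx
    obtain ⟨y, hy, rfl⟩ := Finset.mem_image.1 hx
    rw [del_of_ne hg12]
    rcases h.int y hy g1 (by simp) with h6 | h6 | h6
    · right; exact h6
    · exact absurd h6 (hnz y hy)
    · left; exact h6)
  have h6 := ((h.delG (i := g2) (by simp)).delG (i := g1) (by simp [hg12])).box
  rw [hF] at h6
  have h7 : ((({g1, g2} : Finset ι).erase g2).erase g1).card = 0 := by
    rw [Finset.card_erase_of_mem (by simp [hg12]), Finset.card_erase_of_mem (by simp), hG]
  rw [h7] at h6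
  omega

end Pool.Agent.MPba6
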