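import Pool.Agent.MPba6.Count

namespace Pool.Agent.MPba6

open Finset Matrix Classical

variable {ι : Type*}

theorem TS.union_singles {D : Set (ι → ℝ)} (h : TS D) (P : Finset (ι × ℝ))
    (hP : ∀ p ∈ P, |p.2| ≤ 1) :
    TS (D ∪ ((P.image (fun p => (Pi.single p.1 p.2 : ι → ℝ)) : Finset (ι → ℝ)) : Set (ι → ℝ))) := by
  induction P using Finset.induction_on with
  | empty => simpa using h
  | insert p P hp ih =>
    have h1 := ih (fun q hq => hP q (Finset.mem_insert_of_mem hq))
    have h2 := h1.insert_single p.1 (hP p (Finset.mem_insert_self _ _))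
    apply h2.mono
    intro x hx
    rw [Finset.image_insert, Finset.coe_insert] at hx
    rcases hx with hx | hx
    · exact Or.inr (Or.inl hx)
    · rcases hx with hx | hx
      · exact Or.inl hx
      · exact Or.inr (Or.inr hx)

/-- The vectors `±e_i` for `i ∈ G`. -/
noncomputable def units (G : Finset ι) : Finset (ι → ℝ) :=
  (G ×ˢ ({1, -1} : Finset ℝ)).image (fun p => (Pi.single p.1 p.2 : ι → ℝ))

theorem mem_units {G : Finset ι} {x : ι → ℝ} :
    x ∈ units G ↔ ∃ i ∈ G, x = Pi.single i 1 ∨ x = Pi.single i (-1) := by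
  unfold units
  simp only [Finset.mem_image, Finset.mem_product, Finset.mem_insert, Finset.mem_singleton,
    Prod.exists]
  constructor
  · rintro ⟨i, a, ⟨hi, rfl | rfl⟩, rfl⟩
    · exact ⟨i, hi, Or.inl rfl⟩
    · exact ⟨i, hi, Or.inr rfl⟩
  · rintro ⟨i, hi, rfl | rfl⟩
    · exact ⟨i, 1, ⟨hi, Or.inl rfl⟩, rfl⟩
    · exact ⟨i, -1, ⟨hi, Or.inr rfl⟩, rfl⟩

theorem card_units (G : Finset ι) : (units G).card = 2 * G.card := by
  unfold units
  rw [Finset.card_image_of_injOn]
  · rw [Finset.card_product]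
    have : ({1, -1} : Finset ℝ).card = 2 := by
      rw [Finset.card_pair]; norm_num
    rw [this, mul_comm]
  · rintro ⟨i, a⟩ hp ⟨j, b⟩ hq hpq
    simp only [Finset.coe_product, Set.mem_prod, Finset.mem_coe, Finset.mem_insert,
      Finset.mem_singleton] at hp hq
    simp only at hpq
    have hij : i = j := by
      by_contra hne
      have h1 := congrFun hpq i
      rw [Pi.single_eq_same, Pi.single_eq_of_ne hne] at h1
      rcases hp.2 with h2 | h2 <;> rw [h2] at h1 <;> norm_num at h1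
    subst hij
    have h1 := congrFun hpq i
    rw [Pi.single_eq_same, Pi.single_eq_same] at h1
    rw [h1]

theorem zero_not_mem_units (G : Finset ι) : (0 : ι → ℝ) ∉ units G := by
  rw [mem_units]
  rintro ⟨i, hi, h1 | h1⟩
  · have := congrFun h1 i
    simp at this
  · have := congrFun h1 i
    simp at this

theorem HI.add_units {G : Finset ι} {D : Finset (ι → ℝ)} (h : HI ∅ G D) (hG : G.Nonempty) :
    HI ∅ G (D ∪ insert 0 (units G)) where
  disj := h.disj
  half := by simp
  int := by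
    intro x hx i hi
    rw [Finset.mem_union, Finset.mem_insert, mem_units] at hx
    rcases hx with hx | rfl | ⟨j, hj, rfl | rfl⟩
    · exact h.int x hx i hi
    · simp
    · by_cases hij : i = j
      · subst hij; simp
      · simp [Pi.single_eq_of_ne hij]
    · by_cases hij : i = j
      · subst hij; simp
      · simp [Pi.single_eq_of_ne hij]
  off := by
    intro x hx i hi hi'
    rw [Finset.mem_union, Finset.mem_insert, mem_units] at hx
    rcases hx with hx | rfl | ⟨j, hj, rfl | rfl⟩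
    · exact h.off x hx i hi hi'
    · simp
    · have hij : i ≠ j := by rintro rfl; exact hi' hj
      simp [Pi.single_eq_of_ne hij]
    · have hij : i ≠ j := by rintro rfl; exact hi' hj
      simp [Pi.single_eq_of_ne hij]
  ts := by
    obtain ⟨i0, hi0⟩ := hG
    have h1 := h.ts.union_singles (G ×ˢ ({1, -1} : Finset ℝ)) (by
      rintro ⟨i, a⟩ hp
      simp only [Finset.mem_product, Finset.mem_insert, Finset.mem_singleton] at hp
      rcases hp.2 with h2 | h2 <;> simp [h2])
    have h2 := h1.insert_single i0 (a := 0) (by simp)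
    apply h2.mono
    intro x hx
    rw [Finset.coe_union, Finset.coe_insert] at hx
    rcases hx with hx | hx | hx
    · exact Or.inr (Or.inl hx)
    · left; rw [hx]; simp
    · exact Or.inr (Or.inr hx)

theorem card_le_seven_of_two {a b : ι} (hab : a ≠ b) {D : Finset (ι → ℝ)}
    (h : HI ∅ {a, b} D) : D.card ≤ 7 := by
  set f : (ι → ℝ) → ℤ × ℤ := fun x => (⌊x a⌋, ⌊x b⌋) with hf
  have hval : ∀ x ∈ D, ∀ i ∈ ({a, b} : Finset ι), x i = (⌊x i⌋ : ℝ) ∧ ⌊x i⌋ ∈ Finset.Icc (-1 : ℤ) 1 := by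
    intro x hx i hi
    rcases h.int x hx i hi with h1 | h1 | h1
    · rw [h1]
      have e : ⌊(-1 : ℝ)⌋ = -1 := by
        rw [Int.floor_eq_iff]; norm_num
      rw [e]
      simp
    · rw [h1]; simp
    · rw [h1]; simp
  have ha : a ∈ ({a, b} : Finset ι) := by simp
  have hb : b ∈ ({a, b} : Finset ι) := by simp
  have hinj : Set.InjOn f (D : Set (ι → ℝ)) := by
    intro x hx y hy hxy
    simp only [hf, Prod.mk.injEq] at hxy
    ext i
    by_cases hi : i ∈ ({a, b} : Finset ι)
    · have h1 := (hval x hx i hi).1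
      have h2 := (hval y hy i hi).1
      rw [h1, h2]
      rw [Finset.mem_insert, Finset.mem_singleton] at hi
      rcases hi with rfl | rfl
      · rw [hxy.1]
      · rw [hxy.2]
    · rw [h.off x hx i (by simp) hi, h.off y hy i (by simp) hi]
  rw [← Finset.card_image_of_injOn hinj]
  have hsub : D.image f ⊆ Finset.Icc (-1 : ℤ) 1 ×ˢ Finset.Icc (-1 : ℤ) 1 := by
    intro p hp
    obtain ⟨x, hx, rfl⟩ := Finset.mem_image.1 hp
    rw [Finset.mem_product]
    exact ⟨(hval x hx a ha).2, (hval x hx b hb).2⟩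
  have hdet : ∀ p ∈ D.image f, ∀ q ∈ D.image f, |p.1 * q.2 - q.1 * p.2| ≤ 1 := by
    intro p hp q hq
    obtain ⟨x, hx, rfl⟩ := Finset.mem_image.1 hp
    obtain ⟨y, hy, rfl⟩ := Finset.mem_image.1 hq
    have h1 := h.ts 2 ![x, y] ![a, b] (by
      intro j
      fin_cases j
      · exact hx
      · exact hy)
    rw [Matrix.det_fin_two] at h1
    simp only [Matrix.of_apply, Matrix.cons_val_zero, Matrix.cons_val_one] at h1
    rw [(hval x hx a ha).1, (hval x hx b hb).1, (hval y hy a ha).1, (hval y hy b hb).1] at h1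
    simp only [hf]
    exact_mod_cast h1
  by_cases h1 : ∃ p ∈ D.image f, p.1 * p.2 = 1
  · have hsub2 : D.image f ⊆ (Finset.Icc (-1 : ℤ) 1 ×ˢ Finset.Icc (-1 : ℤ) 1).filter
        (fun p => p.1 * p.2 ≠ -1) := by
      intro q hq
      rw [Finset.mem_filter]
      refine ⟨hsub hq, ?_⟩
      obtain ⟨p, hp, hp1⟩ := h1
      intro hq1
      have h2 := hdet p hp q hq
      have h3 := Int.mul_eq_one_iff_eq_one_or_neg_one.1 hp1
      have h4 : q.1 * q.2 = -1 := hq1
      have h5 := hsub hq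
      rw [Finset.mem_product, Finset.mem_Icc, Finset.mem_Icc] at h5
      have h6 : q.1 = -1 ∨ q.1 = 0 ∨ q.1 = 1 := by omega
      have h7 : q.2 = -1 ∨ q.2 = 0 ∨ q.2 = 1 := by omega
      rcases h3 with ⟨h3, h3'⟩ | ⟨h3, h3'⟩ <;> rcases h6 with h6 | h6 | h6 <;>
        rcases h7 with h7 | h7 | h7 <;> rw [h3, h3', h6, h7] at h2 <;>
        rw [h6, h7] at h4 <;> revert h2 h4 <;> decide
    refine (Finset.card_le_card hsub2).trans ?_
    decide
  · have hsub2 : D.image f ⊆ (Finset.Icc (-1 : ℤ) 1 ×ˢ Finset.Icc (-1 : ℤ) 1).filter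
        (fun p => p.1 * p.2 ≠ 1) := by
      intro q hq
      rw [Finset.mem_filter]
      exact ⟨hsub hq, fun h2 => h1 ⟨q, hq, h2⟩⟩
    refine (Finset.card_le_card hsub2).trans ?_
    decide

theorem HI.t2 {F G : Finset ι} {D : Finset (ι → ℝ)} (h : HI F G D) :
    ∑ i ∈ F ∪ G, ((D.card : ℝ) - ((D.image (del i)).card : ℝ))
      ≤ ∑ σ ∈ D, ∑ i ∈ F ∪ G, wt F G D i σ := by
  rw [Finset.sum_comm]
  exact Finset.sum_le_sum fun i hi => h.sub_le i hi

theorem heller_step {G : Finset ι} {D : Finset (ι → ℝ)} (h : HI ∅ G D) (m : ℕ) (hm : 3 ≤ m)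
    (hG : G.card = m)
    (ih : ∀ (G' : Finset ι) (D' : Finset (ι → ℝ)), HI ∅ G' D' → G'.card = m - 1 →
      D'.card ≤ (m - 1) ^ 2 + (m - 1) + 1) : D.card ≤ m ^ 2 + m + 1 := by
  have hne : G.Nonempty := by
    rw [← Finset.card_pos]; omega
  set U := insert 0 (units G) with hU
  set E := D ∪ U with hE
  have hEI : HI ∅ G E := h.add_units hne
  have hDE : D.card ≤ E.card := Finset.card_le_card Finset.subset_union_left
  have hUE : U ⊆ E := Finset.subset_union_right
  have hUcard : U.card = 2 * m + 1 := by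
    rw [hU, Finset.card_insert_of_notMem (zero_not_mem_units G), card_units, hG]
  have hW0 : ∑ i ∈ ∅ ∪ G, wt ∅ G E i 0 = 0 :=
    Finset.sum_eq_zero fun i _ => wt_zero (by simp) rfl
  have hWu : ∀ x ∈ units G, ∑ i ∈ ∅ ∪ G, wt ∅ G E i x ≤ 1 := by
    intro x hx
    obtain ⟨j, hj, hxj⟩ := mem_units.1 hx
    have hj' : j ∈ ∅ ∪ G := by simpa using hj
    rw [← Finset.add_sum_erase _ _ hj']
    have h1 : ∑ i ∈ (∅ ∪ G).erase j, wt ∅ G E i x = 0 := by
      apply Finset.sum_eq_zero
      intro i hi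
      apply wt_zero (by simp)
      have : i ≠ j := Finset.ne_of_mem_erase hi
      rcases hxj with rfl | rfl <;> simp [this]
    rw [h1, add_zero]
    exact wt_le_one _ _
  have hW : ∀ x ∈ E, ∑ i ∈ ∅ ∪ G, wt ∅ G E i x ≤ 2 := by
    intro x hx
    exact hEI.wt_sum_le x (hEI.half x hx) (hEI.int x hx) _
  have hsum : ∑ σ ∈ E, ∑ i ∈ ∅ ∪ G, wt ∅ G E i σ ≤ 2 * (E.card : ℝ) - 2 * m - 2 := by
    rw [← Finset.sum_sdiff hUE]
    have h1 : ∑ σ ∈ E \ U, ∑ i ∈ ∅ ∪ G, wt ∅ G E i σ ≤ ∑ σ ∈ E \ U, (2 : ℝ) :=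
      Finset.sum_le_sum fun σ hσ => hW σ (Finset.mem_sdiff.1 hσ).1
    have h2 : ∑ σ ∈ U, ∑ i ∈ ∅ ∪ G, wt ∅ G E i σ ≤ 2 * (m : ℝ) := by
      rw [hU, Finset.sum_insert (zero_not_mem_units G), hW0, zero_add]
      calc _ ≤ ∑ σ ∈ units G, (1 : ℝ) := Finset.sum_le_sum fun σ hσ => hWu σ hσ
        _ = 2 * (m : ℝ) := by
          rw [Finset.sum_const, card_units, hG]; simp
    have h3 : ((E \ U).card : ℝ) = (E.card : ℝ) - (2 * m + 1) := by
      rw [Finset.card_sdiff_of_subset hUE, Nat.cast_sub (Finset.card_le_card hUE), hUcard]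
      push_cast; ring
    rw [Finset.sum_const, nsmul_eq_mul, h3] at h1
    linarith
  have hT := hEI.t2
  have hdel : ∀ i ∈ G, ((E.image (del i)).card : ℝ) ≤ ((m : ℝ) - 1) ^ 2 + (m - 1) + 1 := by
    intro i hi
    have h1 := ih (G.erase i) _ (hEI.delG hi) (by rw [Finset.card_erase_of_mem hi, hG])
    have h2 : ((E.image (del i)).card : ℝ) ≤ (((m - 1) ^ 2 + (m - 1) + 1 : ℕ) : ℝ) := by
      exact_mod_cast h1
    refine h2.trans (le_of_eq ?_)
    push_cast [Nat.cast_sub (show 1 ≤ m by omega)]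
    ring
  have hL : (m : ℝ) * (E.card : ℝ) - m * (((m : ℝ) - 1) ^ 2 + (m - 1) + 1)
      ≤ ∑ i ∈ ∅ ∪ G, ((E.card : ℝ) - ((E.image (del i)).card : ℝ)) := by
    rw [Finset.empty_union]
    have h1 : ∑ i ∈ G, ((E.card : ℝ) - (((m : ℝ) - 1) ^ 2 + (m - 1) + 1))
        ≤ ∑ i ∈ G, ((E.card : ℝ) - ((E.image (del i)).card : ℝ)) :=
      Finset.sum_le_sum fun i hi => by linarith [hdel i hi]
    rw [Finset.sum_const, hG, nsmul_eq_mul] at h1
    linarith
  have hfin : ((m : ℝ) - 2) * (E.card : ℝ) ≤ (m - 2) * (m ^ 2 + m + 1) := by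
    nlinarith
  have hm3 : (3 : ℝ) ≤ m := by exact_mod_cast hm
  have hE' : (E.card : ℝ) ≤ (m : ℝ) ^ 2 + m + 1 := by
    have : (0 : ℝ) < m - 2 := by linarith
    exact le_of_mul_le_mul_left hfin this
  have : E.card ≤ m ^ 2 + m + 1 := by exact_mod_cast hE'
  omega

theorem card_le_one_of_zero {D : Finset (ι → ℝ)} (h : HI ∅ ∅ D) : D.card ≤ 1 := by
  rw [Finset.card_le_one]
  intro x hx y hy
  ext i
  rw [h.off x hx i (by simp) (by simp), h.off y hy i (by simp) (by simp)]

theorem card_le_three_of_one {a : ι} {D : Finset (ι → ℝ)} (h : HI ∅ {a} D) : D.card ≤ 3 := by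
  have hinj : Set.InjOn (fun x : ι → ℝ => x a) (D : Set (ι → ℝ)) := by
    intro x hx y hy hxy
    ext i
    by_cases hi : i = a
    · subst hi; exact hxy
    · rw [h.off x hx i (by simp) (by simpa using hi), h.off y hy i (by simp) (by simpa using hi)]
  rw [← Finset.card_image_of_injOn hinj]
  have hsub : D.image (fun x : ι → ℝ => x a) ⊆ {-1, 0, 1} := by
    intro v hv
    obtain ⟨x, hx, rfl⟩ := Finset.mem_image.1 hv
    rcases h.int x hx a (by simp) with h1 | h1 | h1 <;> simp [h1]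
  exact (Finset.card_le_card hsub).trans Finset.card_le_three

/-- Heller's bound, for integral configurations. -/
theorem heller (m : ℕ) : ∀ (G : Finset ι) (D : Finset (ι → ℝ)), HI ∅ G D → G.card = m →
    D.card ≤ m ^ 2 + m + 1 := by
  induction m with
  | zero =>
    intro G D h hG
    rw [Finset.card_eq_zero] at hG
    subst hG
    simpa using card_le_one_of_zero h
  | succ m ih =>
    intro G D h hG
    match m, ih with
    | 0, _ =>
      obtain ⟨a, rfl⟩ := Finset.card_eq_one.1 hG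
      simpa using card_le_three_of_one h
    | 1, _ =>
      obtain ⟨a, b, hab, rfl⟩ := Finset.card_eq_two.1 hG
      simpa using card_le_seven_of_two hab h
    | (k + 2), ih =>
      apply heller_step h (k + 2 + 1) (by omega) hG
      intro G' D' h' hG'
      have := ih G' D' h' (by omega)
      simpa using this

end Pool.Agent.MPba6
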