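import Pool.Agent.MPba6.Heller
import Pool.Agent.MPba6.Engine

namespace Pool.Agent.MPba6

open Finset Matrix Classical

variable {ι : Type*}

theorem TS.ldet_le {D : Set (ι → ℝ)} (h : TS D) (R C : List ℕ) (hlen : C.length = R.length)
    (co : ℕ → ι) (v : ℕ → ι → ℝ) (f : ℕ → ℕ → ℤ) (κ : ℕ → ℝ)
    (hf : ∀ ρ ∈ R, ∀ q ∈ C, v q (co ρ) = κ ρ * (f ρ q : ℝ)) (hC : ∀ q ∈ C, v q ∈ D) :
    |(R.map κ).prod| * |(ldet f R C : ℝ)| ≤ 1 := by
  have hR : ∀ i : Fin R.length, R.getD i 0 ∈ R := by
    intro i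
    rw [List.getD_eq_getElem _ _ i.2]
    exact List.getElem_mem _
  have hC' : ∀ i : Fin R.length, C.getD i 0 ∈ C := by
    intro i
    rw [List.getD_eq_getElem _ _ (by rw [hlen]; exact i.2)]
    exact List.getElem_mem _
  have h1 := h.det_le (fun j : Fin R.length => v (C.getD j 0)) (fun i => co (R.getD i 0))
    (fun j => hC _ (hC' j))
  have h2 : (Matrix.of fun (i j : Fin R.length) => v (C.getD j 0) (co (R.getD i 0)))
      = Matrix.of fun (i j : Fin R.length) => κ (R.getD i 0) *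
        ((Matrix.of fun (i j : Fin R.length) => f (R.getD i 0) (C.getD j 0)).map
          (Int.cast : ℤ → ℝ)) i j := by
    ext i j
    simp only [Matrix.of_apply, Matrix.map_apply]
    exact hf _ (hR i) _ (hC' j)
  rw [h2, Matrix.det_mul_column, abs_mul] at h1
  have h3 : ((Matrix.of fun (i j : Fin R.length) => f (R.getD i 0) (C.getD j 0)).map
      (Int.cast : ℤ → ℝ)).det = (ldet f R C : ℝ) := by
    rw [ldet_eq f R C hlen]
    exact (Int.cast_det _).symm
  have h4 : ∏ i : Fin R.length, κ (R.getD i 0) = (R.map κ).prod := by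
    rw [← List.prod_ofFn]
    congr 1
    apply List.ext_getElem
    · simp
    · intro i h5 h6
      simp at h6
      simp [h6]
  rw [h3, h4] at h1
  exact h1

theorem TS.ldet_le_pow {D : Set (ι → ℝ)} (h : TS D) (R C : List ℕ) (hlen : C.length = R.length)
    (co : ℕ → ι) (v : ℕ → ι → ℝ) (f : ℕ → ℕ → ℤ) (κ : ℕ → ℝ) (K : ℕ) (hK : 0 < K)
    (hκ : ∀ ρ ∈ R, |κ ρ| = 1 / (K : ℝ))
    (hf : ∀ ρ ∈ R, ∀ q ∈ C, v q (co ρ) = κ ρ * (f ρ q : ℝ)) (hC : ∀ q ∈ C, v q ∈ D) :
    (ldet f R C).natAbs ≤ K ^ R.length := by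
  have h1 := h.ldet_le R C hlen co v f κ hf hC
  have h2 : |(R.map κ).prod| = (1 / (K : ℝ)) ^ R.length := by
    clear hf hlen h1
    induction R with
    | nil => simp
    | cons r rs ih =>
      rw [List.map_cons, List.prod_cons, abs_mul, ih (fun ρ hρ => hκ ρ (by simp [hρ])),
        hκ r (by simp), List.length_cons, pow_succ']
  have hK' : (0 : ℝ) < (K : ℝ) ^ R.length := by positivity
  rw [h2, one_div, inv_pow, inv_mul_le_iff₀ hK', mul_one] at h1
  have h3 : ((ldet f R C).natAbs : ℝ) ≤ ((K ^ R.length : ℕ) : ℝ) := by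
    rw [Nat.cast_natAbs]
    push_cast
    exact h1
  exact_mod_cast h3

/-- certificate check at scale `K` -/
def certOK (f : ℕ → ℕ → ℤ) (K m n : ℕ) (c : ℕ × List ℕ × List ℕ) : Bool :=
  (c.2.1.length + 1 == c.2.2.length) && (c.2.2.all fun ρ => Nat.blt ρ m) &&
    ((c.1 :: c.2.1).all fun q => Nat.blt q n) &&
    Nat.blt (K ^ c.2.2.length) (ldet f c.2.2 (c.1 :: c.2.1)).natAbs

/-- integer entry table -/
def ent (AV : List (List ℤ)) (ρ q : ℕ) : ℤ := (AV.getD q []).getD ρ 0

/-- the vector with entries `a ρ / 2` at the coordinates `co ρ`, `ρ < m` -/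
noncomputable def vecOf (co : ℕ → ι) (m : ℕ) (a : ℕ → ℤ) : ι → ℝ :=
  fun i => ∑ ρ ∈ Finset.range m, if co ρ = i then (a ρ : ℝ) / 2 else 0

theorem vecOf_co (co : ℕ → ι) (m : ℕ) (a : ℕ → ℤ)
    (hinj : ∀ ρ < m, ∀ ρ' < m, co ρ = co ρ' → ρ = ρ') (ρ : ℕ) (hρ : ρ < m) :
    vecOf co m a (co ρ) = (a ρ : ℝ) / 2 := by
  unfold vecOf
  rw [Finset.sum_eq_single ρ]
  · simp
  · intro ρ' h1 h2
    rw [if_neg]
    intro h3
    exact h2 (hinj ρ' (Finset.mem_range.1 h1) ρ hρ h3)
  · intro h1
    exact absurd (Finset.mem_range.2 hρ) h1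

theorem vecOf_off (co : ℕ → ι) (m : ℕ) (a : ℕ → ℤ) (i : ι) (hi : ∀ ρ < m, co ρ ≠ i) :
    vecOf co m a i = 0 := by
  unfold vecOf
  apply Finset.sum_eq_zero
  intro ρ hρ
  rw [if_neg (hi ρ (Finset.mem_range.1 hρ))]

/-- Transfer of the search to symmetric half-integral configurations. -/
theorem half_engine (leaf : ℕ → Bool) {D : Finset (ι → ℝ)} (hTS : TS (D : Set (ι → ℝ)))
    (co : ℕ → ι) (m : ℕ) (hinj : ∀ ρ < m, ∀ ρ' < m, co ρ = co ρ' → ρ = ρ')
    (hoff : ∀ x ∈ D, ∀ i, (∀ ρ < m, co ρ ≠ i) → x i = 0)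
    (hsym : ∀ x ∈ D, -x ∈ D) (h0 : ∀ x ∈ D, x (co 0) = 1 / 2 ∨ x (co 0) = -(1 / 2))
    (AV : List (List ℤ)) (n : ℕ) (hn : AV.length = n)
    (hcov : ∀ x ∈ D, x (co 0) = 1 / 2 →
      ∃ l ∈ AV, ∀ ρ < m, x (co ρ) = ((l.getD ρ 0 : ℤ) : ℝ) / 2)
    (FB : List (ℕ × List ℕ × List ℕ)) (need : ℕ) (T : List (List ℕ)) (hT : T = tbl FB n)
    (hcert : FB.all (certOK (ent AV) 2 m n) = true)
    (hs : search leaf T n 1 0 need = true) :
    D.card + 2 ≤ 2 * need ∨ ∃ c, (∀ i, c.testBit i =
      (decide (i < n) && decide (vecOf co m (fun ρ => ent AV ρ i) ∈ D))) ∧ leaf c = true := by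
  set v : ℕ → ι → ℝ := fun q => vecOf co m (fun ρ => ent AV ρ q) with hv
  have h1 := search_sound' leaf FB n need (fun q => decide (v q ∈ D)) T hT (by
    intro c hc hb1 hb2
    have hc' := List.all_eq_true.1 hcert c hc
    unfold certOK at hc'
    rw [Bool.and_eq_true, Bool.and_eq_true, Bool.and_eq_true] at hc'
    obtain ⟨⟨⟨hc1, hc2⟩, hc3⟩, hc4⟩ := hc'
    have hc4' : 2 ^ c.2.2.length < (ldet (ent AV) c.2.2 (c.1 :: c.2.1)).natAbs := by
      simpa using hc4
    have hlen : (c.1 :: c.2.1).length = c.2.2.length := by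
      simpa using hc1
    have h2 := hTS.ldet_le_pow c.2.2 (c.1 :: c.2.1) hlen co v (ent AV) (fun _ => 1 / 2) 2
      (by norm_num) (fun ρ _ => by norm_num) (by
        intro ρ hρ q hq
        have hρm : ρ < m := by
          have := List.all_eq_true.1 hc2 ρ hρ
          simpa using this
        rw [hv]
        simp only
        rw [vecOf_co co m _ hinj ρ hρm]
        ring) (by
        intro q hq
        rw [List.mem_cons] at hq
        rcases hq with rfl | hq
        · simpa using hb1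
        · simpa using hb2 q hq)
    omega) hs
  rcases h1 with h1 | ⟨c, h1, h2⟩
  · left
    have hsub : D ⊆ (((Finset.range n).filter (fun i => decide (v i ∈ D) = true)).image v) ∪
        (((Finset.range n).filter (fun i => decide (v i ∈ D) = true)).image (fun q => - v q)) := by
      have key : ∀ x ∈ D, x (co 0) = 1 / 2 → ∃ q < n, v q = x := by
        intro x hx hx0
        obtain ⟨l, hl, hlx⟩ := hcov x hx hx0
        obtain ⟨q, hq, hql⟩ := List.getElem_of_mem hl
        refine ⟨q, by omega, ?_⟩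
        ext i
        by_cases hi : ∃ ρ < m, co ρ = i
        · obtain ⟨ρ, hρ, rfl⟩ := hi
          rw [hv]
          simp only
          rw [vecOf_co co m _ hinj ρ hρ, hlx ρ hρ]
          unfold ent
          rw [List.getD_eq_getElem _ _ hq, hql]
        · push Not at hi
          rw [hv]
          simp only
          rw [vecOf_off co m _ i hi, hoff x hx i hi]
      intro x hx
      rw [Finset.mem_union, Finset.mem_image, Finset.mem_image]
      rcases h0 x hx with h3 | h3
      · left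
        obtain ⟨q, hq, hqx⟩ := key x hx h3
        refine ⟨q, ?_, hqx⟩
        rw [Finset.mem_filter, Finset.mem_range]
        exact ⟨hq, by rw [hqx]; simpa using hx⟩
      · right
        have hx' := hsym x hx
        obtain ⟨q, hq, hqx⟩ := key (-x) hx' (by rw [Pi.neg_apply, h3]; norm_num)
        refine ⟨q, ?_, ?_⟩
        · rw [Finset.mem_filter, Finset.mem_range]
          exact ⟨hq, by rw [hqx]; simpa using hx'⟩
        · rw [hqx, neg_neg]
    have h2 := Finset.card_le_card hsub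
    have h3 := Finset.card_union_le
      (((Finset.range n).filter (fun i => decide (v i ∈ D) = true)).image v)
      (((Finset.range n).filter (fun i => decide (v i ∈ D) = true)).image (fun q => - v q))
    have h4 : (((Finset.range n).filter (fun i => decide (v i ∈ D) = true)).image v).card
        ≤ _ := Finset.card_image_le
    have h5 : (((Finset.range n).filter (fun i => decide (v i ∈ D) = true)).image
        (fun q => - v q)).card ≤ _ := Finset.card_image_le
    omega
  · right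
    exact ⟨c, h1, h2⟩

end Pool.Agent.MPba6
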