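import Pool.Agent.MPba6.DblFive
import Pool.Agent.MPba6.HalfFin

namespace Pool.Agent.MPba6

open Finset Matrix Classical

variable {ι : Type*}

variable {i0 : ι} {h e : ℝ} {t : ι → ℝ} {F G : Finset ι} {Y : Finset (ι → ℝ)}

theorem Dbl.big (n : ℕ) (hn : 5 ≤ n) : ∀ (F : Finset ι) (Y : Finset (ι → ℝ)),
    Dbl i0 h e t F ∅ Y → F.card = n → Y.card ≤ 2 * n := by
  induction n, hn using Nat.le_induction with
  | base => intro F Y H hc; exact H.five hc
  | succ n hn ih =>
    intro F Y H hc
    have h1 := H.recur
    have h2 : ∑ k ∈ F, ((Y.image (del k)).card : ℝ) ≤ ∑ k ∈ F, (2 * n : ℝ) := by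
      apply Finset.sum_le_sum
      intro k hk
      have h3 := ih _ _ (H.delF hk) (by rw [Finset.card_erase_of_mem hk, hc]; rfl)
      exact_mod_cast h3
    rw [Finset.sum_const, nsmul_eq_mul, hc] at h2
    rw [hc] at h1
    by_contra hcon
    push Not at hcon
    have h3 : (2 * (n : ℝ) + 3) ≤ Y.card := by
      have : 2 * n + 3 ≤ Y.card := by omega
      exact_mod_cast this
    have h4 : (5 : ℝ) ≤ n := by exact_mod_cast hn
    push_cast at h1 h2
    nlinarith

theorem Dbl.box (H : Dbl i0 h e t F ∅ Y) : Y.card ≤ 2 ^ F.card := by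
  induction hn : F.card generalizing F Y with
  | zero =>
    rw [Finset.card_eq_zero] at hn
    subst hn
    rw [pow_zero, Finset.card_le_one]
    intro x hx y hy
    ext i
    rw [H.off x hx i (by simp) (by simp), H.off y hy i (by simp) (by simp)]
  | succ n ih =>
    obtain ⟨k, hk⟩ : F.Nonempty := by rw [← Finset.card_pos]; omega
    have h1 := ih (H.delF hk) (by rw [Finset.card_erase_of_mem hk, hn]; rfl)
    have h2 := card_le_two_del Y k (t k) (t k - 1) (fun x hx => H.frac x hx k hk)
    rw [pow_succ]
    omega

theorem Dbl.boundF (H : Dbl i0 h e t F ∅ Y) : Y.card ≤ 2 * F.card + 2 := by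
  have hbox := H.box
  by_cases h5 : 5 ≤ F.card
  · have := Dbl.big F.card h5 F Y H rfl
    omega
  · by_cases h4 : F.card = 4
    · have := H.four_le h4
      omega
    · have h1 : F.card = 0 ∨ F.card = 1 ∨ F.card = 2 ∨ F.card = 3 := by omega
      rcases h1 with h1 | h1 | h1 | h1 <;> rw [h1] at hbox ⊢ <;> omega

theorem Dbl.bound (H : Dbl i0 h e t F G Y) : Y.card ≤ 2 * (F.card + G.card) + 2 := by
  induction hn : G.card generalizing G Y with
  | zero =>
    rw [Finset.card_eq_zero] at hn
    subst hn
    simpa using H.boundF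
  | succ n ih =>
    obtain ⟨k, hk⟩ : G.Nonempty := by rw [← Finset.card_pos]; omega
    have h1 := ih (H.delG hk) (by rw [Finset.card_erase_of_mem hk, hn]; rfl)
    have h2 := H.costG hk
    omega

theorem Dbl.boundG (H : Dbl i0 h e t ∅ G Y) : Y.card ≤ G.card + 1 := by
  induction hn : G.card generalizing G Y with
  | zero =>
    rw [Finset.card_eq_zero] at hn
    subst hn
    simpa using H.box
  | succ n ih =>
    obtain ⟨k, hk⟩ : G.Nonempty := by rw [← Finset.card_pos]; omega
    have h1 := ih (H.delG hk) (by rw [Finset.card_erase_of_mem hk, hn]; rfl)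
    have h2 := H.costG hk
    omega

/-- Configurations in the coset `t + ℤ^S`. -/
structure Cfg (t : ι → ℝ) (S : Finset ι) (D : Finset (ι → ℝ)) : Prop where
  ht : ∀ i ∈ S, 0 ≤ t i ∧ t i < 1
  coset : ∀ x ∈ D, ∀ i ∈ S, ∃ n : ℤ, x i = t i + n
  off : ∀ x ∈ D, ∀ i, i ∉ S → x i = 0
  ts : TS (D : Set (ι → ℝ))

theorem Cfg.del {S : Finset ι} {D : Finset (ι → ℝ)} (H : Cfg t S D) (i : ι) :
    Cfg t (S.erase i) (D.image (del i)) where
  ht := fun j hj => H.ht j (Finset.mem_of_mem_erase hj)
  coset := by
    intro x hx j hj
    obtain ⟨y, hy, rfl⟩ := Finset.mem_image.1 hx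
    rw [Finset.mem_erase] at hj
    rw [del_of_ne hj.1]
    exact H.coset y hy j hj.2
  off := by
    intro x hx j hj
    obtain ⟨y, hy, rfl⟩ := Finset.mem_image.1 hx
    by_cases hji : j = i
    · subst hji; exact del_same _ _
    · rw [del_of_ne hji]
      exact H.off y hy j (fun h1 => hj (Finset.mem_erase.2 ⟨hji, h1⟩))
  ts := by
    rw [Finset.coe_image]
    exact H.ts.del i

theorem Cfg.frac {S : Finset ι} {D : Finset (ι → ℝ)} (H : Cfg t S D) {x : ι → ℝ} (hx : x ∈ D)
    {i : ι} (hi : i ∈ S) (h0 : t i ≠ 0) : x i = t i ∨ x i = t i - 1 := by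
  obtain ⟨n, hn⟩ := H.coset x hx i hi
  have h1 := H.ts.entry hx i
  have h2 := H.ht i hi
  have h3 : 0 < t i := lt_of_le_of_ne h2.1 (Ne.symm h0)
  rw [hn, abs_le] at h1
  have h4 : (n : ℝ) < 1 := by linarith [h1.2]
  have h5 : (-2 : ℝ) < n := by linarith [h1.1]
  have h6 : n < 1 := by exact_mod_cast h4
  have h7 : -2 < n := by exact_mod_cast h5
  have h8 : n = 0 ∨ n = -1 := by omega
  rcases h8 with h8 | h8
  · left; rw [hn, h8]; simp
  · right; rw [hn, h8]; push_cast; ring

theorem Cfg.int {S : Finset ι} {D : Finset (ι → ℝ)} (H : Cfg t S D) {x : ι → ℝ} (hx : x ∈ D)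
    {i : ι} (hi : i ∈ S) (h0 : t i = 0) : x i = -1 ∨ x i = 0 ∨ x i = 1 := by
  obtain ⟨n, hn⟩ := H.coset x hx i hi
  have h1 := H.ts.entry hx i
  rw [hn, h0, zero_add, abs_le] at h1
  have h6 : n ≤ 1 := by exact_mod_cast h1.2
  have h7 : -1 ≤ n := by exact_mod_cast h1.1
  have h8 : n = -1 ∨ n = 0 ∨ n = 1 := by omega
  rcases h8 with h8 | h8 | h8
  · left; rw [hn, h8, h0]; simp
  · right; left; rw [hn, h8, h0]; simp
  · right; right; rw [hn, h8, h0]; simp

/-- The counting step at a coordinate with two values. -/
theorem card_eq_add {D : Finset (ι → ℝ)} (i : ι) (u v : ℝ)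
    (h : ∀ x ∈ D, x i = u ∨ x i = v) :
    D.card ≤ (D.image (del i)).card + ((D.image (del i)).filter (fun z =>
      Function.update z i u ∈ D ∧ Function.update z i v ∈ D)).card := by
  set D0 := D.filter (fun y => y i = u) with hD0
  set D1 := D.filter (fun y => ¬ y i = u) with hD1
  have hcard : D0.card + D1.card = D.card :=
    Finset.card_filter_add_card_filter_not (s := D) (fun y => y i = u)
  have hv1 : ∀ x ∈ D1, x i = v := by
    intro x hx
    rw [hD1, Finset.mem_filter] at hx
    exact (h x hx.1).resolve_left hx.2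
  have hi0 : (D0.image (del i)).card = D0.card := by
    apply Finset.card_image_of_injOn
    intro x hx y hy hxy
    rw [Finset.mem_coe, hD0, Finset.mem_filter] at hx hy
    have hxy' : MPba6.del i x = MPba6.del i y := hxy
    rw [← update_del i x, ← update_del i y, hxy', hx.2, hy.2]
  have hi1 : (D1.image (del i)).card = D1.card := by
    apply Finset.card_image_of_injOn
    intro x hx y hy hxy
    have hxy' : MPba6.del i x = MPba6.del i y := hxy
    rw [← update_del i x, ← update_del i y, hxy', hv1 x hx, hv1 y hy]
  have hunion : (D0.image (del i)) ∪ (D1.image (del i)) ⊆ D.image (del i) := by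
    intro z hz
    rw [Finset.mem_union, Finset.mem_image, Finset.mem_image] at hz
    rw [Finset.mem_image]
    rcases hz with ⟨y, hy, rfl⟩ | ⟨y, hy, rfl⟩
    · exact ⟨y, (Finset.mem_filter.1 hy).1, rfl⟩
    · exact ⟨y, (Finset.mem_filter.1 hy).1, rfl⟩
  have hinter : (D0.image (del i)) ∩ (D1.image (del i)) ⊆ (D.image (del i)).filter (fun z =>
      Function.update z i u ∈ D ∧ Function.update z i v ∈ D) := by
    intro z hz
    rw [Finset.mem_inter] at hz
    have hzD : z ∈ D.image (del i) := hunion (Finset.mem_union_left _ hz.1)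
    rw [Finset.mem_filter]
    refine ⟨hzD, ?_, ?_⟩
    · obtain ⟨y, hy, rfl⟩ := Finset.mem_image.1 hz.1
      rw [hD0, Finset.mem_filter] at hy
      rw [← hy.2, update_del]; exact hy.1
    · obtain ⟨y, hy, rfl⟩ := Finset.mem_image.1 hz.2
      rw [← hv1 y hy, update_del]
      exact (Finset.mem_filter.1 hy).1
  have h3 := Finset.card_le_card hunion
  have h4 := Finset.card_union_add_card_inter (D0.image (del i)) (D1.image (del i))
  have h5 := Finset.card_le_card hinter
  omega

/-- The integral case. -/
theorem main_int {S : Finset ι} {D : Finset (ι → ℝ)} (H : Cfg t S D) (h0 : ∀ i ∈ S, t i = 0) :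
    D.card ≤ S.card ^ 2 + S.card + 1 := by
  apply heller S.card S D _ rfl
  refine ⟨by simp, by simp, ?_, ?_, H.ts⟩
  · intro x hx i hi
    exact H.int hx hi (h0 i hi)
  · intro x hx i _ hi
    exact H.off x hx i hi

/-- The main bound: a configuration in a nontrivial coset has at most `m ^ 2 + m` points. -/
theorem main (m : ℕ) : ∀ (t : ι → ℝ) (S : Finset ι) (D : Finset (ι → ℝ)), Cfg t S D →
    S.card = m → (∃ i ∈ S, t i ≠ 0) → D.card ≤ m ^ 2 + m := by
  induction m with
  | zero =>
    intro t S D H hS hex
    rw [Finset.card_eq_zero] at hS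
    subst hS
    simp at hex
  | succ m ih =>
    intro t S D H hS hex
    by_cases hcase : ∃ i ∈ S, t i ≠ 0 ∧ t i ≠ 1 / 2
    · -- a coordinate that is neither integral nor half-integral
      set P := S.filter (fun i => t i ≠ 0 ∧ t i ≠ 1 / 2) with hP
      have hPne : P.Nonempty := by
        obtain ⟨i, hi, h1⟩ := hcase
        exact ⟨i, Finset.mem_filter.2 ⟨hi, h1⟩⟩
      obtain ⟨i0, hi0, hmin⟩ := Finset.exists_min_image P (fun i => min (t i) (1 - t i)) hPne
      rw [hP, Finset.mem_filter] at hi0
      obtain ⟨hi0S, hi0a, hi0b⟩ := hi0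
      have ht0 := H.ht i0 hi0S
      have htpos : 0 < t i0 := lt_of_le_of_ne ht0.1 (Ne.symm hi0a)
      -- the parameters
      obtain ⟨h, e, hh1, hh2, he, hmin', hlift⟩ : ∃ h e : ℝ, 1 / 2 < h ∧ h < 1 ∧
          (e = 1 ∨ e = -1) ∧ min (t i0) (1 - t i0) = 1 - h ∧
          ((e * h = t i0 ∧ e * (h - 1) = t i0 - 1) ∨ (e * h = t i0 - 1 ∧ e * (h - 1) = t i0)) := by
        rcases lt_or_gt_of_ne hi0b with h1 | h1
        · refine ⟨1 - t i0, -1, by linarith, by linarith, Or.inr rfl, ?_, Or.inr ⟨by ring, by ring⟩⟩
          rw [min_eq_left (by linarith)]; ring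
        · refine ⟨t i0, 1, h1, ht0.2, Or.inl rfl, ?_, Or.inl ⟨by ring, by ring⟩⟩
          rw [min_eq_right (by linarith)]
      have hval : ∀ x ∈ D, x i0 = t i0 ∨ x i0 = t i0 - 1 := fun x hx => H.frac hx hi0S hi0a
      have hadd := card_eq_add i0 (t i0) (t i0 - 1) hval
      have hdel := H.del i0
      have hScard : (S.erase i0).card = m := by rw [Finset.card_erase_of_mem hi0S, hS]; rfl
      set Y := (D.image (MPba6.del i0)).filter (fun z =>
        Function.update z i0 (t i0) ∈ D ∧ Function.update z i0 (t i0 - 1) ∈ D) with hY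
      have hYsub : ∀ y ∈ Y, y ∈ D.image (MPba6.del i0) := fun y hy => (Finset.mem_filter.1 hy).1
      have hDbl : Dbl i0 h e t ((S.erase i0).filter (fun k => t k ≠ 0))
          ((S.erase i0).filter (fun k => ¬ t k ≠ 0)) Y := by
        refine ⟨hh1, hh2, he, Finset.disjoint_filter_filter_not _ _ _, by simp, by simp, ?_, ?_, ?_,
          ?_, ?_⟩
        · intro k hk
          rw [Finset.mem_filter] at hk
          have hkS := Finset.mem_of_mem_erase hk.1
          have htk := H.ht k hkS
          by_cases hk2 : t k = 1 / 2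
          · rw [hk2]; constructor <;> linarith
          · have h3 := hmin k (Finset.mem_filter.2 ⟨hkS, hk.2, hk2⟩)
            rw [hmin'] at h3
            constructor
            · exact h3.trans (min_le_left _ _)
            · have := h3.trans (min_le_right _ _)
              linarith
        · intro y hy k hk
          rw [Finset.mem_filter] at hk
          exact hdel.frac (hYsub y hy) hk.1 hk.2
        · intro y hy k hk
          rw [Finset.mem_filter, not_not] at hk
          exact hdel.int (hYsub y hy) hk.1 hk.2
        · intro y hy k hk hk'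
          apply hdel.off y (hYsub y hy) k
          intro h3
          by_cases h4 : t k ≠ 0
          · exact hk (Finset.mem_filter.2 ⟨h3, h4⟩)
          · exact hk' (Finset.mem_filter.2 ⟨h3, h4⟩)
        · apply H.ts.mono
          rintro x ⟨y, hy, hx⟩
          have hy2 := (Finset.mem_filter.1 hy).2
          rcases hlift with ⟨l1, l2⟩ | ⟨l1, l2⟩
          · rw [l1, l2] at hx
            rcases hx with rfl | rfl
            · exact hy2.1
            · exact hy2.2
          · rw [l1, l2] at hx
            rcases hx with rfl | rfl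
            · exact hy2.2
            · exact hy2.1
      by_cases hrest : ∃ k ∈ S.erase i0, t k ≠ 0
      · have hIH := ih t (S.erase i0) _ hdel hScard hrest
        have hb := hDbl.bound
        have hc : ((S.erase i0).filter (fun k => t k ≠ 0)).card
            + ((S.erase i0).filter (fun k => ¬ t k ≠ 0)).card = m := by
          rw [Finset.card_filter_add_card_filter_not, hScard]
        rw [hc] at hb
        have h9 : (m + 1) ^ 2 + (m + 1) = m ^ 2 + m + (2 * m + 2) := by ring
        omega
      · push Not at hrest
        have hint := main_int hdel hrest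
        rw [hScard] at hint
        have hFe : (S.erase i0).filter (fun k => t k ≠ 0) = ∅ := by
          rw [Finset.filter_eq_empty_iff]
          intro k hk h3
          exact h3 (hrest k hk)
        rw [hFe] at hDbl
        have hb := hDbl.boundG
        have hc : ((S.erase i0).filter (fun k => ¬ t k ≠ 0)).card ≤ m := by
          rw [← hScard]
          exact Finset.card_filter_le _ _
        have h9 : (m + 1) ^ 2 + (m + 1) = m ^ 2 + m + (2 * m + 2) := by ring
        omega
    · push Not at hcase
      -- only integral and half-integral coordinates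
      set F := S.filter (fun i => t i ≠ 0) with hF
      set G := S.filter (fun i => ¬ t i ≠ 0) with hG
      have hdisj : Disjoint F G := Finset.disjoint_filter_filter_not _ _ _
      have hc : F.card + G.card = m + 1 := by
        rw [hF, hG, Finset.card_filter_add_card_filter_not, hS]
      have hHI : HI F G D := by
        refine ⟨hdisj, ?_, ?_, ?_, H.ts⟩
        · intro x hx i hi
          rw [hF, Finset.mem_filter] at hi
          have h1 := hcase i hi.1 hi.2
          rcases H.frac hx hi.1 hi.2 with h2 | h2
          · left; rw [h2, h1]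
          · right; rw [h2, h1]; norm_num
        · intro x hx i hi
          rw [hG, Finset.mem_filter, not_not] at hi
          exact H.int hx hi.1 hi.2
        · intro x hx i hi hi'
          apply H.off x hx i
          intro h3
          by_cases h4 : t i ≠ 0
          · exact hi (Finset.mem_filter.2 ⟨h3, h4⟩)
          · exact hi' (Finset.mem_filter.2 ⟨h3, h4⟩)
      have hFne : F.Nonempty := by
        obtain ⟨i, hi, hi2⟩ := hex
        exact ⟨i, Finset.mem_filter.2 ⟨hi, hi2⟩⟩
      have hsym : HI F G (D ∪ D.image (fun x => -x)) := by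
        have hmem : ∀ x ∈ D ∪ D.image (fun x => -x), x ∈ D ∨ -x ∈ D := by
          intro x hx
          rw [Finset.mem_union, Finset.mem_image] at hx
          rcases hx with hx | ⟨y, hy, rfl⟩
          · exact Or.inl hx
          · right; rwa [neg_neg]
        refine ⟨hdisj, ?_, ?_, ?_, ?_⟩
        · intro x hx i hi
          rcases hmem x hx with h1 | h1
          · exact hHI.half x h1 i hi
          · rcases hHI.half (-x) h1 i hi with h2 | h2
            · right; rw [Pi.neg_apply] at h2; linarith
            · left; rw [Pi.neg_apply] at h2; linarith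
        · intro x hx i hi
          rcases hmem x hx with h1 | h1
          · exact hHI.int x h1 i hi
          · rcases hHI.int (-x) h1 i hi with h2 | h2 | h2
            · right; right; rw [Pi.neg_apply] at h2; linarith
            · right; left; rw [Pi.neg_apply] at h2; linarith
            · left; rw [Pi.neg_apply] at h2; linarith
        · intro x hx i hi hi'
          rcases hmem x hx with h1 | h1
          · exact hHI.off x h1 i hi hi'
          · have := hHI.off (-x) h1 i hi hi'
            rw [Pi.neg_apply] at this; linarith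
        · apply H.ts.of_signs
          intro x hx
          exact hmem x hx
      have hS' : Sym (D ∪ D.image (fun x => -x)) := by
        intro x hx
        rw [Finset.mem_union, Finset.mem_image] at hx ⊢
        rcases hx with hx | ⟨y, hy, rfl⟩
        · right; exact ⟨x, hx, rfl⟩
        · left; rwa [neg_neg]
      have h1 := half_bound hsym hS' hFne
      rw [hc] at h1
      obtain ⟨a0, ha0⟩ := hFne
      obtain ⟨k, hk⟩ := even_card hS' a0 (fun x hx => hsym.half x hx a0 ha0)
      obtain ⟨l, hl⟩ := Nat.even_mul_succ_self (m + 1)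
      have h2 : (m + 1) ^ 2 + (m + 1) = (m + 1) * (m + 1 + 1) := by ring
      have h3 : D.card ≤ (D ∪ D.image (fun x => -x)).card :=
        Finset.card_le_card Finset.subset_union_left
      omega

end Pool.Agent.MPba6
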